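import Mathlib

/-! Relatively algebraically closed intermediate fields and quadratic steps. -/

set_option autoImplicit false

namespace Pool.Agent.TH178.HI

open Polynomial

variable {k E : Type} [Field k] [Field E] [Algebra k E]

/-- `L` contains every element of `M` which is algebraic over `L`. -/
def RelCl (L M : IntermediateField k E) : Prop := ∀ x ∈ M, IsAlgebraic L x → x ∈ L

theorem isAlgebraic_mono {L M : IntermediateField k E} (h : L ≤ M) {x : E}
    (hx : IsAlgebraic L x) : IsAlgebraic M x := by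
  obtain ⟨p, hp, h0⟩ := hx
  refine ⟨p.map (IntermediateField.inclusion h).toRingHom, ?_, ?_⟩
  · rwa [Ne, Polynomial.map_eq_zero]
  · rw [aeval_def, eval₂_map]
    exact h0

theorem RelCl.trans {L M N : IntermediateField k E} (hLM : L ≤ M) (h1 : RelCl L M)
    (h2 : RelCl M N) : RelCl L N :=
  fun x hx ha => h1 x (h2 x hx (isAlgebraic_mono hLM ha)) ha

theorem RelCl.mono {L M N : IntermediateField k E} (h : RelCl L N) (hM : M ≤ N) : RelCl L M :=
  fun x hx ha => h x (hM hx) ha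

/-- The elements of `M(v)`, `v² = P`. -/
theorem mem_adjoin_sqrt {M : IntermediateField k E} {v P : E} (hP : P ∈ M) (hv : v ^ 2 = P)
    {x : E} (hx : x ∈ IntermediateField.adjoin k ((M : Set E) ∪ {v})) :
    ∃ a ∈ M, ∃ b ∈ M, x = a + b * v := by
  induction hx using IntermediateField.adjoin_induction with
  | mem x hx =>
    rcases hx with hx | hx
    · exact ⟨x, hx, 0, M.zero_mem, by ring⟩
    · rw [Set.mem_singleton_iff] at hx
      exact ⟨0, M.zero_mem, 1, M.one_mem, by rw [hx]; ring⟩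
  | algebraMap x => exact ⟨_, M.algebraMap_mem x, 0, M.zero_mem, by ring⟩
  | add x y _ _ hx hy =>
    obtain ⟨a, ha, b, hb, rfl⟩ := hx
    obtain ⟨c, hc, d, hd, rfl⟩ := hy
    exact ⟨a + c, M.add_mem ha hc, b + d, M.add_mem hb hd, by ring⟩
  | mul x y _ _ hx hy =>
    obtain ⟨a, ha, b, hb, rfl⟩ := hx
    obtain ⟨c, hc, d, hd, rfl⟩ := hy
    refine ⟨a * c + b * d * P, M.add_mem (M.mul_mem ha hc) (M.mul_mem (M.mul_mem hb hd) hP),
      a * d + b * c, M.add_mem (M.mul_mem ha hd) (M.mul_mem hb hc), ?_⟩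
    linear_combination b * d * hv
  | inv x _ hx =>
    obtain ⟨a, ha, b, hb, rfl⟩ := hx
    by_cases h0 : a + b * v = 0
    · exact ⟨0, M.zero_mem, 0, M.zero_mem, by rw [h0]; simp⟩
    by_cases hn : a ^ 2 - b ^ 2 * P = 0
    · have h1 : (a + b * v) * (a - b * v) = 0 := by linear_combination hn - b ^ 2 * hv
      have h2 : a - b * v = 0 := (mul_eq_zero.mp h1).resolve_left h0
      have h3 : a + b * v = 2 * a := by linear_combination -h2
      rw [h3]
      exact ⟨(2 * a)⁻¹, M.inv_mem (M.mul_mem (by exact_mod_cast M.natCast_mem 2) ha), 0,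
        M.zero_mem, by ring⟩
    · have hN : a ^ 2 - b ^ 2 * P ∈ M :=
        M.sub_mem (pow_mem ha 2) (M.mul_mem (pow_mem hb 2) hP)
      refine ⟨a * (a ^ 2 - b ^ 2 * P)⁻¹, M.mul_mem ha (M.inv_mem hN),
        -b * (a ^ 2 - b ^ 2 * P)⁻¹, M.mul_mem (M.neg_mem hb) (M.inv_mem hN), ?_⟩
      rw [inv_eq_iff_eq_inv, ← inv_eq_iff_eq_inv, eq_comm]
      field_simp
      linear_combination -(b ^ 2) * hv

/-- The conjugate of an algebraic element is algebraic. -/
theorem isAlgebraic_conj {L M : IntermediateField k E} (hLM : L ≤ M) {v P : E} (hP : P ∈ M)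
    (hv : v ^ 2 = P) (hvM : v ∉ M) {a b : E} (ha : a ∈ M) (hb : b ∈ M)
    (hx : IsAlgebraic L (a + b * v)) : IsAlgebraic L (a - b * v) := by
  obtain ⟨p, hp, h0⟩ := hx
  refine ⟨p, hp, ?_⟩
  have key : ∀ q : Polynomial L, ∃ u ∈ M, ∃ w ∈ M, aeval (a + b * v) q = u + w * v ∧
      aeval (a - b * v) q = u - w * v := by
    intro q
    induction q using Polynomial.induction_on' with
    | add q r hq hr =>
      obtain ⟨u, hu, w, hw, h1, h2⟩ := hq
      obtain ⟨u', hu', w', hw', h1', h2'⟩ := hr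
      refine ⟨u + u', M.add_mem hu hu', w + w', M.add_mem hw hw', ?_, ?_⟩
      · rw [map_add, h1, h1']; ring
      · rw [map_add, h2, h2']; ring
    | monomial n c =>
      induction n with
      | zero =>
        refine ⟨(c : E), hLM c.2, 0, M.zero_mem, ?_, ?_⟩
        · simp only [monomial_zero_left, aeval_C, zero_mul, add_zero]; rfl
        · simp only [monomial_zero_left, aeval_C, zero_mul, sub_zero]; rfl
      | succ n ih =>
        obtain ⟨u, hu, w, hw, h1, h2⟩ := ih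
        have e : (monomial (n + 1) c : Polynomial L) = monomial n c * X := by
          rw [monomial_mul_X]
        refine ⟨u * a + w * b * P, M.add_mem (M.mul_mem hu ha) (M.mul_mem (M.mul_mem hw hb) hP),
          u * b + w * a, M.add_mem (M.mul_mem hu hb) (M.mul_mem hw ha), ?_, ?_⟩
        · rw [e, map_mul, h1, aeval_X]; linear_combination w * b * hv
        · rw [e, map_mul, h2, aeval_X]; linear_combination w * b * hv
  obtain ⟨u, hu, w, hw, h1, h2⟩ := key p
  rw [h0] at h1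
  have hw0 : w = 0 := by
    by_contra hw0
    apply hvM
    have : v = -u * w⁻¹ := by field_simp; linear_combination -h1
    rw [this]
    exact M.mul_mem (M.neg_mem hu) (M.inv_mem hw)
  rw [h2, hw0]
  rw [hw0] at h1
  linear_combination -h1

/-- A quadratic step: if `P` is not an element of `L` times a square of `M`, then `L` stays
algebraically closed in `M(√P)`. -/
theorem RelCl.sqrt [CharZero E] {L M : IntermediateField k E} (hLM : L ≤ M) (h : RelCl L M)
    {v P : E} (hP : P ∈ M) (hv : v ^ 2 = P) (hsq : ∀ c ∈ L, ∀ m ∈ M, P ≠ c * m ^ 2) :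
    RelCl L (IntermediateField.adjoin k ((M : Set E) ∪ {v})) := by
  intro x hx hax
  have hvM : v ∉ M := fun hvM => hsq 1 L.one_mem v hvM (by rw [hv, one_mul])
  obtain ⟨a, ha, b, hb, rfl⟩ := mem_adjoin_sqrt hP hv hx
  by_cases hb0 : b = 0
  · rw [hb0, zero_mul, add_zero] at hax ⊢
    exact h a ha hax
  exfalso
  have hc := isAlgebraic_conj hLM hP hv hvM ha hb hax
  have h1 : IsAlgebraic L (4 * (b ^ 2 * P)) := by
    have h2 := (hax.sub hc).pow 2
    have h3 : (a + b * v - (a - b * v)) ^ 2 = 4 * (b ^ 2 * P) := by rw [← hv]; ring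
    rwa [h3] at h2
  have h4 : (4 : E) * (b ^ 2 * P) ∈ L :=
    h _ (M.mul_mem (by exact_mod_cast M.natCast_mem 4) (M.mul_mem (pow_mem hb 2) hP)) h1
  refine hsq _ h4 (2 * b)⁻¹ (M.inv_mem (M.mul_mem (by exact_mod_cast M.natCast_mem 2) hb)) ?_
  have : (2 : E) ≠ 0 := two_ne_zero
  field_simp
  ring

/-! ### Quadratic polynomials in a transcendental element -/

theorem natDegree_qd {F : Type} [Field F] (A B C₀ : F) :
    (C A * X ^ 2 + C B * X + C C₀ : F[X]).natDegree ≤ 2 := natDegree_quadratic_le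

theorem coprime_qd {F : Type} [Field F] {A B C₀ : F} (hd : B ^ 2 - 4 * A * C₀ ≠ 0) :
    IsCoprime (C A * X ^ 2 + C B * X + C C₀ : F[X])
      (derivative (C A * X ^ 2 + C B * X + C C₀ : F[X])) := by
  refine ⟨C (B ^ 2 - 4 * A * C₀)⁻¹ * (-4 * C A),
    C (B ^ 2 - 4 * A * C₀)⁻¹ * (derivative (C A * X ^ 2 + C B * X + C C₀ : F[X])), ?_⟩
  have h1 : derivative (C A * X ^ 2 + C B * X + C C₀ : F[X]) = 2 * C A * X + C B := by
    simp; ring
  have h2 : C (B ^ 2 - 4 * A * C₀)⁻¹ * C (B ^ 2 - 4 * A * C₀) = (1 : F[X]) := by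
    rw [← C_mul, inv_mul_cancel₀ hd, C_1]
  have h4 : (C (4 : F) : F[X]) = 4 := map_ofNat C 4
  have h3 : (C (B ^ 2 - 4 * A * C₀) : F[X]) = C B ^ 2 - 4 * C A * C C₀ := by
    rw [C_sub, C_pow, C_mul, C_mul, h4]
  rw [h1]
  rw [h3] at h2
  linear_combination h2

theorem squarefree_qd {F : Type} [Field F] {A B C₀ : F} (hd : B ^ 2 - 4 * A * C₀ ≠ 0) :
    Squarefree (C A * X ^ 2 + C B * X + C C₀ : F[X]) :=
  Separable.squarefree (coprime_qd hd)

theorem qd_ne_zero {F : Type} [Field F] {A B C₀ : F} (hd : B ^ 2 - 4 * A * C₀ ≠ 0) :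
    (C A * X ^ 2 + C B * X + C C₀ : F[X]) ≠ 0 := (squarefree_qd hd).ne_zero

theorem coeffs_qd {F : Type} [Field F] (A B C₀ : F) :
    (C A * X ^ 2 + C B * X + C C₀ : F[X]).coeff 0 = C₀ ∧
    (C A * X ^ 2 + C B * X + C C₀ : F[X]).coeff 1 = B ∧
    (C A * X ^ 2 + C B * X + C C₀ : F[X]).coeff 2 = A := by
  refine ⟨?_, ?_, ?_⟩ <;> simp [coeff_X, coeff_C, coeff_X_pow]

/-- a quadratic polynomial with nonzero discriminant is not a constant times a square -/
theorem qd_ne_sq {F : Type} [Field F] {A B C₀ : F} (hd : B ^ 2 - 4 * A * C₀ ≠ 0)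
    (c : F) (r : F[X]) : C A * X ^ 2 + C B * X + C C₀ ≠ C c * r ^ 2 := by
  intro h
  have hsf := squarefree_qd hd
  have hu : IsUnit r := hsf r ⟨C c, by rw [h]; ring⟩
  obtain ⟨e, -, rfl⟩ := Polynomial.isUnit_iff.mp hu
  obtain ⟨-, h1, h2⟩ := coeffs_qd A B C₀
  rw [h, ← C_pow, ← C_mul, coeff_C] at h1 h2
  simp only [one_ne_zero, if_false, OfNat.ofNat_ne_zero] at h1 h2
  apply hd
  rw [← h1, ← h2]; ring

/-- two quadratic polynomials with nonzero discriminant whose product is a constant times a square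
are proportional -/
theorem qd_mul_ne_sq {F : Type} [Field F] {A B C₀ A' B' C' : F} (hd : B ^ 2 - 4 * A * C₀ ≠ 0)
    (hd' : B' ^ 2 - 4 * A' * C' ≠ 0)
    (hm : ¬ (A * B' = A' * B ∧ A * C' = A' * C₀ ∧ B * C' = B' * C₀)) (c : F) (r : F[X]) :
    (C A * X ^ 2 + C B * X + C C₀) * (C A' * X ^ 2 + C B' * X + C C') ≠ C c * r ^ 2 := by
  intro h
  set P : F[X] := C A * X ^ 2 + C B * X + C C₀ with hP
  set Q : F[X] := C A' * X ^ 2 + C B' * X + C C' with hQ
  have hsP : Squarefree P := squarefree_qd hd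
  have hsQ : Squarefree Q := squarefree_qd hd'
  have hP0 : P ≠ 0 := hsP.ne_zero
  have hQ0 : Q ≠ 0 := hsQ.ne_zero
  have hc : c ≠ 0 := by
    rintro rfl
    rw [C_0, zero_mul] at h
    exact mul_ne_zero hP0 hQ0 h
  have h1 : P ∣ r ^ 2 := by
    refine ⟨C c⁻¹ * Q, ?_⟩
    have : C c⁻¹ * C c = (1 : F[X]) := by rw [← C_mul, inv_mul_cancel₀ hc, C_1]
    linear_combination -(r ^ 2) * this - C c⁻¹ * h
  have h2 : P ∣ r := (hsP.dvd_pow_iff_dvd two_ne_zero).mp h1
  obtain ⟨r', rfl⟩ := h2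
  have h3 : Q = C c * P * r' ^ 2 := by
    apply mul_left_cancel₀ hP0
    rw [h]; ring
  have hu : IsUnit r' := hsQ r' ⟨C c * P, by rw [h3]; ring⟩
  obtain ⟨e, -, rfl⟩ := Polynomial.isUnit_iff.mp hu
  have h4 : Q = C (c * e ^ 2) * P := by rw [h3, C_mul, C_pow]; ring
  obtain ⟨p0, p1, p2⟩ := coeffs_qd A B C₀
  obtain ⟨q0, q1, q2⟩ := coeffs_qd A' B' C'
  rw [← hQ, h4, coeff_C_mul, hP] at q0 q1 q2
  rw [p0] at q0
  rw [p1] at q1
  rw [p2] at q2
  apply hm
  rw [← q0, ← q1, ← q2]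
  refine ⟨by ring, by ring, by ring⟩

end Pool.Agent.TH178.HI
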