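import Pool.Agent.TH178.WA.Chord

/-! Coefficients of a polynomial of degree at most two in one of its variables, and the
specialisation of the last variables. -/

set_option autoImplicit false

namespace Pool.Agent.TH178.HI

open MvPolynomial

section coef

variable {k : Type} [Field k] {τ : Type}

/-- The discriminant of `f` with respect to the variable `i`, for `f` of degree at most two in this
variable: if `f = a t_i² + b t_i + c` then this is `b² - 4ac`. -/
noncomputable def disc (f : MvPolynomial τ k) (i : τ) : MvPolynomial τ k :=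
  pderiv i f ^ 2 - 2 * f * pderiv i (pderiv i f)

/-- coefficient of `t_i²` -/
noncomputable def coA (f : MvPolynomial τ k) (i : τ) : MvPolynomial τ k :=
  C (1 / 2) * pderiv i (pderiv i f)

/-- coefficient of `t_i` -/
noncomputable def coB (f : MvPolynomial τ k) (i : τ) : MvPolynomial τ k :=
  pderiv i f - pderiv i (pderiv i f) * X i

/-- constant coefficient in `t_i` -/
noncomputable def coC (f : MvPolynomial τ k) (i : τ) : MvPolynomial τ k :=
  f - pderiv i f * X i + C (1 / 2) * pderiv i (pderiv i f) * X i ^ 2

theorem coef_eq [CharZero k] (f : MvPolynomial τ k) (i : τ) :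
    coA f i * X i ^ 2 + coB f i * X i + coC f i = f := by
  have h : (2 : MvPolynomial τ k) * C (1 / 2) = 1 := by
    rw [← map_ofNat C 2, ← C_mul, mul_one_div_cancel two_ne_zero, C_1]
  rw [coA, coB, coC]
  linear_combination (pderiv i (pderiv i f) * X i ^ 2) * h

theorem coef_disc [CharZero k] (f : MvPolynomial τ k) (i : τ) :
    coB f i ^ 2 - 4 * coA f i * coC f i = disc f i := by
  have h : (2 : MvPolynomial τ k) * C (1 / 2) = 1 := by
    rw [← map_ofNat C 2, ← C_mul, mul_one_div_cancel two_ne_zero, C_1]
  rw [coA, coB, coC, disc]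
  linear_combination (-(2 * f * pderiv i (pderiv i f)) +
    2 * pderiv i f * pderiv i (pderiv i f) * X i -
    pderiv i (pderiv i f) ^ 2 * X i ^ 2 * (2 * C (1 / 2) + 1)) * h

theorem coef_update {E : Type} [Field E] [Algebra k E] [CharZero k] [Fintype τ] [DecidableEq τ]
    (f : MvPolynomial τ k) (i : τ) (hf : f.degreeOf i ≤ 2) (p : τ → E) (z : E) :
    aeval (Function.update p i z) f =
      aeval p (coA f i) * z ^ 2 + aeval p (coB f i) * z + aeval p (coC f i) := by
  have hE : CharZero E := charZero_of_injective_algebraMap (algebraMap k E).injective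
  have h1 := WA.quadratic (map (algebraMap k E) f) i (WA.degreeOf_map_le _ f i hf) p (z - p i)
  rw [add_sub_cancel, pderiv_map, pderiv_map] at h1
  simp only [eval_map, ← aeval_def] at h1
  rw [h1, coA, coB, coC]
  simp only [map_add, map_sub, map_mul, map_pow, aeval_C, aeval_X, map_div₀, map_one, map_ofNat]
  ring

end coef

section mix

/-- `(s_0, ..., s_{m-1}, t_m, ..., t_{n-1})` -/
def mix {n : ℕ} {E : Type} (s t : Fin n → E) (m : ℕ) : Fin n → E :=
  fun i => if (i : ℕ) < m then s i else t i

theorem mix_succ {n : ℕ} {E : Type} (s t : Fin n → E) (i : Fin n) :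
    mix s t (i + 1) = Function.update (mix s t i) i (s i) := by
  funext j
  by_cases h : j = i
  · subst h
    rw [Function.update_self, mix, if_pos (Nat.lt_succ_self _)]
  · rw [Function.update_of_ne h, mix, mix]
    have h' : (j : ℕ) ≠ i := fun h' => h (Fin.ext h')
    by_cases h1 : (j : ℕ) < i
    · rw [if_pos h1, if_pos (by omega)]
    · rw [if_neg h1, if_neg (by omega)]

theorem mix_self {n : ℕ} {E : Type} (s t : Fin n → E) (i : Fin n) :
    mix s t i = Function.update (mix s t i) i (t i) := by
  funext j
  by_cases h : j = i
  · subst h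
    rw [Function.update_self, mix, if_neg (lt_irrefl _)]
  · rw [Function.update_of_ne h]

theorem mix_back {n : ℕ} {E : Type} (s t : Fin n → E) (i : Fin n) :
    mix s t i = Function.update (mix s t (i + 1)) i (t i) := by
  rw [mix_succ, Function.update_idem, ← mix_self]

theorem mix_succ_self {n : ℕ} {E : Type} (s t : Fin n → E) (i : Fin n) :
    mix s t (i + 1) = Function.update (mix s t (i + 1)) i (s i) := by
  conv_rhs => rw [mix_succ, Function.update_idem, ← mix_succ]

theorem mix_zero {n : ℕ} {E : Type} (s t : Fin n → E) : mix s t 0 = t := by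
  funext j
  rw [mix, if_neg (Nat.not_lt_zero _)]

theorem mix_n {n : ℕ} {E : Type} (s t : Fin n → E) : mix s t n = s := by
  funext j
  rw [mix, if_pos j.2]

variable {k : Type} [Field k] {n : ℕ}

/-- specialisation of the variables `≥ m` at `b` -/
noncomputable def spec (b : Fin n → k) (m : ℕ) : MvPolynomial (Fin n) k →ₐ[k] MvPolynomial (Fin n) k :=
  aeval fun i => if (i : ℕ) < m then X i else C (b i)

theorem aeval_spec {E : Type} [Field E] [Algebra k E] (b : Fin n → k) (s t : Fin n → E) (m : ℕ)
    (a : MvPolynomial (Fin n) k) :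
    aeval (mix s t m) (spec b m a) = aeval (mix s (fun i => algebraMap k E (b i)) m) a := by
  induction a using MvPolynomial.induction_on with
  | C c => rw [spec, aeval_C, aeval_C, algebraMap_eq, aeval_C]
  | add p q hp hq => rw [map_add, map_add, map_add, hp, hq]
  | mul_X p i hp =>
    rw [map_mul, map_mul, map_mul, hp, aeval_X]
    congr 1
    rw [spec, aeval_X]
    by_cases h : (i : ℕ) < m
    · rw [if_pos h, aeval_X, mix, mix, if_pos h, if_pos h]
    · rw [if_neg h, aeval_C, mix, if_neg h]

theorem eval_spec (b : Fin n → k) (m : ℕ) (a : MvPolynomial (Fin n) k) :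
    eval b (spec b m a) = eval b a := by
  induction a using MvPolynomial.induction_on with
  | C c => rw [spec, aeval_C, algebraMap_eq]
  | add p q hp hq => rw [map_add, map_add, map_add, hp, hq]
  | mul_X p i hp =>
    rw [map_mul, map_mul, map_mul, hp, eval_X]
    congr 1
    rw [spec, aeval_X]
    by_cases h : (i : ℕ) < m
    · rw [if_pos h, eval_X]
    · rw [if_neg h, eval_C]

theorem spec_vars (b : Fin n → k) (m : ℕ) (a : MvPolynomial (Fin n) k) {i : Fin n}
    (hi : m ≤ (i : ℕ)) : i ∉ (spec b m a).vars := by
  classical
  induction a using MvPolynomial.induction_on with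
  | C c =>
    rw [spec, aeval_C, algebraMap_eq, vars_C]
    exact Finset.notMem_empty _
  | add p q hp hq =>
    rw [map_add]
    intro h
    rcases Finset.mem_union.mp (vars_add_subset _ _ h) with h | h
    exacts [hp h, hq h]
  | mul_X p j hp =>
    rw [map_mul]
    intro h
    rcases Finset.mem_union.mp (vars_mul _ _ h) with h | h
    · exact hp h
    · rw [spec, aeval_X] at h
      by_cases h1 : (j : ℕ) < m
      · rw [if_pos h1, vars_X, Finset.mem_singleton] at h
        subst h
        omega
      · rw [if_neg h1, vars_C] at h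
        exact Finset.notMem_empty _ h

end mix

end Pool.Agent.TH178.HI
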