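import Mathlib

/-! The algebraic closure of the base field in a finitely generated field extension is finite. -/

set_option autoImplicit false

namespace Pool.Agent.TH178.HI

open scoped IntermediateField.algebraAdjoinAdjoin

theorem linearIndependent_closure {K Ω : Type} [Field K] [Field Ω] [Algebra K Ω] (s : Finset Ω)
    (hs : AlgebraicIndependent K ((↑) : s → Ω)) {ι : Type} (a : ι → algebraicClosure K Ω)
    (ha : LinearIndependent K a) :
    LinearIndependent (IntermediateField.adjoin K (s : Set Ω)) (fun i => (a i : Ω)) := by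
  rw [← LinearIndependent.iff_fractionRing (R := Algebra.adjoin K (s : Set Ω))]
  rw [linearIndependent_iff']
  intro t g hg
  have hP : ∀ i, ∃ P : MvPolynomial s K, MvPolynomial.aeval ((↑) : s → Ω) P = (g i : Ω) := by
    intro i
    have h1 : (g i : Ω) ∈ Algebra.adjoin K (Set.range ((↑) : s → Ω)) := by
      rw [Subtype.range_coe]
      exact (g i).2
    rw [Algebra.adjoin_range_eq_range_aeval] at h1
    exact h1
  choose P hP using hP
  have hsA : AlgebraicIndependent (algebraicClosure K Ω) ((↑) : s → Ω) :=
    (Algebra.IsAlgebraic.algebraicIndependent_iff K (S := algebraicClosure K Ω)).mp hs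
  let Q : MvPolynomial s (algebraicClosure K Ω) :=
    ∑ i ∈ t, MvPolynomial.C (a i) * MvPolynomial.map (algebraMap K (algebraicClosure K Ω)) (P i)
  have hQ : Q = 0 := by
    apply hsA
    rw [map_zero, map_sum, ← hg]
    refine Finset.sum_congr rfl fun i _ => ?_
    rw [map_mul, MvPolynomial.aeval_C, MvPolynomial.aeval_map_algebraMap, hP]
    show (a i : Ω) * (g i : Ω) = (g i : Ω) * (a i : Ω)
    ring
  intro i hi
  have hPi : P i = 0 := by
    ext m
    have h1 := congrArg (MvPolynomial.coeff m) hQ
    rw [MvPolynomial.coeff_zero, MvPolynomial.coeff_sum] at h1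
    have h2 : ∑ i ∈ t, (P i).coeff m • a i = 0 := by
      rw [← h1]
      refine Finset.sum_congr rfl fun i _ => ?_
      rw [MvPolynomial.coeff_C_mul, MvPolynomial.coeff_map, Algebra.smul_def, mul_comm]
    rw [MvPolynomial.coeff_zero]
    exact (linearIndependent_iff'.mp ha) t (fun i => (P i).coeff m) h2 i hi
  apply Subtype.ext
  rw [← hP i, hPi, map_zero]
  rfl

theorem finite_closure (K Ω : Type) [Field K] [Field Ω] [Algebra K Ω] [Algebra.EssFiniteType K Ω] :
    FiniteDimensional K (algebraicClosure K Ω) := by
  obtain ⟨s, hs⟩ := exists_finset_isTranscendenceBasis K Ω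
  have h1 : Algebra.IsAlgebraic (IntermediateField.adjoin K (s : Set Ω)) Ω := by
    convert! hs.isAlgebraic_field <;> simp
  have h3 : Algebra.EssFiniteType (IntermediateField.adjoin K (s : Set Ω)) Ω := .of_comp K _ _
  have h4 : Module.Finite (IntermediateField.adjoin K (s : Set Ω)) Ω :=
    Algebra.finite_of_essFiniteType_of_isAlgebraic
  let b := Module.Basis.ofVectorSpace K (algebraicClosure K Ω)
  have h5 := linearIndependent_closure s hs.1 b b.linearIndependent
  have h6 : Finite (Module.Basis.ofVectorSpaceIndex K (algebraicClosure K Ω)) := h5.finite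
  exact Module.Finite.of_basis b

end Pool.Agent.TH178.HI
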