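import Pool.Agent.TH178.HI.Step
import Pool.Agent.TH178.HI.FD

/-! A unirational field with several conic fibrations. -/

set_option autoImplicit false

namespace Pool.Agent.TH178.HI

theorem Realizable.equiv {k M M' : Type} [Field k] [Field M] [Algebra k M] [Field M']
    [Algebra k M'] (h : Realizable k M) (e : M' ≃ₐ[k] M) : Realizable k M' := by
  obtain ⟨E, _, _, Ω, y, h1, h2, h3⟩ := h
  have hr : (y.comp e.toAlgHom).fieldRange = y.fieldRange := by
    ext x
    constructor
    · rintro ⟨z, rfl⟩
      exact ⟨e z, rfl⟩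
    · rintro ⟨z, rfl⟩
      refine ⟨e.symm z, ?_⟩
      show y (e (e.symm z)) = y z
      rw [AlgEquiv.apply_symm_apply]
  refine ⟨E, inferInstance, inferInstance, Ω, y.comp e.toAlgHom, h1, ?_, ?_⟩
  · rwa [hr]
  · rwa [hr]

theorem Realizable.hpf {k K : Type} [Field k] [Field K] [Algebra k K] (h : Realizable k K)
    (hN : W560.HP.HilbNR k) : W560.HP.HPF k K := by
  obtain ⟨E, _, _, Ω, y, h1, h2, h3⟩ := h
  exact (hpf_of_relCl hN h1 h2 h3 (AlgEquiv.ofInjectiveField y)).1

section

variable {k K Ω₀ : Type} [Field k] [CharZero k] [Field K] [Algebra k K] [Field Ω₀]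
  [Algebra K Ω₀] [Algebra k Ω₀] [IsScalarTower k K Ω₀]

/-- The algebraic closure of `K` in a field of rational functions is realizable. -/
theorem realizable_closure (hΩ : Pure (⊤ : IntermediateField k Ω₀)) :
    Realizable k (algebraicClosure K Ω₀) := by
  refine ⟨Ω₀, inferInstance, inferInstance, ⊤, (algebraicClosure K Ω₀).val.restrictScalars k, hΩ,
    le_top, ?_⟩
  intro x _ hx
  have hr : ((algebraicClosure K Ω₀).val.restrictScalars k).fieldRange =
      (algebraicClosure K Ω₀).restrictScalars k := by
    ext z
    constructor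
    · rintro ⟨u, rfl⟩
      exact u.2
    · intro hz
      exact ⟨⟨z, hz⟩, rfl⟩
  rw [hr] at hx ⊢
  have h : IsAlgebraic (algebraicClosure K Ω₀) x := hx
  rw [IntermediateField.mem_restrictScalars, mem_algebraicClosure_iff]
  exact h.restrictScalars K

/-- In a unirational extension there is a realizable extension of `K` which is, for each of the
conic fibrations, generated by elements algebraic over the base. -/
theorem criterion (hΩ : Pure (⊤ : IntermediateField k Ω₀)) [Algebra.EssFiniteType K Ω₀] {I : Type}
    (L : I → IntermediateField k K) (hL : ∀ i, IsConicOver (L i)) :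
    ∃ M : IntermediateField K Ω₀, M ≤ algebraicClosure K Ω₀ ∧ FiniteDimensional K M ∧
      Realizable k M ∧
      ∀ i, M ≤ IntermediateField.adjoin K {z : Ω₀ | z ∈ M ∧ IsAlgebraic (L i) z} := by
  have hfin := finite_closure K Ω₀
  -- a realizable field of minimal degree
  have hex : ∃ d : ℕ, ∃ M : IntermediateField K Ω₀, M ≤ algebraicClosure K Ω₀ ∧
      Realizable k M ∧ Module.finrank K M = d :=
    ⟨_, algebraicClosure K Ω₀, le_rfl, realizable_closure hΩ, rfl⟩
  classical
  obtain ⟨M, hMA, hMr, hMd⟩ := Nat.find_spec hex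
  have hmin : ∀ M' : IntermediateField K Ω₀, M' ≤ algebraicClosure K Ω₀ → Realizable k M' →
      Module.finrank K M ≤ Module.finrank K M' := by
    intro M' h1 h2
    rw [hMd]
    exact Nat.find_min' hex ⟨M', h1, h2, rfl⟩
  have hMfin : FiniteDimensional K M :=
    FiniteDimensional.of_injective (IntermediateField.inclusion hMA).toLinearMap
      (IntermediateField.inclusion hMA).injective
  have hMalg : Algebra.IsAlgebraic K M := Algebra.IsAlgebraic.of_finite K M
  refine ⟨M, hMA, hMfin, hMr, fun i => ?_⟩
  let M₁ : IntermediateField K M := IntermediateField.adjoin K (algOver M (L i))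
  have hr : Realizable k M₁ := step (hL i) hMr
  have hle : IntermediateField.lift M₁ ≤ M := IntermediateField.lift_le M₁
  have hr' : Realizable k (IntermediateField.lift M₁) :=
    hr.equiv ((IntermediateField.liftAlgEquiv M₁).symm.restrictScalars k)
  have hfr := hmin (IntermediateField.lift M₁) (hle.trans hMA) hr'
  have heq : IntermediateField.lift M₁ = M := IntermediateField.eq_of_le_of_finrank_le hle hfr
  have h2 : IntermediateField.lift M₁ ≤
      IntermediateField.adjoin K {z : Ω₀ | z ∈ M ∧ IsAlgebraic (L i) z} := by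
    rw [IntermediateField.lift_adjoin, IntermediateField.adjoin_le_iff]
    rintro _ ⟨z, hz, rfl⟩
    refine IntermediateField.subset_adjoin _ _ ⟨z.2, ?_⟩
    have h3 : IsAlgebraic (L i) z := hz
    exact h3.algebraMap
  rwa [heq] at h2

end

end Pool.Agent.TH178.HI
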