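import Pool.Agent.W560.HP.Stm2

/-! Rational points of an integral scheme and its function field. -/

set_option autoImplicit false

namespace Pool.Agent.TH178.HI

open AlgebraicGeometry CategoryTheory W560.HP

/-- The `k`-points of `X` are Zariski dense in `X`. -/
def DensePoints (k : Type) [Field k] (X : Scheme.{0}) (p : X ⟶ Spec (CommRingCat.of k)) : Prop :=
  Dense {x : X | ∃ s : Spec (CommRingCat.of k) ⟶ X, s ≫ p = 𝟙 _ ∧ x ∈ Set.range s.base}

theorem appLE_id {Z : Scheme.{0}} {φ : Z ⟶ Z} (hφ : φ = 𝟙 Z) (h : (⊤ : Z.Opens) ≤ φ ⁻¹ᵁ ⊤) :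
    φ.appLE ⊤ ⊤ h = 𝟙 _ := by
  subst hφ
  simp [Scheme.Hom.appLE]

/-- Finitely many rational functions can be specialised at a rational point of a dense set. -/
theorem exists_place (k : Type) [Field k] (X : Scheme.{0}) [IsIntegral X]
    (p : X ⟶ Spec (CommRingCat.of k)) (hd : DensePoints k X p) (K : Type) [Field K] [Algebra k K]
    (e : X.functionField ≃+* K) (he : ∀ a : k, e (toFF k X p a) = algebraMap k K a) {τ : Type}
    [Finite τ] (y : τ → K) :
    ∃ a : τ → k, ∀ P : MvPolynomial τ k, MvPolynomial.aeval y P = 0 → MvPolynomial.eval a P = 0 := by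
  have h1 : ∀ j, ∃ (U : X.Opens) (hU : genericPoint X ∈ U) (s : Γ(X, U)),
      X.presheaf.germ U (genericPoint X) hU s = e.symm (y j) := fun j =>
    X.presheaf.exists_germ_eq (e.symm (y j))
  choose U hU s hs using h1
  let W : X.Opens := ⟨⋂ j, (U j : Set X), isOpen_iInter_of_finite fun j => (U j).isOpen⟩
  have hW : genericPoint X ∈ W := Set.mem_iInter.mpr hU
  have hle : ∀ j, W ≤ U j := fun j => Set.iInter_subset (fun j => (U j : Set X)) j
  let σ : τ → Γ(X, W) := fun j => X.presheaf.map (homOfLE (hle j)).op (s j)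
  have hσ : ∀ j, X.presheaf.germ W (genericPoint X) hW (σ j) = e.symm (y j) := fun j => by
    rw [← hs j]
    exact X.presheaf.germ_res_apply (homOfLE (hle j)) (genericPoint X) hW (s j)
  obtain ⟨x, hxW, r, hr, q, hq⟩ := hd.inter_open_nonempty W W.isOpen ⟨_, hW⟩
  have htop : (⊤ : (Spec (CommRingCat.of k)).Opens) ≤ r ⁻¹ᵁ W := by
    intro q' _
    have : q' = q := Subsingleton.elim (α := PrimeSpectrum k) q' q
    rw [this]
    show r.base q ∈ W
    rw [hq]
    exact hxW
  have htp : W ≤ p ⁻¹ᵁ ⊤ := le_top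
  let ev : Γ(X, W) →+* k := (Scheme.ΓSpecIso (CommRingCat.of k)).hom.hom.comp (r.appLE W ⊤ htop).hom
  let ι0 : k →+* Γ(X, W) := (p.appLE ⊤ W htp).hom.comp
    (Scheme.ΓSpecIso (CommRingCat.of k)).inv.hom
  have hι : ∀ a, ev (ι0 a) = a := by
    intro a
    have h2 : p.appLE ⊤ W htp ≫ r.appLE W ⊤ htop = 𝟙 _ := by
      exact (Scheme.Hom.appLE_comp_appLE r p ⊤ W ⊤ htp htop).trans (appLE_id hr _)
    have h3 : (Scheme.ΓSpecIso (CommRingCat.of k)).inv ≫ (p.appLE ⊤ W htp ≫ r.appLE W ⊤ htop) ≫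
        (Scheme.ΓSpecIso (CommRingCat.of k)).hom = 𝟙 _ := by
      rw [h2]
      simp
    exact congrArg (fun φ => φ.hom a) h3
  refine ⟨fun j => ev (σ j), fun P hP => ?_⟩
  have h4 : MvPolynomial.eval₂ ι0 σ P = 0 := by
    apply germ_injective_of_isIntegral X (genericPoint X) hW
    rw [map_zero]
    apply e.injective
    rw [map_zero]
    have h5 := MvPolynomial.eval₂_comp_left
      ((e : X.functionField →+* K).comp (X.presheaf.germ W (genericPoint X) hW).hom) ι0 σ P
    refine h5.trans ?_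
    rw [← hP, MvPolynomial.aeval_def]
    congr 1
    · ext a
      rw [← he a]
      refine congrArg e ?_
      exact X.presheaf.germ_res_apply (homOfLE (le_top : W ≤ ⊤)) (genericPoint X) hW
        (p.appTop.hom ((Scheme.ΓSpecIso (CommRingCat.of k)).inv.hom a))
    · funext j
      show e (X.presheaf.germ W (genericPoint X) hW (σ j)) = y j
      rw [hσ, RingEquiv.apply_symm_apply]
  have h6 := congrArg ev h4
  rw [map_zero] at h6
  rw [← h6, MvPolynomial.eval₂_comp_left]
  have h7 : ev.comp ι0 = RingHom.id k := RingHom.ext hι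
  rw [h7]
  rfl

end Pool.Agent.TH178.HI
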