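import Pool.Agent.TH178.HI.Field
import Pool.Agent.TH178.HI.Point
import Pool.Agent.W560.HP.Fin
import Pool.Agent.W405.HP.Hit
import Pool.Agent.W583.HP.FG
import Pool.Agent.W253.HP.Sch

/-! The Hilbert property of the schemes birational to a double cover `w² = f(t_1, ..., t_n)`. -/

set_option autoImplicit false

namespace Pool.Agent.TH178.HI

open AlgebraicGeometry CategoryTheory W560.HP

/-- The integral `k`-scheme `X` is birational over `k` to the double cover `w² = f(t_1, ..., t_n)`:
compatibly with `k`, its function field is a field `k(t_1, ..., t_n, w)` with `t_1, ..., t_n`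
algebraically independent over `k` and `w² = f(t_1, ..., t_n)`. -/
def BirationalToCover (k : Type) [Field k] {n : ℕ} (f : MvPolynomial (Fin n) k) (X : Scheme.{0})
    [IsIntegral X] (p : X ⟶ Spec (CommRingCat.of k)) : Prop :=
  ∃ (K : Type) (_ : Field K) (_ : Algebra k K), IsCoverField k f K ∧
    ∃ e : X.functionField ≃+* K, ∀ a : k, e (toFF k X p a) = algebraMap k K a

/-- There is a `k`-point of `w² = f(t_1, ..., t_n)` at which the `n` discriminants do not vanish. -/
def HasGoodPoint {k : Type} [Field k] {n : ℕ} (f : MvPolynomial (Fin n) k) : Prop :=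
  ∃ (b : Fin n → k) (c : k), c ^ 2 = MvPolynomial.eval b f ∧
    ∀ i, MvPolynomial.eval b (disc f i) ≠ 0

theorem Linked.of_irreducible {k : Type} [Field k] {n : ℕ} {f : MvPolynomial (Fin n) k}
    (hd : ∀ i, disc f i ≠ 0) (hf : Irreducible f) : Linked f := by
  have hv : ∀ i, i ∈ f.vars := by
    intro i
    by_contra h
    apply hd i
    rw [disc, MvPolynomial.pderiv_eq_zero_of_notMem_vars h, map_zero]
    ring
  intro j hj
  exact ⟨f, ⟨(j : ℕ) + 1, hj⟩, hf, dvd_rfl, Nat.lt_succ_self (j : ℕ), hv _, hv _⟩

/-- From specialisations of the function field to a good point. -/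
theorem goodPoint_of_place {k : Type} [Field k] {n : ℕ} {f : MvPolynomial (Fin n) k}
    (hd : ∀ i, disc f i ≠ 0) {K : Type} [Field K] [Algebra k K] (hK : IsCoverField k f K)
    (hp : ∀ y : Option (Option (Fin n)) → K, ∃ a : Option (Option (Fin n)) → k,
      ∀ P : MvPolynomial (Option (Option (Fin n))) k,
        MvPolynomial.aeval y P = 0 → MvPolynomial.eval a P = 0) : HasGoodPoint f := by
  obtain ⟨t, w, ht, hw, -⟩ := hK
  let G : MvPolynomial (Fin n) k := ∏ i, disc f i
  have hG : MvPolynomial.aeval t G ≠ 0 :=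
    aeval_ne_zero_of_indep ht (Finset.prod_ne_zero_iff.mpr fun i _ => hd i)
  obtain ⟨a, ha⟩ := hp fun o => match o with
    | none => (MvPolynomial.aeval t G)⁻¹
    | some none => w
    | some (some i) => t i
  let emb : Fin n → Option (Option (Fin n)) := fun i => some (some i)
  have h1 := ha (MvPolynomial.X (some none) ^ 2 - MvPolynomial.rename emb f) (by
    rw [map_sub, map_pow, MvPolynomial.aeval_X, MvPolynomial.aeval_rename]
    show w ^ 2 - MvPolynomial.aeval t f = 0
    rw [hw, sub_self])
  have h2 := ha (MvPolynomial.X none * MvPolynomial.rename emb G - 1) (by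
    rw [map_sub, map_mul, MvPolynomial.aeval_X, MvPolynomial.aeval_rename, map_one]
    show (MvPolynomial.aeval t G)⁻¹ * MvPolynomial.aeval t G - 1 = 0
    rw [inv_mul_cancel₀ hG, sub_self])
  rw [map_sub, map_pow, MvPolynomial.eval_X, MvPolynomial.eval_rename] at h1
  rw [map_sub, map_mul, MvPolynomial.eval_X, MvPolynomial.eval_rename, map_one] at h2
  have h3 : MvPolynomial.eval (a ∘ emb) G ≠ 0 := by
    intro h0
    rw [h0, mul_zero, zero_sub] at h2
    exact neg_ne_zero.mpr one_ne_zero h2
  rw [map_prod] at h3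
  exact ⟨a ∘ emb, a (some none), sub_eq_zero.mp h1,
    fun i => Finset.prod_ne_zero_iff.mp h3 i (Finset.mem_univ i)⟩

theorem scheme_main {k : Type} [Field k] [CharZero k]
    (hk : ∃ S : Finset k, IntermediateField.adjoin ℚ (S : Set k) = ⊤) {n : ℕ} (hn : n ≠ 0)
    (f : MvPolynomial (Fin n) k) (hdeg : ∀ i, MvPolynomial.degreeOf i f ≤ 2)
    (hd : ∀ i, disc f i ≠ 0) (hf : Linked f) (X : Scheme.{0}) [IsIntegral X]
    (p : X ⟶ Spec (CommRingCat.of k)) [LocallyOfFiniteType p] (hX : BirationalToCover k f X p) :
    [DensePoints k X p, HasGoodPoint f, HilbertProperty k X p, UnirationalScheme k X p].TFAE := by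
  obtain ⟨S, hS⟩ := hk
  have hN : HilbNR k := Pool.Agent.W405.HP.hit k (Pool.Agent.W583.HP.fg k S hS)
  obtain ⟨K, _, _, hK, e, he⟩ := hX
  tfae_have 1 → 2 := fun h => goodPoint_of_place hd hK fun y =>
    exists_place k X p h K e he y
  tfae_have 2 → 3 := fun ⟨b, c, hc, hb⟩ =>
    Pool.Agent.W253.HP.sch k X p K e he (field_main hN hn f hf hdeg b c hc hb K hK).1
  tfae_have 2 → 4 := fun ⟨b, c, hc, hb⟩ => by
    obtain ⟨-, ι, hι, ⟨χ⟩⟩ := field_main hN hn f hf hdeg b c hc hb K hK
    refine ⟨ι, hι, (χ : K →+* FractionRing (MvPolynomial ι k)).comp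
      (e : X.functionField →+* K), fun a => ?_⟩
    change χ (e (toFF k X p a)) = _
    rw [he a, AlgHom.commutes]
  tfae_have 3 → 1 := fun h => by
    refine (h 0 (fun i => i.elim0) (fun i => i.elim0) (fun i => i.elim0) (fun i => i.elim0)
      (fun i => i.elim0) (fun i => i.elim0)).mono ?_
    rintro x ⟨s, hs, hx, -⟩
    exact ⟨s, hs, hx⟩
  tfae_have 4 → 2 := fun ⟨ι, hι, φ, hφ⟩ => by
    refine goodPoint_of_place hd hK fun y => ?_
    let M := FractionRing (MvPolynomial ι k)
    let x : ι → M := fun i => algebraMap (MvPolynomial ι k) M (MvPolynomial.X i)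
    have hx : AlgebraicIndependent k x :=
      (MvPolynomial.algebraicIndependent_X ι k).map'
        (f := IsScalarTower.toAlgHom k (MvPolynomial ι k) M)
        (IsFractionRing.injective (MvPolynomial ι k) M)
    have hxtop : IntermediateField.adjoin k (Set.range x) = ⊤ := by
      rw [eq_top_iff]
      rintro z -
      obtain ⟨a, d, -, rfl⟩ := IsFractionRing.div_surjective (A := MvPolynomial ι k) (K := M) z
      have hmem : ∀ a : MvPolynomial ι k, algebraMap (MvPolynomial ι k) M a ∈
          IntermediateField.adjoin k (Set.range x) := by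
        intro a
        have h1 : algebraMap (MvPolynomial ι k) M a = MvPolynomial.aeval x a := by
          have h2 := MvPolynomial.aeval_algebraMap_apply M (MvPolynomial.X : ι → MvPolynomial ι k) a
          rw [MvPolynomial.aeval_X_left_apply] at h2
          exact h2.symm
        rw [h1]
        exact aeval_mem' (fun i => IntermediateField.subset_adjoin k _ (Set.mem_range_self i)) a
      exact IntermediateField.div_mem _ (hmem a) (hmem d)
    have hM : HPF k M := by
      have h1 := Pool.Agent.W790.HP.hpf k M ι x ⊤ hN hx hxtop fun _ _ => trivial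
      exact Pool.Agent.W74.HP.hpi k (⊤ : IntermediateField k M) M
        ⟨(IntermediateField.topEquiv : (⊤ : IntermediateField k M) ≃ₐ[k] M)⟩ h1
    let ψ : K →ₐ[k] M :=
      { φ.comp (e.symm : K →+* X.functionField) with
        commutes' := fun a => by
          show φ (e.symm (algebraMap k K a)) = _
          rw [← he a, RingEquiv.symm_apply_apply]
          exact hφ a }
    classical
    obtain ⟨B, θ, -, hB, -, -⟩ := hM 0 (fun i => i.elim0) (fun i => i.elim0)
      (Finset.univ.image fun o => ψ (y o))
    have hy : ∀ o, ψ (y o) ∈ B := fun o => hB (by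
      rw [Finset.coe_image]
      exact ⟨o, Finset.mem_coe.mpr (Finset.mem_univ o), rfl⟩)
    let y' : Option (Option (Fin n)) → B := fun o => ⟨ψ (y o), hy o⟩
    refine ⟨fun o => θ (y' o), fun P hP => ?_⟩
    have h1 : MvPolynomial.aeval y' P = 0 := by
      apply Subtype.ext
      have h2 : B.val (MvPolynomial.aeval y' P) =
          MvPolynomial.aeval (fun o => B.val (y' o)) P :=
        DFunLike.congr_fun (MvPolynomial.comp_aeval (f := y') B.val) P
      have h3 : ψ (MvPolynomial.aeval y P) = MvPolynomial.aeval (fun o => ψ (y o)) P :=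
        DFunLike.congr_fun (MvPolynomial.comp_aeval (f := y) ψ) P
      have h4 : B.val (MvPolynomial.aeval y' P) = ψ (MvPolynomial.aeval y P) := h2.trans h3.symm
      rw [hP, map_zero] at h4
      exact h4
    have h5 : θ (MvPolynomial.aeval y' P) = MvPolynomial.aeval (fun o => θ (y' o)) P :=
      DFunLike.congr_fun (MvPolynomial.comp_aeval (f := y') θ) P
    rw [h1, map_zero] at h5
    exact h5.symm
  tfae_finish

end Pool.Agent.TH178.HI
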