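import Pool.Agent.TH178.HI.Crit
import Pool.Agent.TH178.HI.Fin

/-! The criterion for schemes. -/

set_option autoImplicit false

namespace Pool.Agent.TH178.HI

open AlgebraicGeometry CategoryTheory W560.HP

/-- `K` is, compatibly with `k`, the function field of the integral `k`-scheme `X`. -/
def HasFunctionField (k : Type) [Field k] (X : Scheme.{0}) [IsIntegral X]
    (p : X ⟶ Spec (CommRingCat.of k)) (K : Type) [Field K] [Algebra k K] : Prop :=
  ∃ e : X.functionField ≃+* K, ∀ a : k, e (toFF k X p a) = algebraMap k K a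

section

variable {k K Ω : Type} [Field k] [Field K] [Algebra k K] [Field Ω] [Algebra k Ω]

/-- The extension `M` of `K` (all inside `Ω`, where `K` is embedded by `φ`) is generated over `K`
by elements which are algebraic over the subfield `L` of `K`: it is pulled back from the base. -/
def PulledBack (φ : K →ₐ[k] Ω) (L : IntermediateField k K) (M : IntermediateField k Ω) : Prop :=
  M ≤ IntermediateField.adjoin k
    ((φ.fieldRange : Set Ω) ∪ {z | z ∈ M ∧ IsAlgebraic (L.map φ) z})

/-- `M` is an algebraic extension of `K`, inside `Ω`. -/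
def IsCoverIn (φ : K →ₐ[k] Ω) (M : IntermediateField k Ω) : Prop :=
  φ.fieldRange ≤ M ∧ ∀ z ∈ M, IsAlgebraic φ.fieldRange z

end

theorem pure_frac (k ι : Type) [Field k] [Finite ι] :
    Pure (⊤ : IntermediateField k (FractionRing (MvPolynomial ι k))) := by
  let M := FractionRing (MvPolynomial ι k)
  let x : ι → M := fun i => algebraMap (MvPolynomial ι k) M (MvPolynomial.X i)
  have hx : AlgebraicIndependent k x :=
    (MvPolynomial.algebraicIndependent_X ι k).map'
      (f := IsScalarTower.toAlgHom k (MvPolynomial ι k) M)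
      (IsFractionRing.injective (MvPolynomial ι k) M)
  refine ⟨ι, inferInstance, x, hx, ?_⟩
  rw [eq_top_iff]
  rintro z -
  obtain ⟨a, d, -, rfl⟩ := IsFractionRing.div_surjective (A := MvPolynomial ι k) (K := M) z
  have hmem : ∀ a : MvPolynomial ι k, algebraMap (MvPolynomial ι k) M a ∈
      IntermediateField.adjoin k (Set.range x) := by
    intro a
    have h1 : algebraMap (MvPolynomial ι k) M a = MvPolynomial.aeval x a := by
      have h2 := MvPolynomial.aeval_algebraMap_apply M (MvPolynomial.X : ι → MvPolynomial ι k) a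
      rw [MvPolynomial.aeval_X_left_apply] at h2
      exact h2.symm
    rw [h1]
    exact aeval_mem' (fun i => IntermediateField.subset_adjoin k _ (Set.mem_range_self i)) a
  exact IntermediateField.div_mem _ (hmem a) (hmem d)

theorem mem_adjoin_restrict {k K Ω : Type} [Field k] [Field K] [Algebra k K] [Field Ω]
    [Algebra k Ω] [Algebra K Ω] [IsScalarTower k K Ω] {S : Set Ω} {x : Ω}
    (hx : x ∈ IntermediateField.adjoin K S) : x ∈ IntermediateField.adjoin k
      (((IsScalarTower.toAlgHom k K Ω).fieldRange : Set Ω) ∪ S) := by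
  induction hx using IntermediateField.adjoin_induction with
  | mem x hx => exact IntermediateField.subset_adjoin _ _ (Or.inr hx)
  | algebraMap x => exact IntermediateField.subset_adjoin _ _ (Or.inl ⟨x, rfl⟩)
  | add x y _ _ hx hy => exact add_mem hx hy
  | mul x y _ _ hx hy => exact mul_mem hx hy
  | inv x _ hx => exact IntermediateField.inv_mem _ hx

/-- The field version. -/
theorem field_criterion {k K : Type} [Field k] [CharZero k] [Field K] [Algebra k K] {ι : Type}
    [Finite ι] (φ : K →ₐ[k] FractionRing (MvPolynomial ι k)) {I : Type}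
    (L : I → IntermediateField k K) (hL : ∀ i, IsConicOver (L i)) :
    ∃ M : IntermediateField k (FractionRing (MvPolynomial ι k)), IsCoverIn φ M ∧
      (∀ i, PulledBack φ (L i) M) ∧ Realizable k M := by
  let Ω := FractionRing (MvPolynomial ι k)
  let _ : Algebra K Ω := φ.toRingHom.toAlgebra
  have : IsScalarTower k K Ω := IsScalarTower.of_algebraMap_eq fun a => (φ.commutes a).symm
  have hess : Algebra.EssFiniteType k Ω := by
    have h1 : Algebra.EssFiniteType k (MvPolynomial ι k) := inferInstance
    have h2 : Algebra.EssFiniteType (MvPolynomial ι k) Ω :=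
      .of_isLocalization _ (nonZeroDivisors _)
    exact .comp k (MvPolynomial ι k) Ω
  have hess' : Algebra.EssFiniteType K Ω := .of_comp k _ _
  obtain ⟨M, h1, -, h3, h4⟩ := criterion (k := k) (K := K) (Ω₀ := Ω) (pure_frac k ι) L hL
  have hrange : ∀ x : K, φ x ∈ M := fun x => M.algebraMap_mem x
  have hφ : φ.fieldRange ≤ M.restrictScalars k := by
    rintro _ ⟨x, rfl⟩
    exact hrange x
  refine ⟨M.restrictScalars k, ⟨hφ, fun z hz => ?_⟩, fun i z hz => ?_, h3⟩
  · have h5 := h1 hz
    rw [mem_algebraicClosure_iff] at h5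
    have h6 := isAlgebraic_range (k := k) h5
    exact h6
  · have h5 := h4 i hz
    have h6 : IntermediateField.adjoin K {z : Ω | z ∈ M ∧ IsAlgebraic (L i) z} ≤
        IntermediateField.adjoin K {z : Ω | z ∈ M ∧ IsAlgebraic ((L i).map φ) z} := by
      apply IntermediateField.adjoin.mono
      rintro x ⟨hx, hax⟩
      refine ⟨hx, ?_⟩
      obtain ⟨q, hq, h0⟩ := hax
      refine ⟨q.map (IntermediateField.equivMap (L i) φ).toRingEquiv.toRingHom, ?_, ?_⟩
      · rwa [Ne, Polynomial.map_eq_zero]
      · rw [Polynomial.aeval_def, Polynomial.eval₂_map]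
        exact h0
    exact mem_adjoin_restrict (k := k) (h6 h5)

/-- The Hilbert property of all schemes whose function field is realizable. -/
theorem Realizable.hilbert {k M : Type} [Field k] [CharZero k]
    (hk : ∃ S : Finset k, IntermediateField.adjoin ℚ (S : Set k) = ⊤) [Field M] [Algebra k M]
    (h : Realizable k M) (X : Scheme.{0}) [IsIntegral X] (p : X ⟶ Spec (CommRingCat.of k))
    [LocallyOfFiniteType p] (hX : HasFunctionField k X p M) : HilbertProperty k X p := by
  obtain ⟨S, hS⟩ := hk
  obtain ⟨e, he⟩ := hX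
  have hN : HilbNR k := Pool.Agent.W405.HP.hit k (Pool.Agent.W583.HP.fg k S hS)
  exact Pool.Agent.W253.HP.sch k X p M e he (h.hpf hN)

theorem realizable_of_le {k K : Type} [Field k] [Field K] [Algebra k K] {Ω : Type} [Field Ω]
    [Algebra k Ω] (φ : K →ₐ[k] Ω) (M : IntermediateField k Ω) (hM : φ.fieldRange ≤ M)
    (h : M ≤ φ.fieldRange) (hr : Realizable k M) : Realizable k K := by
  have heq : M = φ.fieldRange := le_antisymm h hM
  exact hr.equiv ((AlgEquiv.ofInjectiveField φ).trans (IntermediateField.equivOfEq heq.symm))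

end Pool.Agent.TH178.HI
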