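import Pool.Agent.TH178.HI.Crit

/-! The criterion inside a fixed field. -/

set_option autoImplicit false

namespace Pool.Agent.TH178.HI

variable {k E : Type} [Field k] [Field E] [Algebra k E]

/-- `K₀` is, inside `E`, the function field of a smooth conic over `L`. -/
def ConicIn (L K₀ : IntermediateField k E) : Prop :=
  L ≤ K₀ ∧ ∃ A B C₀ s v : E, A ∈ L ∧ B ∈ L ∧ C₀ ∈ L ∧ s ∈ K₀ ∧ v ∈ K₀ ∧
    B ^ 2 - 4 * A * C₀ ≠ 0 ∧ Transcendental L s ∧ v ^ 2 = A * s ^ 2 + B * s + C₀ ∧
    K₀ ≤ IntermediateField.adjoin k ((L : Set E) ∪ {s, v})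

theorem ConicIn.isConicOver {L K₀ : IntermediateField k E} (h : ConicIn L K₀) :
    IsConicOver (L.comap K₀.val) := by
  obtain ⟨hL, A, B, C₀, s, v, hA, hB, hC, hs, hv, hd, hst, hvs, hgen⟩ := h
  refine ⟨⟨A, hL hA⟩, ⟨B, hL hB⟩, ⟨C₀, hL hC⟩, ⟨s, hs⟩, ⟨v, hv⟩, hA, hB, hC, ?_, ?_, ?_, ?_⟩
  · intro h0
    apply hd
    have h1 := congrArg K₀.val h0
    simp only [map_sub, map_mul, map_pow, map_ofNat, map_zero] at h1
    exact h1
  · rintro ⟨p, hp, h0⟩
    apply hst
    let ρ : L.comap K₀.val →+* L :=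
      (algebraMap (L.comap K₀.val) E).codRestrict L fun x => x.2
    refine ⟨p.map ρ, ?_, ?_⟩
    · rwa [Ne, Polynomial.map_eq_zero]
    · rw [Polynomial.aeval_def, Polynomial.eval₂_map]
      have h1 := congrArg K₀.val h0
      rw [map_zero, Polynomial.aeval_def] at h1
      have h2 := Polynomial.hom_eval₂ p (algebraMap (L.comap K₀.val) K₀)
        (K₀.val : K₀ →ₐ[k] E).toRingHom ⟨s, hs⟩
      exact h2.symm.trans h1
  · exact Subtype.ext hvs
  · apply IntermediateField.lift_injective K₀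
    rw [IntermediateField.lift_adjoin, IntermediateField.lift_top]
    apply le_antisymm
    · rw [IntermediateField.adjoin_le_iff]
      rintro _ ⟨x, -, rfl⟩
      exact x.2
    · refine hgen.trans (IntermediateField.adjoin.mono k _ _ ?_)
      rintro x (hx | hx | hx)
      · exact ⟨⟨x, hL hx⟩, Or.inl hx, rfl⟩
      · rw [hx]
        exact ⟨⟨s, hs⟩, Or.inr (Or.inl rfl), rfl⟩
      · rw [Set.mem_singleton_iff] at hx
        rw [hx]
        exact ⟨⟨v, hv⟩, Or.inr (Or.inr rfl), rfl⟩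

theorem criterion_in [CharZero k] {Ω K₀ : IntermediateField k E} (hΩ : Pure Ω) (hK : K₀ ≤ Ω)
    {I : Type} (L : I → IntermediateField k E) (hL : ∀ i, ConicIn (L i) K₀) :
    ∃ M : IntermediateField k E, K₀ ≤ M ∧ M ≤ Ω ∧ (∀ z ∈ M, IsAlgebraic K₀ z) ∧ Realizable k M ∧
      ∀ i, M ≤ IntermediateField.adjoin k ((K₀ : Set E) ∪ {z | z ∈ M ∧ IsAlgebraic (L i) z}) := by
  let _ : Algebra K₀ Ω := (IntermediateField.inclusion hK).toRingHom.toAlgebra
  have : IsScalarTower k K₀ Ω := IsScalarTower.of_algebraMap_eq fun _ => rfl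
  have : IsScalarTower K₀ Ω E := IsScalarTower.of_algebraMap_eq fun _ => rfl
  have hfg : Pure (⊤ : IntermediateField k Ω) := by
    obtain ⟨ι, hι, x, hx, hxΩ⟩ := hΩ
    have hmem : ∀ i, x i ∈ Ω := fun i => by
      rw [← hxΩ]
      exact IntermediateField.subset_adjoin _ _ ⟨i, rfl⟩
    let y : ι → Ω := fun i => ⟨x i, hmem i⟩
    refine ⟨ι, hι, y, ?_, ?_⟩
    · have h1 : AlgebraicIndependent k (Ω.val ∘ y) := hx
      exact h1.of_comp Ω.val
    · apply IntermediateField.lift_injective Ω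
      rw [IntermediateField.lift_adjoin, IntermediateField.lift_top, ← Set.range_comp]
      exact hxΩ
  have hess : Algebra.EssFiniteType k Ω := by
    obtain ⟨ι, hι, x, -, hxΩ⟩ := hfg
    rw [← IntermediateField.fg_top_iff]
    rw [← hxΩ]
    have h9 := Set.finite_range x
    exact ⟨h9.toFinset, by rw [Set.Finite.coe_toFinset]⟩
  have hess' : Algebra.EssFiniteType K₀ Ω := .of_comp k _ _
  obtain ⟨M, h1, -, h3, h4⟩ := criterion (k := k) (K := K₀) (Ω₀ := Ω) hfg
    (fun i => (L i).comap K₀.val) fun i => (hL i).isConicOver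
  let M' : IntermediateField k E := (M.restrictScalars k).map Ω.val
  refine ⟨M', ?_, ?_, ?_, ?_, ?_⟩
  · intro x hx
    exact ⟨⟨x, hK hx⟩, M.algebraMap_mem ⟨x, hx⟩, rfl⟩
  · rintro _ ⟨x, -, rfl⟩
    exact x.2
  · rintro _ ⟨x, hx, rfl⟩
    have h5 := h1 hx
    rw [mem_algebraicClosure_iff] at h5
    exact h5.algebraMap
  · exact h3.equiv ((IntermediateField.equivMap (M.restrictScalars k) Ω.val).symm)
  · intro i
    rintro _ ⟨x, hx, rfl⟩
    have h5 := h4 i hx
    have h6 : ∀ y : Ω, y ∈ IntermediateField.adjoin K₀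
        {z : Ω | z ∈ M ∧ IsAlgebraic ((L i).comap K₀.val) z} → (y : E) ∈
        IntermediateField.adjoin k ((K₀ : Set E) ∪ {z | z ∈ M' ∧ IsAlgebraic (L i) z}) := by
      intro y hy
      induction hy using IntermediateField.adjoin_induction with
      | mem x hx =>
        refine IntermediateField.subset_adjoin _ _ (Or.inr ⟨⟨x, hx.1, rfl⟩, ?_⟩)
        obtain ⟨p, hp, h0⟩ := hx.2
        let ρ : (L i).comap K₀.val →+* L i :=
          (algebraMap ((L i).comap K₀.val) E).codRestrict (L i) fun x => x.2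
        refine ⟨p.map ρ, ?_, ?_⟩
        · rwa [Ne, Polynomial.map_eq_zero]
        · rw [Polynomial.aeval_def, Polynomial.eval₂_map]
          have h1 := congrArg Ω.val h0
          rw [map_zero, Polynomial.aeval_def] at h1
          have h2 := Polynomial.hom_eval₂ p (algebraMap ((L i).comap K₀.val) Ω)
            (Ω.val : Ω →ₐ[k] E).toRingHom x
          exact h2.symm.trans h1
      | algebraMap x => exact IntermediateField.subset_adjoin _ _ (Or.inl x.2)
      | add x y _ _ hx hy => exact add_mem hx hy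
      | mul x y _ _ hx hy => exact mul_mem hx hy
      | inv x _ hx => exact IntermediateField.inv_mem _ hx
    exact h6 x h5

end Pool.Agent.TH178.HI
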