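import Pool.Agent.TH178.HI.OTower
import Pool.Agent.TH178.HI.CritIn

/-! The additional conic fibration attached to a splitting `f = A B`. -/

set_option autoImplicit false

namespace Pool.Agent.TH178.HI

open MvPolynomial

variable {k E : Type} [Field k] [Field E] [Algebra k E] {n : ℕ}

theorem aeval_mem_vars {L : IntermediateField k E} {p : Fin n → E} {a : MvPolynomial (Fin n) k}
    (h : ∀ i ∈ a.vars, p i ∈ L) : aeval p a ∈ L := by
  classical
  have h1 : aeval p a = aeval (fun i => if i ∈ a.vars then p i else 0) a :=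
    aeval_congr_vars fun i hi => by rw [if_pos hi]
  rw [h1]
  refine aeval_mem' (fun i => ?_) a
  split_ifs with hi
  · exact h i hi
  · exact L.zero_mem

theorem coef_mem [CharZero k] {L : IntermediateField k E} {p : Fin n → E}
    {a : MvPolynomial (Fin n) k} {i : Fin n} (hd : degreeOf i a ≤ 2)
    (h : ∀ j ∈ a.vars, j ≠ i → p j ∈ L) :
    aeval p (coA a i) ∈ L ∧ aeval p (coB a i) ∈ L ∧ aeval p (coC a i) ∈ L := by
  have hE : CharZero E := charZero_of_injective_algebraMap (algebraMap k E).injective
  have hz : ∀ z ∈ L, aeval p (coA a i) * z ^ 2 + aeval p (coB a i) * z + aeval p (coC a i) ∈ L := by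
    intro z hz
    rw [← coef_update a i hd p z]
    refine aeval_mem_vars fun j hj => ?_
    by_cases hji : j = i
    · rw [hji, Function.update_self]
      exact hz
    · rw [Function.update_of_ne hji]
      exact h j hj hji
  have two_mem : (2 : E) ∈ L := by exact_mod_cast L.natCast_mem 2
  have e0 := hz 0 L.zero_mem
  have e1 := hz 1 L.one_mem
  have e2 := hz (-1) (neg_mem L.one_mem)
  have hC : aeval p (coC a i) ∈ L := by
    have : aeval p (coC a i) =
        aeval p (coA a i) * 0 ^ 2 + aeval p (coB a i) * 0 + aeval p (coC a i) := by ring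
    rw [this]
    exact e0
  have h2 : (2 : E) ≠ 0 := two_ne_zero
  refine ⟨?_, ?_, hC⟩
  · have : aeval p (coA a i) =
        ((aeval p (coA a i) * 1 ^ 2 + aeval p (coB a i) * 1 + aeval p (coC a i)) +
        (aeval p (coA a i) * (-1) ^ 2 + aeval p (coB a i) * (-1) + aeval p (coC a i))) / 2 -
        aeval p (coC a i) := by field_simp; ring
    rw [this]
    exact sub_mem (L.div_mem (add_mem e1 e2) two_mem) hC
  · have : aeval p (coB a i) =
        ((aeval p (coA a i) * 1 ^ 2 + aeval p (coB a i) * 1 + aeval p (coC a i)) -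
        (aeval p (coA a i) * (-1) ^ 2 + aeval p (coB a i) * (-1) + aeval p (coC a i))) / 2 := by
      field_simp; ring
    rw [this]
    exact L.div_mem (sub_mem e1 e2) two_mem

theorem isAlgebraic_of_quad {L : IntermediateField k E} {a b c x : E} (ha : a ∈ L) (hb : b ∈ L)
    (hc : c ∈ L) (h0 : a ≠ 0 ∨ b ≠ 0) (h : a * x ^ 2 + b * x + c = 0) : IsAlgebraic L x := by
  let P : Polynomial L := Polynomial.C ⟨a, ha⟩ * Polynomial.X ^ 2 +
    Polynomial.C ⟨b, hb⟩ * Polynomial.X + Polynomial.C ⟨c, hc⟩
  refine ⟨P, ?_, ?_⟩
  · intro hP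
    have h1 : P.coeff 2 = ⟨a, ha⟩ := by simp [P, Polynomial.coeff_X, Polynomial.coeff_C]
    have h2 : P.coeff 1 = ⟨b, hb⟩ := by
      simp [P, Polynomial.coeff_X, Polynomial.coeff_C, Polynomial.coeff_X_pow]
    rw [hP, Polynomial.coeff_zero] at h1 h2
    rcases h0 with h0 | h0
    · exact h0 (congrArg Subtype.val h1).symm
    · exact h0 (congrArg Subtype.val h2).symm
  · rw [← h]
    exact aeval_qd x _ _ _

theorem indep_update {T : Fin n → E} (hT : AlgebraicIndependent k T) {i : Fin n} {W : E}
    (hW : IsAlgebraic (IntermediateField.adjoin k (T '' {j | j ≠ i} ∪ {W})) (T i)) :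
    AlgebraicIndependent k (Function.update T i W) := by
  have himg : Function.update T i W '' {j | j ≠ i} = T '' {j | j ≠ i} := by
    apply Set.image_congr
    intro j hj
    exact Function.update_of_ne hj _ _
  have h1 : AlgebraicIndepOn k (Function.update T i W) {j | j ≠ i} := by
    have h2 : AlgebraicIndependent k (fun j : {j : Fin n | j ≠ i} => T j) :=
      hT.comp Subtype.val Subtype.val_injective
    have h3 : (fun j : {j : Fin n | j ≠ i} => T j) =
        fun j : {j : Fin n | j ≠ i} => Function.update T i W j := by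
      funext j
      exact (Function.update_of_ne j.2 _ _).symm
    rw [h3] at h2
    exact h2
  have h2 : Transcendental (Algebra.adjoin k (Function.update T i W '' {j | j ≠ i}))
      (Function.update T i W i) := by
    rw [himg, Function.update_self, ← IntermediateField.transcendental_adjoin_iff]
    intro hWalg
    have h3 : IntermediateField.adjoin k (T '' {j | j ≠ i} ∪ {W}) ≤ AC k (T '' {j | j ≠ i}) := by
      rw [IntermediateField.adjoin_le_iff]
      rintro x (hx | hx)
      · exact subset_AC _ hx
      · rw [Set.mem_singleton_iff] at hx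
        rw [hx]
        exact mem_AC.mpr hWalg
    exact transcendental_of_le hT (i := i) (I := {j | j ≠ i}) (fun h => h rfl) le_rfl
      (isAlgebraic_mono' h3 hW)
  have h3 := h1.insert h2
  have h4 : insert i {j : Fin n | j ≠ i} = Set.univ := by
    ext j
    simp only [Set.mem_insert_iff, Set.mem_setOf_eq, Set.mem_univ, iff_true]
    exact em (j = i)
  rw [h4] at h3
  exact h3.comp (fun j => (⟨j, trivial⟩ : (Set.univ : Set (Fin n))))
    fun a b h => congrArg Subtype.val h

end Pool.Agent.TH178.HI
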