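import Pool.Agent.TH178.HI.Cut

/-! The additional conic fibration attached to a splitting `f = A B`: the main step. -/

set_option autoImplicit false

namespace Pool.Agent.TH178.HI

open MvPolynomial

variable {k E : Type} [Field k] [Field E] [Algebra k E] {n : ℕ}

/-- The base of the additional conic fibration. -/
noncomputable def BB (T : Fin n → E) (i₀ i₁ : Fin n) (W : E) : IntermediateField k E :=
  IntermediateField.adjoin k (T '' {j | j ≠ i₀ ∧ j ≠ i₁} ∪ {W})

theorem cut_step [CharZero k] {T : Fin n → E} (hT : AlgebraicIndependent k T)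
    {A B : MvPolynomial (Fin n) k} {i₀ i₁ : Fin n} (hi : i₀ < i₁) (hA : ∀ i ∈ A.vars, i ≤ i₀)
    (hB : ∀ i ∈ B.vars, i₀ < i) (hdA : degreeOf i₀ A ≤ 2) (hdB : degreeOf i₁ B ≤ 2)
    (hDA : disc A i₀ ≠ 0) (hDB : disc B i₁ ≠ 0) {w0 : E} (hw : w0 ^ 2 = aeval T A * aeval T B) :
    ConicIn (BB (k := k) T i₀ i₁ (w0 / aeval T B))
      (IntermediateField.adjoin k (insert w0 (Set.range T))) ∧
    ∀ (X : Set E), X ⊆ AC k (T '' {j | j < i₀}) → ∀ (κ : k) (u : E), κ ≠ 0 →
      u ^ 2 = algebraMap k E κ * aeval T A →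
      ∀ z ∈ IntermediateField.adjoin k (insert w0 (Set.range T) ∪ X ∪ {u}),
        IsAlgebraic (BB (k := k) T i₀ i₁ (w0 / aeval T B)) z →
        z ∈ IntermediateField.adjoin k (insert w0 (Set.range T) ∪ X) := by
  have hE : CharZero E := charZero_of_injective_algebraMap (algebraMap k E).injective
  have hA0 : A ≠ 0 := by rintro rfl; apply hDA; simp [disc]
  have hB0 : B ≠ 0 := by rintro rfl; apply hDB; simp [disc]
  have hAne : aeval T A ≠ 0 := aeval_ne_zero_of_indep hT hA0
  have hBne : aeval T B ≠ 0 := aeval_ne_zero_of_indep hT hB0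
  set W := w0 / aeval T B with hWdef
  set s := T i₀ with hs
  set τ := T i₁ with hτ
  have hi01 : i₀ ≠ i₁ := ne_of_lt hi
  have hAj : ∀ j ∈ A.vars, j ≠ i₁ := fun j hj => ne_of_lt (lt_of_le_of_lt (hA j hj) hi)
  have hBj : ∀ j ∈ B.vars, j ≠ i₀ := fun j hj => ne_of_gt (hB j hj)
  have h2 : (2 : E) ≠ 0 := two_ne_zero
  have h4 : (4 : E) ≠ 0 := by norm_num
  have h16 : (16 : E) ≠ 0 := by norm_num
  have hAT : aeval T A = aeval T (coA A i₀) * s ^ 2 + aeval T (coB A i₀) * s +
      aeval T (coC A i₀) := by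
    have := coef_update A i₀ hdA T (T i₀)
    rwa [Function.update_eq_self] at this
  have hBT : aeval T B = aeval T (coA B i₁) * τ ^ 2 + aeval T (coB B i₁) * τ +
      aeval T (coC B i₁) := by
    have := coef_update B i₁ hdB T (T i₁)
    rwa [Function.update_eq_self] at this
  have hDA' : aeval T (coB A i₀) ^ 2 - 4 * aeval T (coA A i₀) * aeval T (coC A i₀) ≠ 0 := by
    have h5 := aeval_ne_zero_of_indep hT hDA
    rw [← coef_disc] at h5
    simpa only [map_sub, map_mul, map_pow, map_ofNat] using h5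
  have hDB' : aeval T (coB B i₁) ^ 2 - 4 * aeval T (coA B i₁) * aeval T (coC B i₁) ≠ 0 := by
    have h5 := aeval_ne_zero_of_indep hT hDB
    rw [← coef_disc] at h5
    simpa only [map_sub, map_mul, map_pow, map_ofNat] using h5
  have hαm : ∀ L : IntermediateField k E, (∀ j, j ≠ i₀ → j ≠ i₁ → T j ∈ L) →
      aeval T (coA A i₀) ∈ L ∧ aeval T (coB A i₀) ∈ L ∧ aeval T (coC A i₀) ∈ L := fun L hL =>
    coef_mem hdA fun j hj hj0 => hL j hj0 (hAj j hj)
  have hβm : ∀ L : IntermediateField k E, (∀ j, j ≠ i₀ → j ≠ i₁ → T j ∈ L) →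
      aeval T (coA B i₁) ∈ L ∧ aeval T (coB B i₁) ∈ L ∧ aeval T (coC B i₁) ∈ L := fun L hL =>
    coef_mem hdB fun j hj hj1 => hL j (hBj j hj) hj1
  set α2 := aeval T (coA A i₀) with hα2
  set α1 := aeval T (coB A i₀) with hα1
  set α0 := aeval T (coC A i₀) with hα0
  set β2 := aeval T (coA B i₁) with hβ2
  set β1 := aeval T (coB B i₁) with hβ1
  set β0 := aeval T (coC B i₁) with hβ0
  have hW2 : W ^ 2 * aeval T B = aeval T A := by
    rw [hWdef, div_pow, hw]
    field_simp
  have hw0 : w0 = W * aeval T B := by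
    rw [hWdef, div_mul_cancel₀ _ hBne]
  have hWne : W ≠ 0 := by
    intro h0
    rw [h0] at hW2
    exact hAne (by rw [← hW2]; ring)
  have hrel : W ^ 2 * (β2 * τ ^ 2 + β1 * τ + β0) = α2 * s ^ 2 + α1 * s + α0 := by
    rw [← hBT, ← hAT]; exact hW2
  -- independence
  have hT' : AlgebraicIndependent k (Function.update T i₁ W) := by
    apply indep_update hT
    set R := IntermediateField.adjoin k (T '' {j | j ≠ i₁} ∪ {W}) with hR
    have hRT : ∀ j, j ≠ i₁ → T j ∈ R := fun j hj =>
      IntermediateField.subset_adjoin _ _ (Or.inl ⟨j, hj, rfl⟩)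
    have hRW : W ∈ R := IntermediateField.subset_adjoin _ _ (Or.inr rfl)
    obtain ⟨b2, b1, b0⟩ := hβm R fun j _ hj => hRT j hj
    have hAR : aeval T A ∈ R := aeval_mem_vars fun j hj => hRT j (hAj j hj)
    refine isAlgebraic_of_quad b2 b1 (c := β0 - aeval T A / W ^ 2)
      (sub_mem b0 (R.div_mem hAR (pow_mem hRW 2))) ?_ ?_
    · by_contra hcon
      push Not at hcon
      apply hDB'
      rw [hcon.1, hcon.2]
      ring
    · have : aeval T A / W ^ 2 = β2 * τ ^ 2 + β1 * τ + β0 := by
        rw [hAT, ← hrel]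
        field_simp
      rw [this]
      ring
  have hup : ∀ j, j ≠ i₁ → Function.update T i₁ W j = T j := fun j hj =>
    Function.update_of_ne hj _ _
  have hupW : Function.update T i₁ W i₁ = W := Function.update_self _ _ _
  set T' := Function.update T i₁ W with hT'def
  set La := AC k (T' '' {j | j ≠ i₀}) with hLa
  have hLaT : ∀ j, j ≠ i₀ → j ≠ i₁ → T j ∈ La := fun j hj0 hj1 => by
    rw [← hup j hj1]
    exact subset_AC _ ⟨j, hj0, rfl⟩
  have hLaW : W ∈ La := by
    rw [← hupW]
    exact subset_AC _ ⟨i₁, Ne.symm hi01, rfl⟩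
  have hstr : Transcendental La s := by
    have h5 := transcendental_of_le hT' (i := i₀) (I := {j | j ≠ i₀}) (fun h => h rfl)
      (le_refl La)
    rwa [hup i₀ hi01] at h5
  set L' := BB (k := k) T i₀ i₁ W with hL'
  have hL'T : ∀ j, j ≠ i₀ → j ≠ i₁ → T j ∈ L' := fun j hj0 hj1 =>
    IntermediateField.subset_adjoin _ _ (Or.inl ⟨j, ⟨hj0, hj1⟩, rfl⟩)
  have hL'W : W ∈ L' := IntermediateField.subset_adjoin _ _ (Or.inr rfl)
  have hL'La : L' ≤ La := by
    rw [hL', BB, IntermediateField.adjoin_le_iff]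
    rintro x (⟨j, hj, rfl⟩ | hx)
    · exact hLaT j hj.1 hj.2
    · rw [Set.mem_singleton_iff] at hx
      rw [hx]
      exact hLaW
  set K₀ := IntermediateField.adjoin k (insert w0 (Set.range T)) with hK₀
  have hK₀T : ∀ j, T j ∈ K₀ := fun j => IntermediateField.subset_adjoin _ _ (Or.inr ⟨j, rfl⟩)
  have hK₀w : w0 ∈ K₀ := IntermediateField.subset_adjoin _ _ (Or.inl rfl)
  have hK₀W : W ∈ K₀ := K₀.div_mem hK₀w (aeval_mem' hK₀T B)
  have hL'K : L' ≤ K₀ := by
    rw [hL', BB, IntermediateField.adjoin_le_iff]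
    rintro x (⟨j, -, rfl⟩ | hx)
    · exact hK₀T j
    · rw [Set.mem_singleton_iff] at hx
      rw [hx]
      exact hK₀W
  obtain ⟨a2, a1, a0⟩ := hαm L' hL'T
  obtain ⟨b2, b1, b0⟩ := hβm L' hL'T
  have num : ∀ (N : IntermediateField k E) (m : ℕ), (m : E) ∈ N := fun N m => N.natCast_mem m
  have mem2 : ∀ N : IntermediateField k E, (2 : E) ∈ N := fun N => by exact_mod_cast num N 2
  have mem4 : ∀ N : IntermediateField k E, (4 : E) ∈ N := fun N => by exact_mod_cast num N 4
  -- everything is generated by the base, `s` and `τ`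
  have hall : ∀ N : IntermediateField k E, L' ≤ N → s ∈ N → τ ∈ N → K₀ ≤ N := by
    intro N hN hsN hτN
    have hTN : ∀ j, T j ∈ N := by
      intro j
      by_cases h5 : j = i₀
      · rw [h5]; exact hsN
      · by_cases h6 : j = i₁
        · rw [h6]; exact hτN
        · exact hN (hL'T j h5 h6)
    rw [hK₀, IntermediateField.adjoin_le_iff]
    rintro x (hx | ⟨j, rfl⟩)
    · rw [hx, hw0]
      exact mul_mem (hN hL'W) (aeval_mem' hTN B)
    · exact hTN j
  -- the relatively closed field
  have hF : ∀ X : Set E, X ⊆ AC k (T '' {j | j < i₀}) →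
      IntermediateField.adjoin k ((L' : Set E) ∪ X) ≤ La := by
    intro X hX
    rw [IntermediateField.adjoin_le_iff]
    rintro x (hx | hx)
    · exact hL'La hx
    · refine (AC_mono (k := k) ?_) (hX hx)
      rintro _ ⟨j, hj, rfl⟩
      exact ⟨j, ne_of_lt hj, hup j (ne_of_lt (lt_trans hj hi))⟩
  by_cases hβ : β2 = 0
  · -- the line case
    have hβ1 : β1 ≠ 0 := by
      intro h0
      apply hDB'
      rw [hβ, h0]
      ring
    have hτ' : τ = ((α2 * s ^ 2 + α1 * s + α0) / W ^ 2 - β0) / β1 := by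
      rw [← hrel, hβ]
      field_simp
      ring
    have hτN : ∀ N : IntermediateField k E, L' ≤ N → s ∈ N → τ ∈ N := by
      intro N hN hsN
      rw [hτ']
      exact N.div_mem (sub_mem (N.div_mem (add_mem (add_mem (mul_mem (hN a2) (pow_mem hsN 2))
        (mul_mem (hN a1) hsN)) (hN a0)) (pow_mem (hN hL'W) 2)) (hN b0)) (hN b1)
    have hsne : s ≠ 0 := by
      intro h0
      apply hstr
      rw [h0]
      exact isAlgebraic_zero
    constructor
    · refine ⟨hL'K, 1, 0, -4, s + s⁻¹, s - s⁻¹, L'.one_mem, L'.zero_mem, neg_mem (mem4 L'),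
        add_mem (hK₀T i₀) (K₀.inv_mem (hK₀T i₀)), sub_mem (hK₀T i₀) (K₀.inv_mem (hK₀T i₀)), ?_, ?_,
        ?_, ?_⟩
      · norm_num
      · intro hal
        apply hstr
        have h5 : s + s⁻¹ ∈ AC k (T' '' {j | j ≠ i₀}) := AC_closed (isAlgebraic_mono' hL'La hal)
        refine isAlgebraic_of_quad (a := 1) (b := -(s + s⁻¹)) (c := 1) La.one_mem (neg_mem h5)
          La.one_mem (Or.inl one_ne_zero) ?_
        field_simp
        ring
      · field_simp
        ring
      · set N := IntermediateField.adjoin k ((L' : Set E) ∪ {s + s⁻¹, s - s⁻¹}) with hN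
        have hLN : L' ≤ N := fun x hx => IntermediateField.subset_adjoin _ _ (Or.inl hx)
        have hsN : s ∈ N := by
          have h5 : s = ((s + s⁻¹) + (s - s⁻¹)) / 2 := by ring
          rw [h5]
          exact N.div_mem (add_mem (IntermediateField.subset_adjoin _ _ (Or.inr (Or.inl rfl)))
            (IntermediateField.subset_adjoin _ _ (Or.inr (Or.inr rfl)))) (mem2 N)
        exact hall N hLN hsN (hτN N hLN hsN)
    · intro X hX κ u hκ hu z hz hzal
      set F' := IntermediateField.adjoin k ((L' : Set E) ∪ X) with hF'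
      have hLF : L' ≤ F' := fun x hx => IntermediateField.subset_adjoin _ _ (Or.inl hx)
      have hsF : Transcendental F' s := fun h => hstr (isAlgebraic_mono' (hF X hX) h)
      have hκE : algebraMap k E κ ≠ 0 := (map_ne_zero _).mpr hκ
      have hκF : algebraMap k E κ ∈ F' := F'.algebraMap_mem κ
      have hrc := relCl_one hsF (A := ⟨_, mul_mem hκF (hLF a2)⟩) (B := ⟨_, mul_mem hκF (hLF a1)⟩)
        (C₀ := ⟨_, mul_mem hκF (hLF a0)⟩) (v := u) (by
          intro h5
          have h6 : (algebraMap k E κ * α1) ^ 2 - 4 * (algebraMap k E κ * α2) *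
              (algebraMap k E κ * α0) = 0 := congrArg Subtype.val h5
          apply hDA'
          have h7 : (algebraMap k E κ) ^ 2 * (α1 ^ 2 - 4 * α2 * α0) = 0 := by
            rw [← h6]; ring
          exact (mul_eq_zero.mp h7).resolve_left (pow_ne_zero 2 hκE)) (by
          rw [hu, hAT]
          show _ = algebraMap k E κ * α2 * s ^ 2 + algebraMap k E κ * α1 * s +
            algebraMap k E κ * α0
          ring)
      set N := IntermediateField.adjoin k
        (((IntermediateField.adjoin k ((F' : Set E) ∪ {s}) : IntermediateField k E) : Set E) ∪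
          {u}) with hN
      have hFN : F' ≤ N := fun x hx => IntermediateField.subset_adjoin _ _
        (Or.inl (IntermediateField.subset_adjoin _ _ (Or.inl hx)))
      have hsN : s ∈ N := IntermediateField.subset_adjoin _ _
        (Or.inl (IntermediateField.subset_adjoin _ _ (Or.inr rfl)))
      have hKN := hall N (hLF.trans hFN) hsN (hτN N (hLF.trans hFN) hsN)
      have hzN : z ∈ N := by
        refine (IntermediateField.adjoin_le_iff.mpr ?_) hz
        rintro x ((hx | hx) | hx)
        · exact hKN (IntermediateField.subset_adjoin _ _ hx)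
        · exact hFN (IntermediateField.subset_adjoin _ _ (Or.inr hx))
        · exact IntermediateField.subset_adjoin _ _ (Or.inr hx)
      have hzF : z ∈ F' := hrc z hzN (isAlgebraic_mono' hLF hzal)
      refine (IntermediateField.adjoin_le_iff.mpr ?_) hzF
      rintro x (hx | hx)
      · exact (IntermediateField.adjoin.mono k _ _ Set.subset_union_left) (hL'K hx)
      · exact IntermediateField.subset_adjoin _ _ (Or.inr hx)
  · -- the conic case
    set V := W * (2 * β2 * τ + β1) with hV
    have hV2 : V ^ 2 = 4 * β2 * α2 * s ^ 2 + 4 * β2 * α1 * s +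
        (4 * β2 * α0 + W ^ 2 * (β1 ^ 2 - 4 * β2 * β0)) := by
      rw [hV]
      linear_combination (4 * β2) * hrel
    have hτ' : τ = (V / W - β1) / (2 * β2) := by
      rw [hV]
      field_simp
      ring
    have hτN : ∀ N : IntermediateField k E, L' ≤ N → V ∈ N → τ ∈ N := by
      intro N hN hVN
      rw [hτ']
      exact N.div_mem (sub_mem (N.div_mem hVN (hN hL'W)) (hN b1)) (mul_mem (mem2 N) (hN b2))
    have m2 : 4 * β2 * α2 ∈ L' := mul_mem (mul_mem (mem4 L') b2) a2
    have m1 : 4 * β2 * α1 ∈ L' := mul_mem (mul_mem (mem4 L') b2) a1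
    have m0 : 4 * β2 * α0 + W ^ 2 * (β1 ^ 2 - 4 * β2 * β0) ∈ L' :=
      add_mem (mul_mem (mul_mem (mem4 L') b2) a0) (mul_mem (pow_mem hL'W 2)
        (sub_mem (pow_mem b1 2) (mul_mem (mul_mem (mem4 L') b2) b0)))
    have hdisc : (4 * β2 * α1) ^ 2 - 4 * (4 * β2 * α2) *
        (4 * β2 * α0 + W ^ 2 * (β1 ^ 2 - 4 * β2 * β0)) ≠ 0 := by
      intro h0
      have h5 : β2 * (α1 ^ 2 - 4 * α2 * α0) = α2 * (β1 ^ 2 - 4 * β2 * β0) * W ^ 2 := by
        have h6 : 16 * β2 * (β2 * (α1 ^ 2 - 4 * α2 * α0) -
            α2 * (β1 ^ 2 - 4 * β2 * β0) * W ^ 2) = 0 := by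
          rw [← h0]; ring
        exact sub_eq_zero.mp ((mul_eq_zero.mp h6).resolve_left (mul_ne_zero h16 hβ))
      by_cases hα : α2 = 0
      · rw [hα] at h5
        have h6 : β2 * (α1 ^ 2 - 4 * 0 * α0) = 0 := by rw [h5]; ring
        rw [hα] at hDA'
        exact (mul_ne_zero hβ hDA') h6
      · set R := AC k (T' '' {j | j ≠ i₁}) with hR
        have hRT : ∀ j, j ≠ i₀ → j ≠ i₁ → T j ∈ R := fun j _ hj1 => by
          rw [← hup j hj1]
          exact subset_AC _ ⟨j, hj1, rfl⟩
        obtain ⟨r2, r1, r0⟩ := hαm R hRT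
        obtain ⟨q2, q1, q0⟩ := hβm R hRT
        have hWtr : Transcendental R W := by
          have h5 := transcendental_of_le hT' (i := i₁) (I := {j | j ≠ i₁}) (fun h => h rfl)
            (le_refl R)
          rwa [hupW] at h5
        apply hWtr
        have h6 : W ^ 2 = β2 * (α1 ^ 2 - 4 * α2 * α0) / (α2 * (β1 ^ 2 - 4 * β2 * β0)) := by
          rw [eq_div_iff (mul_ne_zero hα hDB'), h5]
          ring
        have h7 : W ^ 2 ∈ R := by
          rw [h6]
          exact R.div_mem (mul_mem q2 (sub_mem (pow_mem r1 2) (mul_mem (mul_mem (mem4 R) r2) r0)))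
            (mul_mem r2 (sub_mem (pow_mem q1 2) (mul_mem (mul_mem (mem4 R) q2) q0)))
        have h8 : W ∈ R := AC_sq h7
        exact isAlgebraic_algebraMap (⟨W, h8⟩ : R)
    constructor
    · refine ⟨hL'K, _, _, _, s, V, m2, m1, m0, hK₀T i₀, ?_, hdisc,
        fun h => hstr (isAlgebraic_mono' hL'La h), hV2, ?_⟩
      · exact mul_mem hK₀W (add_mem (mul_mem (mul_mem (mem2 K₀) (hL'K b2)) (hK₀T i₁)) (hL'K b1))
      · have hLN : L' ≤ IntermediateField.adjoin k ((L' : Set E) ∪ {s, V}) := fun x hx =>
          IntermediateField.subset_adjoin _ _ (Or.inl hx)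
        exact hall _ hLN (IntermediateField.subset_adjoin _ _ (Or.inr (Or.inl rfl)))
          (hτN _ hLN (IntermediateField.subset_adjoin _ _ (Or.inr (Or.inr rfl))))
    · intro X hX κ u hκ hu z hz hzal
      set F' := IntermediateField.adjoin k ((L' : Set E) ∪ X) with hF'
      have hLF : L' ≤ F' := fun x hx => IntermediateField.subset_adjoin _ _ (Or.inl hx)
      have hsF : Transcendental F' s := fun h => hstr (isAlgebraic_mono' (hF X hX) h)
      have hκE : algebraMap k E κ ≠ 0 := (map_ne_zero _).mpr hκ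
      have hκF : algebraMap k E κ ∈ F' := F'.algebraMap_mem κ
      have hrc := relCl_two hsF (A := ⟨_, hLF m2⟩) (B := ⟨_, hLF m1⟩) (C₀ := ⟨_, hLF m0⟩)
        (A' := ⟨_, mul_mem hκF (hLF a2)⟩) (B' := ⟨_, mul_mem hκF (hLF a1)⟩)
        (C' := ⟨_, mul_mem hκF (hLF a0)⟩) (v := V) (w := u) (by
          intro h5
          exact hdisc (congrArg Subtype.val h5)) (by
          intro h5
          have h6 : (algebraMap k E κ * α1) ^ 2 - 4 * (algebraMap k E κ * α2) *
              (algebraMap k E κ * α0) = 0 := congrArg Subtype.val h5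
          apply hDA'
          have h7 : (algebraMap k E κ) ^ 2 * (α1 ^ 2 - 4 * α2 * α0) = 0 := by
            rw [← h6]; ring
          exact (mul_eq_zero.mp h7).resolve_left (pow_ne_zero 2 hκE)) (by
          rintro ⟨-, h6, h7⟩
          have h6' : (4 * β2 * α2) * (algebraMap k E κ * α0) = (algebraMap k E κ * α2) *
              (4 * β2 * α0 + W ^ 2 * (β1 ^ 2 - 4 * β2 * β0)) := congrArg Subtype.val h6
          have h7' : (4 * β2 * α1) * (algebraMap k E κ * α0) = (algebraMap k E κ * α1) *
              (4 * β2 * α0 + W ^ 2 * (β1 ^ 2 - 4 * β2 * β0)) := congrArg Subtype.val h7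
          have hc : algebraMap k E κ * (W ^ 2 * (β1 ^ 2 - 4 * β2 * β0)) ≠ 0 :=
            mul_ne_zero hκE (mul_ne_zero (pow_ne_zero 2 hWne) hDB')
          have h8 : α2 = 0 := by
            have : α2 * (algebraMap k E κ * (W ^ 2 * (β1 ^ 2 - 4 * β2 * β0))) = 0 := by
              linear_combination -h6'
            exact (mul_eq_zero.mp this).resolve_right hc
          have h9 : α1 = 0 := by
            have : α1 * (algebraMap k E κ * (W ^ 2 * (β1 ^ 2 - 4 * β2 * β0))) = 0 := by
              linear_combination -h7'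
            exact (mul_eq_zero.mp this).resolve_right hc
          apply hDA'
          rw [h8, h9]
          ring) (by
          rw [hV2]) (by
          rw [hu, hAT]
          show _ = algebraMap k E κ * α2 * s ^ 2 + algebraMap k E κ * α1 * s +
            algebraMap k E κ * α0
          ring)
      set N := IntermediateField.adjoin k
        (((IntermediateField.adjoin k
          (((IntermediateField.adjoin k ((F' : Set E) ∪ {s}) : IntermediateField k E) : Set E) ∪
          {V}) : IntermediateField k E) : Set E) ∪ {u}) with hN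
      have hFN : F' ≤ N := fun x hx => IntermediateField.subset_adjoin _ _
        (Or.inl (IntermediateField.subset_adjoin _ _ (Or.inl
          (IntermediateField.subset_adjoin _ _ (Or.inl hx)))))
      have hsN : s ∈ N := IntermediateField.subset_adjoin _ _
        (Or.inl (IntermediateField.subset_adjoin _ _ (Or.inl
          (IntermediateField.subset_adjoin _ _ (Or.inr rfl)))))
      have hVN : V ∈ N := IntermediateField.subset_adjoin _ _
        (Or.inl (IntermediateField.subset_adjoin _ _ (Or.inr rfl)))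
      have hKN := hall N (hLF.trans hFN) hsN (hτN N (hLF.trans hFN) hVN)
      have hzN : z ∈ N := by
        refine (IntermediateField.adjoin_le_iff.mpr ?_) hz
        rintro x ((hx | hx) | hx)
        · exact hKN (IntermediateField.subset_adjoin _ _ hx)
        · exact hFN (IntermediateField.subset_adjoin _ _ (Or.inr hx))
        · exact IntermediateField.subset_adjoin _ _ (Or.inr hx)
      have hzF : z ∈ F' := hrc z hzN (isAlgebraic_mono' hLF hzal)
      refine (IntermediateField.adjoin_le_iff.mpr ?_) hzF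
      rintro x (hx | hx)
      · exact (IntermediateField.adjoin.mono k _ _ Set.subset_union_left) (hL'K hx)
      · exact IntermediateField.subset_adjoin _ _ (Or.inr hx)

end Pool.Agent.TH178.HI
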