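import Pool.Agent.TH178.HI.Tower
import Pool.Agent.W790.HP.HPF
import Pool.Agent.W74.HP.HPI
import Pool.Agent.W240.HP.Lift

/-! The function field of a double cover has the Hilbert property. -/

set_option autoImplicit false

namespace Pool.Agent.TH178.HI

open MvPolynomial

/-- A finitely generated field extension in which `K` is algebraically closed, in the form used by
the Hilbert property. -/
theorem hpf_of_relCl {k E K : Type} [Field k] [Field E] [Algebra k E] [Field K] [Algebra k K]
    (hN : W560.HP.HilbNR k) {Ω K₀ : IntermediateField k E} (hΩ : Pure Ω) (hK : K₀ ≤ Ω)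
    (hcl : RelCl K₀ Ω) (e : K ≃ₐ[k] K₀) :
    W560.HP.HPF k K ∧ ∃ (ι : Type) (_ : Finite ι),
      Nonempty (K →ₐ[k] FractionRing (MvPolynomial ι k)) := by
  obtain ⟨ι, hι, x, hx, hxΩ⟩ := hΩ
  have hmem : ∀ i, x i ∈ Ω := fun i => by
    rw [← hxΩ]
    exact IntermediateField.subset_adjoin _ _ ⟨i, rfl⟩
  let y : ι → Ω := fun i => ⟨x i, hmem i⟩
  have hy : AlgebraicIndependent k y := by
    have h1 : AlgebraicIndependent k (Ω.val ∘ y) := hx
    exact h1.of_comp Ω.val
  have hytop : IntermediateField.adjoin k (Set.range y) = ⊤ := by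
    apply IntermediateField.lift_injective Ω
    rw [IntermediateField.lift_adjoin, IntermediateField.lift_top, ← Set.range_comp]
    exact hxΩ
  constructor
  · have h2 : W560.HP.HPF k (IntermediateField.restrict hK) := by
      refine Pool.Agent.W790.HP.hpf k Ω ι y (IntermediateField.restrict hK) hN hy hytop ?_
      intro z hz
      rw [IntermediateField.mem_restrict]
      refine hcl z.1 z.2 ?_
      obtain ⟨p, hp, h0⟩ := hz
      refine ⟨p.map (IntermediateField.restrictAlgEquiv hK).symm.toAlgHom.toRingHom, ?_, ?_⟩
      · rwa [Ne, Polynomial.map_eq_zero]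
      · have h3 := congrArg (fun u : Ω => (u : E)) h0
        rw [Polynomial.aeval_def, Polynomial.eval₂_map]
        rw [Polynomial.aeval_def] at h3
        have h4 := Polynomial.hom_eval₂ p (algebraMap (IntermediateField.restrict hK) Ω)
          Ω.val.toRingHom z
        refine Eq.trans ?_ (h4.symm.trans h3)
        congr 1
        ext u
        obtain ⟨u', rfl⟩ := (IntermediateField.restrictAlgEquiv hK).surjective u
        show algebraMap K₀ E ((IntermediateField.restrictAlgEquiv hK).symm
          (IntermediateField.restrictAlgEquiv hK u')) = _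
        rw [AlgEquiv.symm_apply_apply]
        rfl
    exact Pool.Agent.W74.HP.hpi k _ K
      ⟨(e.trans (IntermediateField.restrictAlgEquiv hK)).symm⟩ h2
  · obtain ⟨Ψ, -⟩ := Pool.Agent.W240.HP.lift k Ω (FractionRing (MvPolynomial ι k)) ι y
      (fun i => algebraMap (MvPolynomial ι k) _ (MvPolynomial.X i)) hy
      ((MvPolynomial.algebraicIndependent_X ι k).map'
        (f := IsScalarTower.toAlgHom k (MvPolynomial ι k) (FractionRing (MvPolynomial ι k)))
        (IsFractionRing.injective (MvPolynomial ι k) (FractionRing (MvPolynomial ι k)))) hytop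
    exact ⟨ι, hι, ⟨(Ψ.comp (IntermediateField.inclusion hK)).comp e.toAlgHom⟩⟩

/-- `K` is the function field of the double cover `w² = f(t_1, ..., t_n)`. -/
def IsCoverField (k : Type) [Field k] {n : ℕ} (f : MvPolynomial (Fin n) k) (K : Type) [Field K]
    [Algebra k K] : Prop :=
  ∃ (t : Fin n → K) (w : K), AlgebraicIndependent k t ∧ w ^ 2 = aeval t f ∧
    IntermediateField.adjoin k (insert w (Set.range t)) = ⊤

theorem field_main {k : Type} [Field k] [CharZero k] (hN : W560.HP.HilbNR k) {n : ℕ} (hn : n ≠ 0)
    (f : MvPolynomial (Fin n) k) (hf : Linked f) (hdeg : ∀ i, degreeOf i f ≤ 2) (b : Fin n → k)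
    (c : k) (hc : c ^ 2 = eval b f) (hb : ∀ i, eval b (disc f i) ≠ 0) (K : Type) [Field K]
    [Algebra k K] (hK : IsCoverField k f K) :
    W560.HP.HPF k K ∧ ∃ (ι : Type) (_ : Finite ι),
      Nonempty (K →ₐ[k] FractionRing (MvPolynomial ι k)) := by
  obtain ⟨t, w₀, ht, hw₀, htop⟩ := hK
  let R := MvPolynomial (Fin n) K
  let F := FractionRing R
  let E := AlgebraicClosure F
  let S : Fin n → E := fun i => algebraMap F E (algebraMap R F (X i))
  have hS : AlgebraicIndependent K S := by
    have h1 := (MvPolynomial.algebraicIndependent_X (Fin n) K).map'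
      (f := IsScalarTower.toAlgHom K R F) (IsFractionRing.injective R F)
    exact h1.map' (f := IsScalarTower.toAlgHom K F E) (algebraMap F E).injective
  let T : Fin n → E := fun i => algebraMap K E (t i)
  have hz : AlgebraicIndependent k (Sum.elim S T) := AlgebraicIndependent.sumElim_comp ht hS
  have hroot : ∀ x : E, ∃ z : E, z ^ 2 = x := fun x => IsAlgClosed.exists_pow_nat_eq x two_pos
  choose sq hsq using hroot
  let v : ℕ → E := fun m => if m = 0 then algebraMap k E c else
    sq (aeval (mix S (fun i => algebraMap k E (b i)) m) f)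
  let w : ℕ → E := fun m => if m = 0 then algebraMap K E w₀ else sq (aeval (mix S T m) f)
  have hch : Chain f b S T v w := by
    refine ⟨hf, hdeg, hb, hz, fun m => ?_, fun m => ?_, ?_, ?_⟩
    · by_cases hm : m = 0
      · subst hm
        show (if 0 = 0 then algebraMap k E c else _) ^ 2 = _
        rw [if_pos rfl, mix_zero, ← map_pow, hc]
        exact (MvPolynomial.aeval_algebraMap_apply E b f).symm
      · show (if m = 0 then algebraMap k E c else _) ^ 2 = _
        rw [if_neg hm]
        exact hsq _
    · by_cases hm : m = 0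
      · subst hm
        show (if 0 = 0 then algebraMap K E w₀ else _) ^ 2 = _
        rw [if_pos rfl, mix_zero, ← map_pow, hw₀]
        exact (MvPolynomial.aeval_algebraMap_apply E t f).symm
      · show (if m = 0 then algebraMap K E w₀ else _) ^ 2 = _
        rw [if_neg hm]
        exact hsq _
    · show (if 0 = 0 then algebraMap k E c else _) ∈ _
      rw [if_pos rfl]
      exact IntermediateField.algebraMap_mem _ _
    · show (if n = 0 then algebraMap K E w₀ else _) = (if n = 0 then algebraMap k E c else _)
      rw [if_neg hn, if_neg hn, mix_n, mix_n]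
  obtain ⟨Ω, h1, h2, h3⟩ := hch.main
  let φ : K →ₐ[k] E := IsScalarTower.toAlgHom k K E
  have hw0 : w 0 = algebraMap K E w₀ := if_pos rfl
  have hrange : φ.fieldRange = IntermediateField.adjoin k (insert (w 0) (Set.range T)) := by
    rw [AlgHom.fieldRange_eq_map, ← htop, IntermediateField.adjoin_map, Set.image_insert_eq,
      ← Set.range_comp, hw0]
    rfl
  refine hpf_of_relCl hN h1 h2 h3 ((AlgEquiv.ofInjectiveField φ).trans
    (IntermediateField.equivOfEq hrange))

end Pool.Agent.TH178.HI
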