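import Pool.Agent.TH178.HI.Smooth

/-! The equivalence of the Hilbert property with the existence of one smooth rational point. -/

set_option autoImplicit false

namespace Pool.Agent.TH178.HI

theorem HasGoodPoint.smooth {k : Type} [Field k] {n : ℕ} (hn : n ≠ 0)
    {f : MvPolynomial (Fin n) k} (h : HasGoodPoint f) : HasSmoothPoint f := by
  obtain ⟨b, c, hc, hb⟩ := h
  refine ⟨b, c, hc, ?_⟩
  by_contra h0
  push Not at h0
  obtain ⟨h1, h2⟩ := h0
  apply hb ⟨0, Nat.pos_of_ne_zero hn⟩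
  rw [disc, map_sub, map_mul, map_mul, map_pow, h2, ← hc, h1]
  ring

theorem HasSmoothPoint.good {k : Type} [Field k] [CharZero k] {n : ℕ} (hn : n ≠ 0)
    {f : MvPolynomial (Fin n) k} (hdeg : ∀ i, MvPolynomial.degreeOf i f ≤ 2)
    (hd : ∀ i, disc f i ≠ 0) (h : HasSmoothPoint f) : HasGoodPoint f := by
  obtain ⟨b, c, h1, -, h2⟩ := good_of_smooth
    (not_isSquare_of_disc (hdeg ⟨0, Nat.pos_of_ne_zero hn⟩) (hd _)) hdeg h
  exact ⟨b, c, h1, fun i => h2 i (hd i)⟩

end Pool.Agent.TH178.HI
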