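import Pool.Agent.TH178.HI.Multi

/-! Unirationality of the schemes birational to a double cover with a smooth rational point. -/

set_option autoImplicit false

namespace Pool.Agent.TH178.HI

open AlgebraicGeometry CategoryTheory W560.HP MZ

/-- The integral `k`-scheme `X` is birational over `k` to the double cover `w² = F` of the product
of the projective spaces of dimensions `a i`: compatibly with `k`, its function field is generated
by elements `u_(i,j)`, with `u_(i,0) = 1` and the `u_(i,j)`, `j > 0`, algebraically independent over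
`k`, and by an element `w` with `w² = F(u)`. -/
def BirationalToMultiCover (k : Type) [Field k] {r : ℕ} {a : Fin r → ℕ}
    (F : MvPolynomial (Idx a) k) (X : Scheme.{0}) [IsIntegral X]
    (p : X ⟶ Spec (CommRingCat.of k)) : Prop :=
  ∃ (K : Type) (_ : Field K) (_ : Algebra k K), IsMultiCoverField k F K ∧
    ∃ e : X.functionField ≃+* K, ∀ a : k, e (toFF k X p a) = algebraMap k K a

theorem unirational_multi {k : Type} [Field k] [CharZero k] {r : ℕ} {a : Fin r → ℕ}
    (F : MvPolynomial (Idx a) k) (hF : IsMultiQuadratic F) (h : HasSmoothMultiPoint F)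
    (X : Scheme.{0}) [IsIntegral X] (p : X ⟶ Spec (CommRingCat.of k))
    (hX : BirationalToMultiCover k F X p) : UnirationalScheme k X p := by
  obtain ⟨K, _, _, hK, e, he⟩ := hX
  obtain ⟨ι, hι, ⟨χ⟩⟩ := multi_main F hF h K hK
  refine ⟨ι, hι, (χ : K →+* FractionRing (MvPolynomial ι k)).comp
    (e : X.functionField →+* K), fun a => ?_⟩
  change χ (e (toFF k X p a)) = _
  rw [he a, AlgHom.commutes]

theorem unirational_affine {k : Type} [Field k] [CharZero k] {n : ℕ}
    (f : MvPolynomial (Fin n) k) (hdeg : ∀ i, MvPolynomial.degreeOf i f ≤ 2)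
    (h : HasSmoothPoint f) (X : Scheme.{0}) [IsIntegral X] (p : X ⟶ Spec (CommRingCat.of k))
    (hX : BirationalToCover k f X p) : UnirationalScheme k X p := by
  obtain ⟨K, _, _, hK, e, he⟩ := hX
  obtain ⟨ι, hι, ⟨χ⟩⟩ := unirational_of_smooth f hdeg h K hK
  refine ⟨ι, hι, (χ : K →+* FractionRing (MvPolynomial ι k)).comp
    (e : X.functionField →+* K), fun a => ?_⟩
  change χ (e (toFF k X p a)) = _
  rw [he a, AlgHom.commutes]

end Pool.Agent.TH178.HI
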