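import Pool.Agent.TH178.HI.ODesc
import Pool.Agent.TH178.HI.MultiFin
import Pool.Agent.TH178.HI.Fin2
import Pool.Agent.TH178.HI.CritFin

/-! The Hilbert property of the schemes birational to a double cover `w² = f(t_1, ..., t_n)`:
the general equivalence. -/

set_option autoImplicit false

namespace Pool.Agent.TH178.HI

open AlgebraicGeometry CategoryTheory W560.HP

/-- From specialisations of the function field to a point outside a hypersurface. -/
theorem point_of_place {k : Type} [Field k] {n : ℕ} {f : MvPolynomial (Fin n) k}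
    {K : Type} [Field K] [Algebra k K] (hK : IsCoverField k f K)
    (hp : ∀ y : Option (Option (Fin n)) → K, ∃ a : Option (Option (Fin n)) → k,
      ∀ P : MvPolynomial (Option (Option (Fin n))) k,
        MvPolynomial.aeval y P = 0 → MvPolynomial.eval a P = 0) {G : MvPolynomial (Fin n) k}
    (hG0 : G ≠ 0) : ∃ (b : Fin n → k) (c : k), c ^ 2 = MvPolynomial.eval b f ∧
      MvPolynomial.eval b G ≠ 0 := by
  obtain ⟨t, w, ht, hw, -⟩ := hK
  have hG : MvPolynomial.aeval t G ≠ 0 := aeval_ne_zero_of_indep ht hG0
  obtain ⟨a, ha⟩ := hp fun o => match o with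
    | none => (MvPolynomial.aeval t G)⁻¹
    | some none => w
    | some (some i) => t i
  let emb : Fin n → Option (Option (Fin n)) := fun i => some (some i)
  have h1 := ha (MvPolynomial.X (some none) ^ 2 - MvPolynomial.rename emb f) (by
    rw [map_sub, map_pow, MvPolynomial.aeval_X, MvPolynomial.aeval_rename]
    show w ^ 2 - MvPolynomial.aeval t f = 0
    rw [hw, sub_self])
  have h2 := ha (MvPolynomial.X none * MvPolynomial.rename emb G - 1) (by
    rw [map_sub, map_mul, MvPolynomial.aeval_X, MvPolynomial.aeval_rename, map_one]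
    show (MvPolynomial.aeval t G)⁻¹ * MvPolynomial.aeval t G - 1 = 0
    rw [inv_mul_cancel₀ hG, sub_self])
  rw [map_sub, map_pow, MvPolynomial.eval_X, MvPolynomial.eval_rename] at h1
  rw [map_sub, map_mul, MvPolynomial.eval_X, MvPolynomial.eval_rename, map_one] at h2
  have h3 : MvPolynomial.eval (a ∘ emb) G ≠ 0 := by
    intro h0
    rw [h0, mul_zero, zero_sub] at h2
    exact neg_ne_zero.mpr one_ne_zero h2
  exact ⟨a ∘ emb, a (some none), sub_eq_zero.mp h1, h3⟩

theorem smooth_of_place {k : Type} [Field k] {n : ℕ} {f : MvPolynomial (Fin n) k} (hf : f ≠ 0)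
    {K : Type} [Field K] [Algebra k K] (hK : IsCoverField k f K)
    (hp : ∀ y : Option (Option (Fin n)) → K, ∃ a : Option (Option (Fin n)) → k,
      ∀ P : MvPolynomial (Option (Option (Fin n))) k,
        MvPolynomial.aeval y P = 0 → MvPolynomial.eval a P = 0) : HasSmoothPoint f := by
  obtain ⟨b, c, h1, h2⟩ := point_of_place hK hp hf
  refine ⟨b, c, h1, Or.inl ?_⟩
  rintro rfl
  exact h2 (by rw [← h1]; ring)

theorem scheme_all {k : Type} [Field k] [CharZero k]
    (hk : ∃ S : Finset k, IntermediateField.adjoin ℚ (S : Set k) = ⊤) {n : ℕ}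
    (f : MvPolynomial (Fin n) k) (hf0 : f ≠ 0) (hdeg : ∀ i, MvPolynomial.degreeOf i f ≤ 2)
    (hR : HasSmoothPoint f → ∀ (K : Type) [Field K] [Algebra k K], IsCoverField k f K →
      Realizable k K) (X : Scheme.{0}) [IsIntegral X]
    (p : X ⟶ Spec (CommRingCat.of k)) [LocallyOfFiniteType p] (hX : BirationalToCover k f X p) :
    [DensePoints k X p, HasSmoothPoint f, HilbertProperty k X p, UnirationalScheme k X p].TFAE := by
  obtain ⟨S, hS⟩ := hk
  have hN : HilbNR k := Pool.Agent.W405.HP.hit k (Pool.Agent.W583.HP.fg k S hS)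
  have hX' := hX
  obtain ⟨K, _, _, hK, e, he⟩ := hX
  tfae_have 1 → 2 := fun h => smooth_of_place hf0 hK fun y =>
    exists_place k X p h K e he y
  tfae_have 2 → 3 := fun h =>
    Pool.Agent.W253.HP.sch k X p K e he ((hR h K hK).hpf hN)
  tfae_have 2 → 4 := fun h => unirational_affine f hdeg h X p hX'
  tfae_have 3 → 1 := by
    intro h
    refine (h 0 (fun i => i.elim0) (fun i => i.elim0) (fun i => i.elim0) (fun i => i.elim0)
      (fun i => i.elim0) (fun i => i.elim0)).mono ?_
    rintro x ⟨s, hs, hx, -⟩
    exact ⟨s, hs, hx⟩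
  tfae_have 4 → 2 := fun ⟨ι, hι, φ, hφ⟩ => by
    refine smooth_of_place hf0 hK fun y => ?_
    let M := FractionRing (MvPolynomial ι k)
    have hM : HPF k M := by
      have h1 : Realizable k M := by
        refine ⟨M, inferInstance, inferInstance, ⊤, AlgHom.id k M, pure_frac k ι, le_top, ?_⟩
        intro x _ _
        exact ⟨x, rfl⟩
      exact h1.hpf hN
    let ψ : K →ₐ[k] M :=
      { φ.comp (e.symm : K →+* X.functionField) with
        commutes' := fun a => by
          show φ (e.symm (algebraMap k K a)) = _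
          rw [← he a, RingEquiv.symm_apply_apply]
          exact hφ a }
    classical
    obtain ⟨B, θ, -, hB, -, -⟩ := hM 0 (fun i => i.elim0) (fun i => i.elim0)
      (Finset.univ.image fun o => ψ (y o))
    have hy : ∀ o, ψ (y o) ∈ B := fun o => hB (by
      rw [Finset.coe_image]
      exact ⟨o, Finset.mem_coe.mpr (Finset.mem_univ o), rfl⟩)
    let y' : Option (Option (Fin n)) → B := fun o => ⟨ψ (y o), hy o⟩
    refine ⟨fun o => θ (y' o), fun P hP => ?_⟩
    have h1 : MvPolynomial.aeval y' P = 0 := by
      apply Subtype.ext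
      have h2 : B.val (MvPolynomial.aeval y' P) =
          MvPolynomial.aeval (fun o => B.val (y' o)) P :=
        DFunLike.congr_fun (MvPolynomial.comp_aeval (f := y') B.val) P
      have h3 : ψ (MvPolynomial.aeval y P) = MvPolynomial.aeval (fun o => ψ (y o)) P :=
        DFunLike.congr_fun (MvPolynomial.comp_aeval (f := y) ψ) P
      have h4 : B.val (MvPolynomial.aeval y' P) = ψ (MvPolynomial.aeval y P) := h2.trans h3.symm
      rw [hP, map_zero] at h4
      exact h4
    have h5 : θ (MvPolynomial.aeval y' P) = MvPolynomial.aeval (fun o => θ (y' o)) P :=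
      DFunLike.congr_fun (MvPolynomial.comp_aeval (f := y') θ) P
    rw [h1, map_zero] at h5
    exact h5.symm
  tfae_finish

end Pool.Agent.TH178.HI
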