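import Pool.Agent.TH178.HI.GTower
import Pool.Agent.TH178.HI.Fin3

/-! The function field of a double cover with a smooth rational point is realizable: no hypothesis
on the factors and on the discriminants of `f`. -/

set_option autoImplicit false

namespace Pool.Agent.TH178.HI

open MvPolynomial

variable {k E : Type} [Field k] [Field E] [Algebra k E] {n : ℕ}

theorem CutAt.data' {f A B : MvPolynomial (Fin n) k} {i₀ : Fin n}
    (hc : CutAt f i₀ A B) (hdeg : ∀ i, degreeOf i f ≤ 2) (hd : disc f i₀ ≠ 0) :
    degreeOf i₀ A ≤ 2 ∧ disc A i₀ ≠ 0 ∧ B ≠ 0 ∧ ∀ i, degreeOf i B ≤ 2 := by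
  obtain ⟨hf, hA, hB⟩ := hc
  have h1 : i₀ ∉ B.vars := fun h => lt_irrefl _ (hB i₀ h)
  have d0 := hd
  rw [hf, disc_mul_vars h1] at d0
  have hB0 : B ≠ 0 := by
    rintro rfl
    exact d0 (by simp)
  have hA0 : A ≠ 0 := by
    rintro rfl
    exact d0 (by simp [disc])
  have e : ∀ i, degreeOf i A + degreeOf i B ≤ 2 := by
    intro i
    have := hdeg i
    rwa [hf, degreeOf_mul_eq hA0 hB0] at this
  exact ⟨by have := e i₀; omega, right_ne_zero_of_mul d0, hB0, fun i => by have := e i; omega⟩

section

variable {f : MvPolynomial (Fin n) k} {b : Fin n → k} {S T : Fin n → E} {v w : ℕ → E}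

/-- `f` splits after the index `m`, and both sides have a nonzero discriminant. -/
def IsHCut (f : MvPolynomial (Fin n) k) (m : ℕ) : Prop :=
  ∃ (h : m + 1 < n) (A B : MvPolynomial (Fin n) k) (i₁ : Fin n),
    CutAt f ⟨m, Nat.lt_of_succ_lt h⟩ A B ∧ disc f ⟨m, Nat.lt_of_succ_lt h⟩ ≠ 0 ∧
    (⟨m, Nat.lt_of_succ_lt h⟩ : Fin n) < i₁ ∧ disc B i₁ ≠ 0

theorem GChain.realizable [CharZero k] (h : GChain f b S T v w) :
    Realizable k (GH f T v w 0) := by
  obtain ⟨Ω, hΩ, hKΩ, hcl⟩ := h.main
  have hT : AlgebraicIndependent k T := h.ind.comp Sum.inr Sum.inr_injective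
  choose hlt A B i₁ hAB hdi hii hdB using fun i : {m : ℕ // IsHCut f m} => i.2
  let i₀ : {m : ℕ // IsHCut f m} → Fin n := fun i => ⟨i.1, Nat.lt_of_succ_lt (hlt i)⟩
  have hstep := fun i => by
    obtain ⟨d1, d2, d3, d4⟩ := (hAB i).data' h.deg (hdi i)
    exact cut_step hT (hii i) (hAB i).2.1 (hAB i).2.2 d1 (d4 (i₁ i)) d2 (hdB i)
      (h.cut (hAB i)).2.2.1
  have hK₀ : GH f T v w 0 = IntermediateField.adjoin k (insert (w 0) (Set.range T)) :=
    GH_zero f T v w
  obtain ⟨M, hM1, hM2, hM3, hM4, hM5⟩ := criterion_in hΩ hKΩ
    (fun i : {m : ℕ // IsHCut f m} => BB (k := k) T (i₀ i) (i₁ i) (w 0 / aeval T (B i)))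
    (fun i => by rw [hK₀]; exact (hstep i).1)
  have hMn : M ≤ GH f T v w n := fun z hz =>
    hcl z (hM2 hz) (isAlgebraic_mono' (GH_mono f T v w (Nat.zero_le n)) (hM3 z hz))
  have hdown : ∀ m, M ≤ GH f T v w (m + 1) → M ≤ GH f T v w m := by
    intro m hm
    by_cases hH : IsHCut f m
    · have h1 := hM5 ⟨m, hH⟩
      refine h1.trans ?_
      rw [IntermediateField.adjoin_le_iff]
      rintro z (hz | ⟨hzM, hzal⟩)
      · exact GH_mono f T v w (Nat.zero_le m) hz
      · have hroot := h.root_sq (hAB ⟨m, hH⟩)
        refine (hstep ⟨m, hH⟩).2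
          {x | ∃ m' < m, IsGCut f m' ∧ x = w 0 * v (m' + 1) / w (m' + 1)} ?_
          (eval b (B ⟨m, hH⟩)) (w 0 * v (m + 1) / w (m + 1)) (h.disc_cut (hAB ⟨m, hH⟩))
          hroot z ?_ hzal
        · rintro x ⟨m', hm', ⟨hm2, -, A', B', hc'⟩, rfl⟩
          refine AC_sq ?_
          rw [h.root_sq hc']
          refine mul_mem (IntermediateField.algebraMap_mem _ _) (aeval_mem_vars fun j hj => ?_)
          refine subset_AC _ ⟨j, ?_, rfl⟩
          have h2 : j ≤ (⟨m', Nat.lt_of_succ_lt hm2⟩ : Fin n) := hc'.2.1 j hj
          exact lt_of_le_of_lt h2 (show (⟨m', Nat.lt_of_succ_lt hm2⟩ : Fin n) < i₀ ⟨m, hH⟩ from hm')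
        · have h2 := hm hzM
          rw [GH] at h2
          refine (IntermediateField.adjoin.mono k _ _ ?_) h2
          rintro x (hx | ⟨m', hm', hx⟩)
          · exact Or.inl (Or.inl hx)
          · rcases Nat.lt_succ_iff_lt_or_eq.mp hm' with h3 | h3
            · exact Or.inl (Or.inr ⟨m', h3, hx⟩)
            · right
              rw [Set.mem_singleton_iff, hx.2, h3]
    · refine hm.trans ?_
      rw [GH, IntermediateField.adjoin_le_iff]
      rintro x (hx | ⟨m', hm', hcut, hx⟩)
      · exact IntermediateField.subset_adjoin _ _ (Or.inl hx)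
      · rcases Nat.lt_succ_iff_lt_or_eq.mp hm' with h3 | h3
        · exact IntermediateField.subset_adjoin _ _ (Or.inr ⟨m', h3, hcut, hx⟩)
        · -- the square root lies in the function field
          rw [hx]
          subst h3
          obtain ⟨hlt', hd0, A', B', hc'⟩ := hcut
          obtain ⟨-, -, hB0, hBdeg⟩ := hc'.data' h.deg hd0
          have hall : ∀ i, HI.disc B' i = 0 := by
            intro i
            by_contra h4
            have h5 : i ∈ B'.vars := by
              by_contra h6
              exact h4 (disc_of_not_mem h6)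
            exact hH ⟨hlt', A', B', i, hc', hd0, hc'.2.2 i h5, h4⟩
          obtain ⟨β, g, hg⟩ := const_mul_sq B' hB0 hBdeg hall
          obtain ⟨c1, c2, c3, c4, c5, c6⟩ := h.cut hc'
          have hroot := h.root_sq hc'
          have hgT : aeval T g ≠ 0 := by
            intro h0
            apply c6
            rw [hg, map_mul, map_pow, h0]
            ring
          have hTm : ∀ j, T j ∈ GH f T v w m' := fun j =>
            IntermediateField.subset_adjoin _ _ (Or.inl (Or.inr ⟨j, rfl⟩))
          have hw0m : w 0 ∈ GH f T v w m' :=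
            IntermediateField.subset_adjoin _ _ (Or.inl (Or.inl rfl))
          set u := w 0 * v (m' + 1) / w (m' + 1) with hu
          have hroot' : u ^ 2 = algebraMap k E (eval b B') * aeval T A' := hroot
          have h7 : (u * aeval T g) ^ 2 = (algebraMap k E (eval b g) * w 0) ^ 2 := by
            rw [mul_pow, mul_pow, hroot', c3, hg, map_mul, map_pow, eval_C, map_mul, map_pow,
              map_mul, map_pow, aeval_C]
            ring
          have hmem : algebraMap k E (eval b g) * w 0 / aeval T g ∈ GH f T v w m' :=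
            IntermediateField.div_mem _ (mul_mem (IntermediateField.algebraMap_mem _ _) hw0m)
              (aeval_mem' hTm g)
          rcases sq_eq_sq_iff_eq_or_eq_neg.mp h7 with h8 | h8
          · have h9 : u = algebraMap k E (eval b g) * w 0 / aeval T g := by
              rw [eq_div_iff hgT, h8]
            rw [h9]
            exact hmem
          · have h9 : u = -(algebraMap k E (eval b g) * w 0 / aeval T g) := by
              rw [← neg_div, eq_div_iff hgT, h8]
            rw [h9]
            exact neg_mem hmem
  have hM0 : M ≤ GH f T v w 0 := by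
    have key : ∀ j ≤ n, M ≤ GH f T v w (n - j) := by
      intro j
      induction j with
      | zero => intro _; exact hMn
      | succ j ih =>
        intro hj
        apply hdown
        have h1 : n - (j + 1) + 1 = n - j := by omega
        rw [h1]
        exact ih (by omega)
    have h1 := key n le_rfl
    rwa [Nat.sub_self] at h1
  have heq : GH f T v w 0 = M := le_antisymm hM1 hM0
  exact hM4.equiv (IntermediateField.equivOfEq heq)

end

theorem realizable_gcover [CharZero k] (hn : n ≠ 0) (f : MvPolynomial (Fin n) k)
    (hf : Ordered f) (hdeg : ∀ i, degreeOf i f ≤ 2) (b : Fin n → k)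
    (c : k) (hc : c ^ 2 = eval b f) (hfb : eval b f ≠ 0)
    (hb : ∀ i, disc f i ≠ 0 → eval b (disc f i) ≠ 0) (K : Type) [Field K]
    [Algebra k K] (hK : IsCoverField k f K) : Realizable k K := by
  obtain ⟨t, w₀, ht, hw₀, htop⟩ := hK
  let R := MvPolynomial (Fin n) K
  let F := FractionRing R
  let E := AlgebraicClosure F
  let S : Fin n → E := fun i => algebraMap F E (algebraMap R F (X i))
  have hS : AlgebraicIndependent K S := by
    have h1 := (MvPolynomial.algebraicIndependent_X (Fin n) K).map'
      (f := IsScalarTower.toAlgHom K R F) (IsFractionRing.injective R F)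
    exact h1.map' (f := IsScalarTower.toAlgHom K F E) (algebraMap F E).injective
  let T : Fin n → E := fun i => algebraMap K E (t i)
  have hz : AlgebraicIndependent k (Sum.elim S T) := AlgebraicIndependent.sumElim_comp ht hS
  have hroot : ∀ x : E, ∃ z : E, z ^ 2 = x := fun x => IsAlgClosed.exists_pow_nat_eq x two_pos
  choose sq hsq using hroot
  let v : ℕ → E := fun m => if m = 0 then algebraMap k E c else
    sq (aeval (mix S (fun i => algebraMap k E (b i)) m) f)
  let w : ℕ → E := fun m => if m = 0 then algebraMap K E w₀ else sq (aeval (mix S T m) f)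
  have hch : GChain f b S T v w := by
    refine ⟨hf, hdeg, hb, hz, fun m => ?_, fun m => ?_, ?_, ?_, hfb⟩
    · by_cases hm : m = 0
      · subst hm
        show (if 0 = 0 then algebraMap k E c else _) ^ 2 = _
        rw [if_pos rfl, mix_zero, ← map_pow, hc]
        exact (MvPolynomial.aeval_algebraMap_apply E b f).symm
      · show (if m = 0 then algebraMap k E c else _) ^ 2 = _
        rw [if_neg hm]
        exact hsq _
    · by_cases hm : m = 0
      · subst hm
        show (if 0 = 0 then algebraMap K E w₀ else _) ^ 2 = _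
        rw [if_pos rfl, mix_zero, ← map_pow, hw₀]
        exact (MvPolynomial.aeval_algebraMap_apply E t f).symm
      · show (if m = 0 then algebraMap K E w₀ else _) ^ 2 = _
        rw [if_neg hm]
        exact hsq _
    · show (if 0 = 0 then algebraMap k E c else _) ∈ _
      rw [if_pos rfl]
      exact IntermediateField.algebraMap_mem _ _
    · show (if n = 0 then algebraMap K E w₀ else _) = (if n = 0 then algebraMap k E c else _)
      rw [if_neg hn, if_neg hn, mix_n, mix_n]
  have hr := hch.realizable
  let φ : K →ₐ[k] E := IsScalarTower.toAlgHom k K E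
  have hw0 : w 0 = algebraMap K E w₀ := if_pos rfl
  have hrange : φ.fieldRange = GH f T v w 0 := by
    rw [GH_zero, AlgHom.fieldRange_eq_map, ← htop, IntermediateField.adjoin_map,
      Set.image_insert_eq, ← Set.range_comp, hw0]
    rfl
  exact hr.equiv ((AlgEquiv.ofInjectiveField φ).trans (IntermediateField.equivOfEq hrange))

theorem realizable_of_pure {K : Type} [Field K] [Algebra k K]
    (h : Pure (⊤ : IntermediateField k K)) : Realizable k K :=
  ⟨K, inferInstance, inferInstance, ⊤, AlgHom.id k K, h, le_top, fun x _ _ => ⟨x, rfl⟩⟩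

/-- The function field of a double cover with a smooth rational point is realizable. -/
theorem realizable_smooth [CharZero k] (f : MvPolynomial (Fin n) k)
    (hdeg : ∀ i, degreeOf i f ≤ 2) (hs : HasSmoothPoint f) (K : Type) [Field K]
    [Algebra k K] (hK : IsCoverField k f K) : Realizable k K := by
  by_cases hsq : IsSquare f
  · obtain ⟨g, rfl⟩ := hsq
    obtain ⟨t, w₀, ht, hw₀, htop⟩ := hK
    apply realizable_of_pure
    refine ⟨Fin n, inferInstance, t, ht, ?_⟩
    rw [eq_top_iff, ← htop, IntermediateField.adjoin_le_iff]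
    have hTm : ∀ i, t i ∈ IntermediateField.adjoin k (Set.range t) := fun i =>
      IntermediateField.subset_adjoin _ _ ⟨i, rfl⟩
    rintro x (hx | ⟨i, rfl⟩)
    · rw [hx]
      have h1 : w₀ ^ 2 = (aeval t g) ^ 2 := by
        rw [hw₀, map_mul, pow_two]
      rcases sq_eq_sq_iff_eq_or_eq_neg.mp h1 with h2 | h2
      · rw [h2]; exact aeval_mem' hTm g
      · rw [h2]; exact neg_mem (aeval_mem' hTm g)
    · exact hTm i
  · obtain ⟨b, c, hc, hfb, hb⟩ := good_of_smooth hsq hdeg hs
    by_cases hn : n = 0
    · subst hn
      obtain ⟨t, w₀, ht, hw₀, htop⟩ := hK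
      apply realizable_of_pure
      have h0 : (⊤ : IntermediateField k K) = ⊥ := by
        rw [eq_bot_iff, ← htop, IntermediateField.adjoin_le_iff]
        rintro x (hx | ⟨i, rfl⟩)
        · rw [hx]
          have h2 : w₀ ^ 2 = (algebraMap k K c) ^ 2 := by
            rw [hw₀, ← map_pow, hc]
            have h3 : t = fun i => algebraMap k K (b i) := funext fun i => i.elim0
            rw [h3]
            exact MvPolynomial.aeval_algebraMap_apply K b f
          rcases sq_eq_sq_iff_eq_or_eq_neg.mp h2 with h3 | h3
          · rw [h3]; exact IntermediateField.algebraMap_mem _ _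
          · rw [h3]; exact neg_mem (IntermediateField.algebraMap_mem _ _)
        · exact i.elim0
      rw [h0]
      exact Pure.bot
    · have hf0 : f ≠ 0 := by
        rintro rfl
        exact hfb (map_zero _)
      obtain ⟨e, he⟩ := exists_ordered hf0
      have hev : ∀ g : MvPolynomial (Fin n) k,
          eval (fun i => b (e.symm i)) (rename e g) = eval b g := by
        intro g
        rw [eval_rename]
        congr 1
        congr 1
        funext l
        simp
      refine realizable_gcover hn (rename e f) he (fun i => ?_) (fun i => b (e.symm i)) c ?_ ?_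
        (fun i hi => ?_) K ?_
      · obtain ⟨l, rfl⟩ := e.surjective i
        rw [degreeOf_rename_of_injective e.injective]
        exact hdeg l
      · rw [hc, hev]
      · rw [hev]
        exact hfb
      · obtain ⟨l, rfl⟩ := e.surjective i
        rw [disc_rename] at hi ⊢
        rw [hev]
        apply hb
        intro h0
        exact hi (by rw [h0, map_zero])
      · obtain ⟨t, w₀, ht, hw₀, htop⟩ := hK
        refine ⟨fun i => t (e.symm i), w₀, ht.comp _ e.symm.injective, ?_, ?_⟩
        · rw [hw₀, aeval_rename]
          congr 1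
          congr 1
          funext l
          simp
        · have h1 : Set.range (fun i => t (e.symm i)) = Set.range t := by
            ext x
            constructor
            · rintro ⟨i, rfl⟩
              exact ⟨_, rfl⟩
            · rintro ⟨i, rfl⟩
              exact ⟨e i, by simp⟩
          rw [h1]
          exact htop

end Pool.Agent.TH178.HI
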