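import Pool.Agent.TH178.HI.Smooth

/-! The chain of conics for a polynomial some of whose discriminants vanish identically. -/

set_option autoImplicit false

namespace Pool.Agent.TH178.HI

open MvPolynomial

variable {k E : Type} [Field k] [Field E] [Algebra k E] {n : ℕ}

/-- A degenerate conic step does not extend the field of rational functions. -/
theorem mem_of_disc_zero [CharZero E] {L : IntermediateField k E} {b v₀ A B C₀ s v : E}
    (hb : b ∈ L) (hv₀ : v₀ ∈ L) (hA : A ∈ L) (hB : B ∈ L) (hd : B ^ 2 - 4 * A * C₀ = 0)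
    (h0 : v₀ ^ 2 = A * b ^ 2 + B * b + C₀) (hv₀0 : v₀ ≠ 0)
    (hv : v ^ 2 = A * s ^ 2 + B * s + C₀) :
    v ∈ IntermediateField.adjoin k ((L : Set E) ∪ {s}) := by
  have hLN : ∀ x ∈ L, x ∈ IntermediateField.adjoin k ((L : Set E) ∪ {s}) := fun x hx =>
    IntermediateField.subset_adjoin _ _ (Or.inl hx)
  have hsN : s ∈ IntermediateField.adjoin k ((L : Set E) ∪ {s}) :=
    IntermediateField.subset_adjoin _ _ (Or.inr rfl)
  have two_mem : (2 : E) ∈ IntermediateField.adjoin k ((L : Set E) ∪ {s}) := by
    exact_mod_cast (IntermediateField.adjoin k ((L : Set E) ∪ {s})).natCast_mem 2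
  by_cases hA0 : A = 0
  · subst hA0
    have hB0 : B = 0 := by
      have : B ^ 2 = 0 := by linear_combination hd
      exact pow_eq_zero_iff two_ne_zero |>.mp this
    subst hB0
    have h1 : v ^ 2 = v₀ ^ 2 := by rw [hv, h0]; ring
    rcases sq_eq_sq_iff_eq_or_eq_neg.mp h1 with h2 | h2
    · rw [h2]; exact hLN _ hv₀
    · rw [h2]; exact neg_mem (hLN _ hv₀)
  · have h1 : (2 * A * b + B) ^ 2 = 4 * A * v₀ ^ 2 := by linear_combination hd - 4 * A * h0
    have h2 : (2 * A * s + B) ^ 2 = 4 * A * v ^ 2 := by linear_combination hd - 4 * A * hv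
    have h3 : 2 * A * b + B ≠ 0 := by
      intro h4
      rw [h4] at h1
      have h5 : 4 * A * v₀ ^ 2 = 0 := by rw [← h1]; ring
      have h6 : (4 : E) ≠ 0 := by norm_num
      exact (mul_ne_zero (mul_ne_zero h6 hA0) (pow_ne_zero 2 hv₀0)) h5
    have h4 : (v * (2 * A * b + B)) ^ 2 = (v₀ * (2 * A * s + B)) ^ 2 := by
      rw [mul_pow, mul_pow, h1, h2]; ring
    have hmem : v₀ * (2 * A * s + B) / (2 * A * b + B) ∈
        IntermediateField.adjoin k ((L : Set E) ∪ {s}) :=
      IntermediateField.div_mem _ (mul_mem (hLN _ hv₀)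
        (add_mem (mul_mem (mul_mem two_mem (hLN _ hA)) hsN) (hLN _ hB)))
        (add_mem (mul_mem (mul_mem two_mem (hLN _ hA)) (hLN _ hb)) (hLN _ hB))
    rcases sq_eq_sq_iff_eq_or_eq_neg.mp h4 with h5 | h5
    · have h6 : v = v₀ * (2 * A * s + B) / (2 * A * b + B) := by
        rw [eq_div_iff h3, h5]
      rw [h6]
      exact hmem
    · have h6 : v = -(v₀ * (2 * A * s + B) / (2 * A * b + B)) := by
        rw [← neg_div, eq_div_iff h3, h5]
      rw [h6]
      exact neg_mem hmem

/-- The data of the chain of conics. -/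
structure UChain (f : MvPolynomial (Fin n) k) (b : Fin n → k) (S : Fin n → E) (v : ℕ → E) :
    Prop where
  deg : ∀ i, degreeOf i f ≤ 2
  disc : ∀ i, disc f i ≠ 0 → eval b (HI.disc f i) ≠ 0
  ind : AlgebraicIndependent k S
  vs : ∀ m, v m ^ 2 = aeval (mix S (fun i => algebraMap k E (b i)) m) f
  v0 : v 0 ∈ (⊥ : IntermediateField k E)
  fb : eval b f ≠ 0

theorem aeval_mix_ne_zero {b : Fin n → k} {S : Fin n → E} (hS : AlgebraicIndependent k S) (m : ℕ)
    {g : MvPolynomial (Fin n) k} (hg : eval b g ≠ 0) :
    aeval (mix S (fun i => algebraMap k E (b i)) m) g ≠ 0 := by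
  have h1 : mix S S m = S := by
    funext i
    rw [mix]
    split_ifs <;> rfl
  rw [← aeval_spec b S S m, h1]
  refine aeval_ne_zero_of_indep hS fun h0 => hg ?_
  rw [← eval_spec b m, h0, map_zero]

theorem UChain.main [CharZero k] {f : MvPolynomial (Fin n) k} {b : Fin n → k} {S : Fin n → E}
    {v : ℕ → E} (h : UChain f b S v) (m : ℕ) (hm : m ≤ n) :
    ∃ L : IntermediateField k E, Pure L ∧
      L ≤ AC k (S '' {i | (i : ℕ) < m}) ∧ (∀ i : Fin n, (i : ℕ) < m → S i ∈ L) ∧ v m ∈ L := by
  have hE : CharZero E := charZero_of_injective_algebraMap (algebraMap k E).injective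
  induction m with
  | zero => exact ⟨⊥, Pure.bot, bot_le, fun i hi => absurd hi (Nat.not_lt_zero _), h.v0⟩
  | succ m ih =>
    obtain ⟨L, h1, h3, h4, h5⟩ := ih (Nat.le_of_succ_le hm)
    let i : Fin n := ⟨m, hm⟩
    let p : Fin n → E := mix S (fun i => algebraMap k E (b i)) m
    have hp : ∀ j, p j ∈ L := mix_mem h4 fun j _ => L.algebraMap_mem _
    have e1 : v m ^ 2 = aeval p (coA f i) * (algebraMap k E (b i)) ^ 2 +
        aeval p (coB f i) * (algebraMap k E (b i)) + aeval p (coC f i) := by
      rw [← coef_update f i (h.deg i), h.vs]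
      exact congrArg (fun q => aeval q f) (mix_self S (fun i => algebraMap k E (b i)) i)
    have e2 : v (m + 1) ^ 2 = aeval p (coA f i) * (S i) ^ 2 +
        aeval p (coB f i) * (S i) + aeval p (coC f i) := by
      rw [← coef_update f i (h.deg i), h.vs]
      exact congrArg (fun q => aeval q f) (mix_succ S (fun i => algebraMap k E (b i)) i)
    have hmono : AC k (S '' {i | (i : ℕ) < m}) ≤ AC k (S '' {i | (i : ℕ) < m + 1}) :=
      AC_mono (Set.image_mono fun j hj => Nat.lt_succ_of_lt hj)
    have hSi : S i ∈ AC k (S '' {i | (i : ℕ) < m + 1}) :=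
      subset_AC _ ⟨i, Nat.lt_succ_self m, rfl⟩
    have htr : Transcendental L (S i) := by
      refine transcendental_of_le h.ind (i := i) ?_ h3
      exact fun hj => lt_irrefl m hj
    have hpure : Pure (IntermediateField.adjoin k ((L : Set E) ∪ {S i, v (m + 1)})) := by
      by_cases hdi : HI.disc f i = 0
      · have hd : (aeval p (coB f i)) ^ 2 - 4 * aeval p (coA f i) * aeval p (coC f i) = 0 := by
          have h6 := congrArg (aeval p) (coef_disc f i)
          rw [hdi, map_zero] at h6
          simpa only [map_sub, map_mul, map_pow, map_ofNat] using h6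
        have hvm : v m ≠ 0 := by
          intro h0
          have h6 := h.vs m
          rw [h0] at h6
          exact aeval_mix_ne_zero h.ind m h.fb (by rw [← h6]; ring)
        have h7 := mem_of_disc_zero (L.algebraMap_mem (b i)) h5 (aeval_mem' hp _)
          (aeval_mem' hp _) hd e1 hvm e2
        have h8 : IntermediateField.adjoin k ((L : Set E) ∪ {S i, v (m + 1)}) =
            IntermediateField.adjoin k ((L : Set E) ∪ {S i}) := by
          apply le_antisymm
          · rw [IntermediateField.adjoin_le_iff]
            rintro x (hx | hx | hx)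
            · exact IntermediateField.subset_adjoin _ _ (Or.inl hx)
            · rw [hx]
              exact IntermediateField.subset_adjoin _ _ (Or.inr rfl)
            · rw [Set.mem_singleton_iff] at hx
              rw [hx]
              exact h7
          · apply IntermediateField.adjoin.mono
            rintro x (hx | hx)
            · exact Or.inl hx
            · exact Or.inr (Or.inl hx)
        rw [h8]
        exact h1.step htr
      · refine h1.conic (L.algebraMap_mem (b i)) h5 (aeval_mem' hp _) (aeval_mem' hp _) ?_ e1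
          htr e2
        have := aeval_mix_ne_zero h.ind m (h.disc i hdi)
        rw [← coef_disc] at this
        simpa only [map_sub, map_mul, map_pow, map_ofNat] using this
    refine ⟨IntermediateField.adjoin k ((L : Set E) ∪ {S i, v (m + 1)}), hpure, ?_, ?_, ?_⟩
    · rw [IntermediateField.adjoin_le_iff]
      rintro x (hx | hx | hx)
      · exact hmono (h3 hx)
      · rw [hx]; exact hSi
      · rw [Set.mem_singleton_iff] at hx
        rw [hx]
        refine AC_sq ?_
        rw [h.vs]
        refine aeval_mem' (mix_mem (fun j hj => ?_) fun j _ => IntermediateField.algebraMap_mem _ _) _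
        exact subset_AC _ ⟨j, hj, rfl⟩
    · intro j hj
      rcases Nat.lt_succ_iff_lt_or_eq.mp hj with h6 | h6
      · exact IntermediateField.subset_adjoin _ _ (Or.inl (h4 j h6))
      · have : j = i := Fin.ext h6
        rw [this]
        exact IntermediateField.subset_adjoin _ _ (Or.inr (Or.inl rfl))
    · exact IntermediateField.subset_adjoin _ _ (Or.inr (Or.inr rfl))

/-- Embedding of a field contained in a field of rational functions. -/
theorem Pure.embed {K : Type} [Field K] [Algebra k K] {Ω K₀ : IntermediateField k E}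
    (hΩ : Pure Ω) (hK : K₀ ≤ Ω) (e : K ≃ₐ[k] K₀) : ∃ (ι : Type) (_ : Finite ι),
      Nonempty (K →ₐ[k] FractionRing (MvPolynomial ι k)) := by
  obtain ⟨ι, hι, x, hx, hxΩ⟩ := hΩ
  have hmem : ∀ i, x i ∈ Ω := fun i => by
    rw [← hxΩ]
    exact IntermediateField.subset_adjoin _ _ ⟨i, rfl⟩
  let y : ι → Ω := fun i => ⟨x i, hmem i⟩
  have hy : AlgebraicIndependent k y := by
    have h1 : AlgebraicIndependent k (Ω.val ∘ y) := hx
    exact h1.of_comp Ω.val
  have hytop : IntermediateField.adjoin k (Set.range y) = ⊤ := by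
    apply IntermediateField.lift_injective Ω
    rw [IntermediateField.lift_adjoin, IntermediateField.lift_top, ← Set.range_comp]
    exact hxΩ
  obtain ⟨Ψ, -⟩ := Pool.Agent.W240.HP.lift k Ω (FractionRing (MvPolynomial ι k)) ι y
    (fun i => algebraMap (MvPolynomial ι k) _ (MvPolynomial.X i)) hy
    ((MvPolynomial.algebraicIndependent_X ι k).map'
      (f := IsScalarTower.toAlgHom k (MvPolynomial ι k) (FractionRing (MvPolynomial ι k)))
      (IsFractionRing.injective (MvPolynomial ι k) (FractionRing (MvPolynomial ι k)))) hytop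
  exact ⟨ι, hι, ⟨(Ψ.comp (IntermediateField.inclusion hK)).comp e.toAlgHom⟩⟩

theorem contained_of_smooth [CharZero k] [IsAlgClosed E] (f : MvPolynomial (Fin n) k)
    (hdeg : ∀ i, degreeOf i f ≤ 2) (h : HasSmoothPoint f) (T : Fin n → E) (w : E)
    (hT : AlgebraicIndependent k T) (hwT : w ^ 2 = aeval T f) :
    ∃ Ω : IntermediateField k E, Pure Ω ∧
      IntermediateField.adjoin k (insert w (Set.range T)) ≤ Ω := by
  by_cases hsq : IsSquare f
  · obtain ⟨g, rfl⟩ := hsq
    refine ⟨IntermediateField.adjoin k (Set.range T), ⟨Fin n, inferInstance, T, hT, rfl⟩, ?_⟩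
    have hTm : ∀ i, T i ∈ IntermediateField.adjoin k (Set.range T) := fun i =>
      IntermediateField.subset_adjoin _ _ ⟨i, rfl⟩
    rw [IntermediateField.adjoin_le_iff]
    rintro x (hx | ⟨i, rfl⟩)
    · rw [hx]
      have h1 : w ^ 2 = (aeval T g) ^ 2 := by
        rw [hwT, map_mul, pow_two]
      rcases sq_eq_sq_iff_eq_or_eq_neg.mp h1 with h2 | h2
      · rw [h2]; exact aeval_mem' hTm g
      · rw [h2]; exact neg_mem (aeval_mem' hTm g)
    · exact hTm i
  · obtain ⟨b, c, hc, hfb, hd⟩ := good_of_smooth hsq hdeg h
    have hroot : ∀ x : E, ∃ z : E, z ^ 2 = x := fun x => IsAlgClosed.exists_pow_nat_eq x two_pos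
    choose sq hsq using hroot
    let v : ℕ → E := fun m => if m = n then w else if m = 0 then algebraMap k E c
      else sq (aeval (mix T (fun i => algebraMap k E (b i)) m) f)
    have hcE : (algebraMap k E c) ^ 2 = aeval (fun i => algebraMap k E (b i)) f := by
      rw [← map_pow, hc]
      exact (MvPolynomial.aeval_algebraMap_apply E b f).symm
    have hvn : v n = w := if_pos rfl
    have hv0 : v 0 ∈ (⊥ : IntermediateField k E) := by
      by_cases h1 : 0 = n
      · have h4 : v 0 = w := if_pos h1
        rw [h4]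
        have h2 : w ^ 2 = (algebraMap k E c) ^ 2 := by
          rw [hwT, hcE]
          subst h1
          have h3 : T = fun i => algebraMap k E (b i) := funext fun i => i.elim0
          rw [h3]
        rcases sq_eq_sq_iff_eq_or_eq_neg.mp h2 with h3 | h3
        · rw [h3]; exact IntermediateField.algebraMap_mem _ _
        · rw [h3]; exact neg_mem (IntermediateField.algebraMap_mem _ _)
      · have h4 : v 0 = algebraMap k E c := by
          show (if 0 = n then _ else _) = _
          rw [if_neg h1, if_pos rfl]
        rw [h4]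
        exact IntermediateField.algebraMap_mem _ _
    have hvs : ∀ m, v m ^ 2 = aeval (mix T (fun i => algebraMap k E (b i)) m) f := by
      intro m
      by_cases h1 : m = n
      · have h2 : v m = w := if_pos h1
        rw [h2, h1, mix_n]
        exact hwT
      · by_cases h3 : m = 0
        · have h2 : v m = algebraMap k E c := by
            show (if m = n then _ else _) = _
            rw [if_neg h1, if_pos h3]
          rw [h2, h3, mix_zero]
          exact hcE
        · have h2 : v m = sq (aeval (mix T (fun i => algebraMap k E (b i)) m) f) := by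
            show (if m = n then _ else _) = _
            rw [if_neg h1, if_neg h3]
          rw [h2]
          exact hsq _
    have hch : UChain f b T v := ⟨hdeg, hd, hT, hvs, hv0, hfb⟩
    obtain ⟨L, l1, -, l3, l4⟩ := hch.main n le_rfl
    refine ⟨L, l1, ?_⟩
    rw [IntermediateField.adjoin_le_iff]
    rintro x (hx | ⟨i, rfl⟩)
    · rw [hx, ← hvn]
      exact l4
    · exact l3 i i.2

/-- **Unirationality of the double covers with a smooth rational point.** -/
theorem unirational_of_smooth [CharZero k] (f : MvPolynomial (Fin n) k)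
    (hdeg : ∀ i, degreeOf i f ≤ 2) (h : HasSmoothPoint f) (K : Type) [Field K] [Algebra k K]
    (hK : IsCoverField k f K) : ∃ (ι : Type) (_ : Finite ι),
      Nonempty (K →ₐ[k] FractionRing (MvPolynomial ι k)) := by
  obtain ⟨t, w₀, ht, hw₀, htop⟩ := hK
  let φ : K →ₐ[k] AlgebraicClosure K := IsScalarTower.toAlgHom k K (AlgebraicClosure K)
  have hT : AlgebraicIndependent k (fun i => φ (t i)) := ht.map' φ.injective
  have hwT : (φ w₀) ^ 2 = aeval (fun i => φ (t i)) f := by
    rw [← map_pow, hw₀]
    exact DFunLike.congr_fun (MvPolynomial.comp_aeval (f := t) φ) f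
  have hrange : φ.fieldRange =
      IntermediateField.adjoin k (insert (φ w₀) (Set.range fun i => φ (t i))) := by
    rw [AlgHom.fieldRange_eq_map, ← htop, IntermediateField.adjoin_map, Set.image_insert_eq,
      ← Set.range_comp]
    rfl
  obtain ⟨Ω, h1, h2⟩ := contained_of_smooth f hdeg h _ _ hT hwT
  rw [← hrange] at h2
  exact h1.embed h2 (AlgEquiv.ofInjectiveField φ)

end Pool.Agent.TH178.HI
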