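import Pool.Agent.TH178.HI.Order
import Pool.Agent.TH178.HI.Uni

/-! Polynomials all of whose discriminants vanish, and conic steps without hypothesis on the
discriminant. -/

set_option autoImplicit false

namespace Pool.Agent.TH178.HI

open MvPolynomial

variable {k : Type} [Field k] {n : ℕ}

theorem disc_mul_vars {A B : MvPolynomial (Fin n) k} {i : Fin n} (hB : i ∉ B.vars) :
    disc (A * B) i = B ^ 2 * disc A i := by
  have hm : pderiv i B = 0 := pderiv_eq_zero_of_notMem_vars hB
  rw [disc, disc, Derivation.leibniz, smul_eq_mul, smul_eq_mul, hm, mul_zero, zero_add,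
    Derivation.leibniz, smul_eq_mul, smul_eq_mul, hm, mul_zero, add_zero]
  ring

theorem disc_of_not_mem {B : MvPolynomial (Fin n) k} {i : Fin n} (hB : i ∉ B.vars) :
    disc B i = 0 := by
  have hm : pderiv i B = 0 := pderiv_eq_zero_of_notMem_vars hB
  rw [disc, hm, map_zero]
  ring

theorem degreeOf_pderiv_lt {P : MvPolynomial (Fin n) k} {l : Fin n} (hl : l ∈ P.vars) :
    degreeOf l (pderiv l P) < degreeOf l P := by
  have h0 : degreeOf l P ≠ 0 := mem_vars_iff_degreeOf_ne_zero.mp hl
  have h1 : degreeOf l (pderiv l P) ≤ degreeOf l P - 1 := by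
    rw [degreeOf_le_iff]
    intro m hm
    have h2 : coeff (m + Finsupp.single l 1) P ≠ 0 := by
      intro h3
      rw [mem_support_iff, coeff_pderiv, h3, zero_mul] at hm
      exact hm rfl
    have h3 := (degreeOf_le_iff.mp (le_refl (degreeOf l P))) _ (mem_support_iff.mpr h2)
    simp at h3
    omega
  omega

theorem const_mul_sq [CharZero k] (B : MvPolynomial (Fin n) k) (hB0 : B ≠ 0)
    (hdeg : ∀ i, degreeOf i B ≤ 2) (hd : ∀ i, disc B i = 0) :
    ∃ (β : k) (g : MvPolynomial (Fin n) k), B = C β * g ^ 2 := by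
  classical
  obtain ⟨d, hdd⟩ : ∃ d, ∑ i, degreeOf i B = d := ⟨_, rfl⟩
  induction d using Nat.strong_induction_on generalizing B with
  | _ d ih =>
    by_cases hu : IsUnit B
    · obtain ⟨c, -, hc⟩ := MvPolynomial.isUnit_iff_eq_C_of_isReduced.mp hu
      exact ⟨c, 1, by rw [hc]; ring⟩
    obtain ⟨P, hP, R, hR⟩ := WfDvdMonoid.exists_irreducible_factor hu hB0
    have hPp := irreducible_iff_prime.mp hP
    obtain ⟨l, hl⟩ : ∃ l, l ∈ P.vars := by
      by_contra hno
      push Not at hno
      have h1 : P.vars = ∅ := Finset.eq_empty_of_forall_notMem hno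
      have h2 : ∃ c, P = C c := by
        refine ⟨P.coeff 0, ?_⟩
        ext m
        rw [coeff_C]
        split_ifs with hm
        · rw [hm]
        · by_contra h4
          obtain ⟨i, hi⟩ : ∃ i, m i ≠ 0 := by
            by_contra h5
            push Not at h5
            exact hm (Finsupp.ext fun i => (h5 i).symm)
          exact hno i ((mem_vars_iff_mem_support i).mpr
            ⟨m, mem_support_iff.mpr h4, Finsupp.mem_support_iff.mpr hi⟩)
      obtain ⟨c, hc⟩ := h2
      apply hP.not_isUnit
      rw [hc]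
      refine (isUnit_iff_ne_zero.mpr ?_).map C
      rintro rfl
      exact hP.ne_zero (by rw [hc, C_0])
    have hPd : P ∣ R := by
      have h1 : P ∣ pderiv l B := by
        have h2 : P ∣ (pderiv l B) ^ 2 := by
          have h3 := hd l
          rw [disc, sub_eq_zero] at h3
          rw [h3, hR]
          exact ⟨2 * R * pderiv l (pderiv l (P * R)), by ring⟩
        exact hPp.dvd_of_dvd_pow h2
      rw [hR, Derivation.leibniz, smul_eq_mul, smul_eq_mul] at h1
      have h2 : P ∣ R * pderiv l P := (dvd_add_right (dvd_mul_right P _)).mp h1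
      rcases hPp.dvd_or_dvd h2 with h3 | ⟨h, hh⟩
      · exact h3
      · exfalso
        have hne : pderiv l P ≠ 0 := fun h0 => not_mem_vars_of_pderiv h0 hl
        have hh0 : h ≠ 0 := by
          rintro rfl
          exact hne (by rw [hh, mul_zero])
        have h4 := degreeOf_pderiv_lt hl
        rw [hh, degreeOf_mul_eq hP.ne_zero hh0] at h4
        omega
    obtain ⟨B', hB'⟩ := hPd
    have hB2 : B = B' * P ^ 2 := by rw [hR, hB']; ring
    have hB'0 : B' ≠ 0 := by
      rintro rfl
      exact hB0 (by rw [hB2, zero_mul])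
    have hPP0 : P ^ 2 ≠ 0 := pow_ne_zero 2 hP.ne_zero
    have hdg : ∀ i, degreeOf i B = degreeOf i B' + (degreeOf i P + degreeOf i P) := by
      intro i
      rw [hB2, degreeOf_mul_eq hB'0 hPP0, pow_two, degreeOf_mul_eq hP.ne_zero hP.ne_zero]
    have hl1 : degreeOf l P ≠ 0 := mem_vars_iff_degreeOf_ne_zero.mp hl
    obtain ⟨β, g, hg⟩ := ih (∑ i, degreeOf i B') (by
        rw [← hdd]
        refine Finset.sum_lt_sum (fun i _ => by rw [hdg i]; omega) ⟨l, Finset.mem_univ l, ?_⟩
        rw [hdg l]
        omega) B' hB'0 (fun i => by have := hdeg i; rw [hdg i] at this; omega) (fun i => by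
        by_cases hi : i ∈ P.vars
        · have h1 := hdeg i
          have h2 : degreeOf i P ≠ 0 := mem_vars_iff_degreeOf_ne_zero.mp hi
          rw [hdg i] at h1
          apply disc_of_not_mem
          intro h3
          have h4 := mem_vars_iff_degreeOf_ne_zero.mp h3
          omega
        · have h1 := hd i
          rw [hB2, disc_mul_vars (fun h => hi (vars_pow _ _ h))] at h1
          exact (mul_eq_zero.mp h1).resolve_left (pow_ne_zero 2 hPP0)) rfl
    exact ⟨β, P * g, by rw [hB2, hg]; ring⟩

/-- A conic step, possibly degenerate. -/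
theorem Pure.gstep {E : Type} [Field E] [Algebra k E] [CharZero E] {L : IntermediateField k E}
    (h : Pure L) {b v₀ A B C₀ s v : E}
    (hb : b ∈ L) (hv₀ : v₀ ∈ L) (hA : A ∈ L) (hB : B ∈ L)
    (h0 : v₀ ^ 2 = A * b ^ 2 + B * b + C₀) (hv₀0 : v₀ ≠ 0) (hs : Transcendental L s)
    (hv : v ^ 2 = A * s ^ 2 + B * s + C₀) :
    Pure (IntermediateField.adjoin k ((L : Set E) ∪ {s, v})) := by
  by_cases hd : B ^ 2 - 4 * A * C₀ = 0
  · have h7 := mem_of_disc_zero hb hv₀ hA hB hd h0 hv₀0 hv
    have h8 : IntermediateField.adjoin k ((L : Set E) ∪ {s, v}) =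
        IntermediateField.adjoin k ((L : Set E) ∪ {s}) := by
      apply le_antisymm
      · rw [IntermediateField.adjoin_le_iff]
        rintro x (hx | hx | hx)
        · exact IntermediateField.subset_adjoin _ _ (Or.inl hx)
        · rw [hx]
          exact IntermediateField.subset_adjoin _ _ (Or.inr rfl)
        · rw [Set.mem_singleton_iff] at hx
          rw [hx]
          exact h7
      · apply IntermediateField.adjoin.mono
        rintro x (hx | hx)
        · exact Or.inl hx
        · exact Or.inr (Or.inl hx)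
    rw [h8]
    exact h.step hs
  · exact h.conic hb hv₀ hA hB hd h0 hs hv

end Pool.Agent.TH178.HI
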