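import Pool.Agent.TH178.HI.Uni

/-! Double covers of products of projective spaces: the passage to the cone. -/

set_option autoImplicit false

namespace Pool.Agent.TH178.HI

open MvPolynomial MZ

open scoped IntermediateField.algebraAdjoinAdjoin

variable {k : Type} [Field k]

/-- A family of `N` elements over which `C` is algebraic is algebraically independent if `C`
contains `N` algebraically independent elements. -/
theorem indep_of_count {C : Type} [Field C] [Algebra k C] {ι κ : Type} [Finite ι]
    (x : ι → C) (z : κ → C) (hz : AlgebraicIndependent k z) (e : ι ≃ κ)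
    (hx : AC k (Set.range x) = ⊤) : AlgebraicIndependent k x := by
  have h1 : Algebra.IsAlgebraic (IntermediateField.adjoin k (Set.range x)) C := by
    constructor
    intro c
    have : c ∈ AC k (Set.range x) := by rw [hx]; trivial
    exact mem_AC.mp this
  have h2 : Algebra.IsAlgebraic (Algebra.adjoin k (Set.range x)) C :=
    (IsFractionRing.comap_isAlgebraic_iff (A := Algebra.adjoin k (Set.range x))
      (K := IntermediateField.adjoin k (Set.range x)) (C := C)).mpr h1
  refine (Algebra.IsAlgebraic.isTranscendenceBasis_of_le_trdeg_of_finite k x ?_).1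
  rw [Cardinal.mk_congr e]
  exact hz.cardinalMk_le_trdeg

theorem IsMultiQuadratic.aeval_scale {r : ℕ} {a : Fin r → ℕ} {F : MvPolynomial (Idx a) k}
    (hF : IsMultiQuadratic F) {C : Type} [Field C] [Algebra k C] (t : Fin r → C)
    (y : Idx a → C) : aeval (fun l => t l.1 * y l) F = (∏ i, t i) ^ 2 * aeval y F := by
  have h1 : IsMultiQuadratic (map (algebraMap k C) F) := by
    intro d hd
    refine hF d (mem_support_iff.mpr fun h0 => ?_)
    rw [mem_support_iff, coeff_map, h0, map_zero] at hd
    exact hd rfl
  have h2 := h1.eval_scale t y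
  rw [eval_map, eval_map] at h2
  exact h2

/-- `K` is the function field of the double cover `w² = F` of the product of the projective spaces
of dimensions `a i`: it is generated over `k` by the quotients `u_(i,j) = x_(i,j) / x_(i,0)`, which
for `j > 0` are algebraically independent, and by `w` with `w² = F(u)`. -/
def IsMultiCoverField (k : Type) [Field k] {r : ℕ} {a : Fin r → ℕ} (F : MvPolynomial (Idx a) k)
    (K : Type) [Field K] [Algebra k K] : Prop :=
  ∃ (u : Idx a → K) (w : K), (∀ i, u ⟨i, 0⟩ = 1) ∧
    AlgebraicIndependent k (fun l : (i : Fin r) × Fin (a i) => u ⟨l.1, l.2.succ⟩) ∧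
    w ^ 2 = aeval u F ∧ IntermediateField.adjoin k (insert w (Set.range u)) = ⊤

/-- The double cover `w² = F` of the product of the projective spaces of dimensions `a i` has a
smooth `k`-point. -/
def HasSmoothMultiPoint {r : ℕ} {a : Fin r → ℕ} (F : MvPolynomial (Idx a) k) : Prop :=
  ∃ (y : Idx a → k) (c : k), (∀ i, ∃ j, y ⟨i, j⟩ ≠ 0) ∧ c ^ 2 = eval y F ∧
    (c ≠ 0 ∨ ∃ l, eval y (pderiv l F) ≠ 0)

theorem multi_main [CharZero k] {r : ℕ} {a : Fin r → ℕ} (F : MvPolynomial (Idx a) k)
    (hF : IsMultiQuadratic F) (h : HasSmoothMultiPoint F) (K : Type) [Field K] [Algebra k K]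
    (hK : IsMultiCoverField k F K) : ∃ (ι : Type) (_ : Finite ι),
      Nonempty (K →ₐ[k] FractionRing (MvPolynomial ι k)) := by
  classical
  obtain ⟨u, w, hu0, hu, hw, htop⟩ := hK
  obtain ⟨y, c, -, hc, hyc⟩ := h
  let P := FractionRing (MvPolynomial (Fin r) K)
  let C := AlgebraicClosure P
  let φ : K →ₐ[k] C := IsScalarTower.toAlgHom k K C
  let lam : Fin r → C := fun i => algebraMap P C (algebraMap (MvPolynomial (Fin r) K) P (X i))
  have hlam : AlgebraicIndependent K lam := by
    have h1 := (MvPolynomial.algebraicIndependent_X (Fin r) K).map'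
      (f := IsScalarTower.toAlgHom K (MvPolynomial (Fin r) K) P)
      (IsFractionRing.injective (MvPolynomial (Fin r) K) P)
    exact h1.map' (f := IsScalarTower.toAlgHom K P C) (algebraMap P C).injective
  have hlam0 : ∀ i, lam i ≠ 0 := fun i => hlam.ne_zero i
  let x : Idx a → C := fun l => lam l.1 * φ (u l)
  have hx0 : ∀ i, x ⟨i, 0⟩ = lam i := fun i => by
    show lam i * φ (u ⟨i, 0⟩) = _
    rw [hu0, map_one, mul_one]
  -- the independence of the homogeneous coordinates
  have hz : AlgebraicIndependent k (Sum.elim lam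
      (fun l : (i : Fin r) × Fin (a i) => algebraMap K C (u ⟨l.1, l.2.succ⟩))) :=
    AlgebraicIndependent.sumElim_comp hu hlam
  have e : Idx a ≃ Fin r ⊕ ((i : Fin r) × Fin (a i)) := by
    refine Fintype.equivOfCardEq ?_
    rw [Fintype.card_sum, Fintype.card_sigma, Fintype.card_sigma]
    simp [Finset.sum_add_distrib, add_comm]
  have hxE : ∀ {U : IntermediateField k C}, (∀ l, x l ∈ U) → ∀ l, φ (u l) ∈ U := by
    intro U hU l
    have h1 : φ (u l) = x l / x ⟨l.1, 0⟩ := by
      rw [hx0]
      exact (mul_div_cancel_left₀ _ (hlam0 l.1)).symm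
    rw [h1]
    exact U.div_mem (hU l) (hU _)
  have hwC : (φ w) ^ 2 = aeval (fun l => φ (u l)) F := by
    rw [← map_pow, hw]
    exact DFunLike.congr_fun (MvPolynomial.comp_aeval (f := u) φ) F
  have hrange : φ.fieldRange =
      IntermediateField.adjoin k (insert (φ w) (Set.range fun l => φ (u l))) := by
    rw [AlgHom.fieldRange_eq_map, ← htop, IntermediateField.adjoin_map, Set.image_insert_eq,
      ← Set.range_comp]
    rfl
  have hACx : AC k (Set.range x) = ⊤ := by
    have h1 : ∀ l, x l ∈ AC k (Set.range x) := fun l => subset_AC _ ⟨l, rfl⟩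
    have h2 := hxE h1
    have h3 : φ w ∈ AC k (Set.range x) := AC_sq (by rw [hwC]; exact aeval_mem' h2 F)
    have h4 : φ.fieldRange ≤ AC k (Set.range x) := by
      rw [hrange, IntermediateField.adjoin_le_iff]
      rintro z (hz | ⟨l, rfl⟩)
      · rw [hz]; exact h3
      · exact h2 l
    rw [eq_top_iff]
    rintro c -
    apply AC_closed
    have h5 : ∀ g : MvPolynomial (Fin r) K,
        algebraMap P C (algebraMap (MvPolynomial (Fin r) K) P g) ∈ AC k (Set.range x) := by
      intro g
      induction g using MvPolynomial.induction_on with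
      | C b => exact h4 ⟨b, rfl⟩
      | add p q hp hq => rw [map_add, map_add]; exact add_mem hp hq
      | mul_X p i hp =>
        rw [map_mul, map_mul]
        refine mul_mem hp ?_
        have := h1 ⟨i, 0⟩
        rw [hx0] at this
        exact this
    have h6 : ∀ q : P, algebraMap P C q ∈ AC k (Set.range x) := by
      intro q
      obtain ⟨g, d, -, rfl⟩ := IsFractionRing.div_surjective (A := MvPolynomial (Fin r) K) q
      rw [map_div₀]
      exact IntermediateField.div_mem _ (h5 g) (h5 d)
    obtain ⟨q, hq, h7⟩ := Algebra.IsAlgebraic.isAlgebraic (R := P) c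
    let ρ : P →+* AC k (Set.range x) := (algebraMap P C).codRestrict _ h6
    refine ⟨q.map ρ, ?_, ?_⟩
    · rwa [Ne, Polynomial.map_eq_zero]
    · rw [Polynomial.aeval_def, Polynomial.eval₂_map]
      exact h7
  have hx : AlgebraicIndependent k x := indep_of_count x _ hz e hACx
  -- the cone
  let N := Fintype.card (Idx a)
  let ε : Idx a ≃ Fin N := Fintype.equivFin _
  let f : MvPolynomial (Fin N) k := rename ε F
  have hdeg : ∀ i, degreeOf i f ≤ 2 := by
    intro i
    obtain ⟨l, rfl⟩ := ε.surjective i
    rw [degreeOf_rename_of_injective ε.injective]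
    exact hF.degreeOf_le l
  have hev : ∀ g : MvPolynomial (Idx a) k,
      eval (fun i => y (ε.symm i)) (rename ε g) = eval y g := by
    intro g
    rw [eval_rename]
    congr 1
    congr 1
    funext l
    simp
  have hsm : HasSmoothPoint f := by
    refine ⟨fun i => y (ε.symm i), c, ?_, ?_⟩
    · rw [hc]; exact (hev F).symm
    · rcases hyc with h1 | ⟨l, h1⟩
      · exact Or.inl h1
      · refine Or.inr ⟨ε l, ?_⟩
        rw [pderiv_rename ε.injective, hev]
        exact h1
  let T : Fin N → C := fun i => x (ε.symm i)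
  have hT : AlgebraicIndependent k T := hx.comp _ ε.symm.injective
  have hWT : ((∏ i, lam i) * φ w) ^ 2 = aeval T f := by
    rw [mul_pow, hwC, aeval_rename]
    have h1 : T ∘ ε = fun l : Idx a => lam l.1 * φ (u l) := by
      funext l
      show x (ε.symm (ε l)) = _
      rw [Equiv.symm_apply_apply]
    rw [h1]
    exact (IsMultiQuadratic.aeval_scale hF lam (fun l => φ (u l))).symm
  obtain ⟨Ω, h1, h2⟩ := contained_of_smooth f hdeg hsm T _ hT hWT
  rw [IntermediateField.adjoin_le_iff] at h2
  have h3 : ∀ l, x l ∈ Ω := by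
    intro l
    have h4 := h2 (Or.inr ⟨ε l, rfl⟩)
    have h5 : T (ε l) = x l := by
      show x (ε.symm (ε l)) = _
      rw [Equiv.symm_apply_apply]
    rw [h5] at h4
    exact h4
  have h4 := hxE h3
  have h5 : φ w ∈ Ω := by
    have h6 : φ w = ((∏ i, lam i) * φ w) / ∏ i, x ⟨i, 0⟩ := by
      rw [Finset.prod_congr rfl fun i _ => hx0 i]
      exact (mul_div_cancel_left₀ _ (Finset.prod_ne_zero_iff.mpr fun i _ => hlam0 i)).symm
    rw [h6]
    exact Ω.div_mem (h2 (Or.inl rfl)) (prod_mem fun i _ => h3 _)
  refine h1.embed (K₀ := φ.fieldRange) ?_ (AlgEquiv.ofInjectiveField φ)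
  rw [hrange, IntermediateField.adjoin_le_iff]
  rintro z (hz | ⟨l, rfl⟩)
  · rw [hz]; exact h5
  · exact h4 l

end Pool.Agent.TH178.HI
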