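import Pool.Agent.TH178.HI.GDesc
import Pool.Agent.TH178.HI.MultiFin

/-! Double covers of products of projective spaces: one smooth point on the projective model. -/

set_option autoImplicit false

namespace Pool.Agent.TH178.HI

open MvPolynomial MZ

section

variable {k : Type} [Field k] {r : ℕ} {a : Fin r → ℕ}

/-- The substitution `x_(i,0) = 1`. -/
noncomputable def dz (k : Type) [Field k] {r : ℕ} (a : Fin r → ℕ) (l : Idx a) :
    MvPolynomial (Fin (Fintype.card ((i : Fin r) × Fin (a i)))) k :=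
  if h : l.2 = 0 then 1 else X (Fintype.equivFin _ ⟨l.1, l.2.pred h⟩)

/-- The affine equation of the double cover. -/
noncomputable def dehom (F : MvPolynomial (Idx a) k) :
    MvPolynomial (Fin (Fintype.card ((i : Fin r) × Fin (a i)))) k :=
  aeval (dz k a) F

theorem aeval_dehom (F : MvPolynomial (Idx a) k) {C : Type} [Field C] [Algebra k C]
    {u : Idx a → C} (hu : ∀ i, u ⟨i, 0⟩ = 1) :
    aeval (fun i => u ⟨((Fintype.equivFin _).symm i).1, ((Fintype.equivFin _).symm i).2.succ⟩)
      (dehom F) = aeval u F := by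
  let t : Fin (Fintype.card ((i : Fin r) × Fin (a i))) → C := fun i =>
    u ⟨((Fintype.equivFin _).symm i).1, ((Fintype.equivFin _).symm i).2.succ⟩
  have h1 : aeval t (aeval (dz k a) F) = aeval (fun l => aeval t (dz k a l)) F :=
    DFunLike.congr_fun (MvPolynomial.comp_aeval (f := dz k a) (aeval t)) F
  refine h1.trans ?_
  congr 1
  congr 1
  funext l
  obtain ⟨i, j⟩ := l
  rw [dz]
  split_ifs with h
  · have h' : j = 0 := h
    subst h'
    rw [map_one, hu]
  · have hj : j ≠ 0 := h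
    rw [aeval_X]
    refine (congrArg (fun q : (i : Fin r) × Fin (a i) => u ⟨q.1, q.2.succ⟩)
      (Equiv.symm_apply_apply (Fintype.equivFin ((i : Fin r) × Fin (a i)))
        ⟨i, j.pred hj⟩)).trans ?_
    show u ⟨i, (j.pred hj).succ⟩ = u ⟨i, j⟩
    rw [Fin.succ_pred]

theorem degreeOf_dehom {F : MvPolynomial (Idx a) k} (hF : IsMultiQuadratic F)
    (i : Fin (Fintype.card ((i : Fin r) × Fin (a i)))) : degreeOf i (dehom F) ≤ 2 := by
  classical
  rw [dehom, aeval_def, eval₂_eq']
  refine (degreeOf_sum_le _ _ _).trans (Finset.sup_le fun d hd => ?_)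
  rw [algebraMap_eq]
  refine (degreeOf_C_mul_le _ _ _).trans ?_
  refine (degreeOf_prod_le _ _ _).trans ?_
  set l₀ : Idx a := ⟨((Fintype.equivFin ((i : Fin r) × Fin (a i))).symm i).1,
    ((Fintype.equivFin ((i : Fin r) × Fin (a i))).symm i).2.succ⟩ with hl₀
  have hz : ∀ l, l ≠ l₀ → degreeOf i (dz k a l) = 0 := by
    intro l hl
    rw [dz]
    split_ifs with h
    · rw [← C_1, degreeOf_C]
    · rw [degreeOf_X, if_neg]
      intro h1
      apply hl
      rw [hl₀, h1, Equiv.symm_apply_apply]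
      simp
  have h1 : ∀ l, degreeOf i (dz k a l) ≤ 1 := by
    intro l
    rw [dz]
    split_ifs with h
    · rw [← C_1, degreeOf_C]
      exact Nat.zero_le _
    · rw [degreeOf_X]
      split_ifs <;> omega
  have h2 : d l₀ ≤ 2 := by
    rw [← hF d hd l₀.1]
    exact Finset.single_le_sum (f := fun j => d ⟨l₀.1, j⟩) (fun _ _ => Nat.zero_le _)
      (Finset.mem_univ l₀.2)
  calc ∑ l, degreeOf i (dz k a l ^ d l) ≤ ∑ l, d l * degreeOf i (dz k a l) :=
        Finset.sum_le_sum fun l _ => degreeOf_pow_le _ _ _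
    _ = d l₀ * degreeOf i (dz k a l₀) := by
        rw [Finset.sum_eq_single l₀]
        · intro l _ hl
          rw [hz l hl, mul_zero]
        · intro h
          exact absurd (Finset.mem_univ _) h
    _ ≤ 2 := by
        have := h1 l₀
        calc d l₀ * degreeOf i (dz k a l₀) ≤ 2 * 1 := Nat.mul_le_mul h2 this
          _ = 2 := rfl

theorem IsMultiCoverField.affine {F : MvPolynomial (Idx a) k} {K : Type} [Field K] [Algebra k K]
    (h : IsMultiCoverField k F K) : IsCoverField k (dehom F) K := by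
  obtain ⟨u, w, hu0, hu, hw, htop⟩ := h
  refine ⟨fun i => u ⟨((Fintype.equivFin _).symm i).1, ((Fintype.equivFin _).symm i).2.succ⟩, w,
    hu.comp _ (Fintype.equivFin _).symm.injective, by rw [hw, aeval_dehom F hu0], ?_⟩
  rw [eq_top_iff, ← htop, IntermediateField.adjoin_le_iff]
  rintro x (hx | ⟨⟨i, j⟩, rfl⟩)
  · exact IntermediateField.subset_adjoin _ _ (Or.inl hx)
  · by_cases hj : j = 0
    · subst hj
      rw [hu0]
      exact one_mem _
    · refine IntermediateField.subset_adjoin _ _ (Or.inr ⟨Fintype.equivFin _ ⟨i, j.pred hj⟩, ?_⟩)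
      refine (congrArg (fun q : (i : Fin r) × Fin (a i) => u ⟨q.1, q.2.succ⟩)
        (Equiv.symm_apply_apply (Fintype.equivFin ((i : Fin r) × Fin (a i)))
          ⟨i, j.pred hj⟩)).trans ?_
      show u ⟨i, (j.pred hj).succ⟩ = u ⟨i, j⟩
      rw [Fin.succ_pred]

/-- The point of the product of projective spaces with affine coordinates `b`. -/
noncomputable def proj (b : Fin (Fintype.card ((i : Fin r) × Fin (a i))) → k) (l : Idx a) : k :=
  if h : l.2 = 0 then 1 else b (Fintype.equivFin _ ⟨l.1, l.2.pred h⟩)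

theorem eval_proj (F : MvPolynomial (Idx a) k)
    (b : Fin (Fintype.card ((i : Fin r) × Fin (a i))) → k) :
    eval (proj b) F = eval b (dehom F) := by
  have h1 := aeval_dehom F (C := k) (u := proj b) (fun i => by simp [proj])
  have h2 : (fun i => proj (a := a) b ⟨((Fintype.equivFin _).symm i).1,
      ((Fintype.equivFin _).symm i).2.succ⟩) = b := by
    funext i
    rw [proj, dif_neg (Fin.succ_ne_zero _)]
    simp
  rw [h2] at h1
  exact h1.symm

theorem dehom_ne_zero [CharZero k] {F : MvPolynomial (Idx a) k} (hF : IsMultiQuadratic F)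
    (hF0 : F ≠ 0) : dehom F ≠ 0 := by
  intro h0
  have hG : F * ∏ i : Fin r, X (⟨i, 0⟩ : Idx a) ≠ 0 :=
    mul_ne_zero hF0 (Finset.prod_ne_zero_iff.mpr fun i _ => X_ne_zero _)
  obtain ⟨y, hy⟩ : ∃ y, eval y (F * ∏ i : Fin r, X (⟨i, 0⟩ : Idx a)) ≠ 0 := by
    by_contra hno
    push Not at hno
    exact hG (MvPolynomial.funext fun y => by rw [hno y, map_zero])
  rw [map_mul, map_prod] at hy
  have hy1 := left_ne_zero_of_mul hy
  have hy2 := Finset.prod_ne_zero_iff.mp (right_ne_zero_of_mul hy)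
  have hy3 : ∀ i, y ⟨i, 0⟩ ≠ 0 := fun i => by simpa using hy2 i (Finset.mem_univ i)
  have h1 := hF.eval_scale (fun i => (y ⟨i, 0⟩)⁻¹) y
  have h2 := aeval_dehom F (C := k) (u := fun l : Idx a => (y ⟨l.1, 0⟩)⁻¹ * y l)
    (fun i => inv_mul_cancel₀ (hy3 i))
  rw [h0, map_zero] at h2
  have h3 : eval (fun l : Idx a => (y ⟨l.1, 0⟩)⁻¹ * y l) F = 0 := h2.symm
  rw [h3] at h1
  exact (mul_ne_zero (pow_ne_zero 2 (Finset.prod_ne_zero_iff.mpr fun i _ => inv_ne_zero (hy3 i)))
    hy1) h1.symm

end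

open AlgebraicGeometry CategoryTheory W560.HP

theorem scheme_multi {k : Type} [Field k] [CharZero k]
    (hk : ∃ S : Finset k, IntermediateField.adjoin ℚ (S : Set k) = ⊤) {r : ℕ} {a : Fin r → ℕ}
    (F : MvPolynomial (Idx a) k) (hF0 : F ≠ 0) (hF : IsMultiQuadratic F) (X : Scheme.{0})
    [IsIntegral X] (p : X ⟶ Spec (CommRingCat.of k)) [LocallyOfFiniteType p]
    (hX : BirationalToMultiCover k F X p) :
    [DensePoints k X p, HasSmoothMultiPoint F, HilbertProperty k X p,
      UnirationalScheme k X p].TFAE := by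
  have hX' := hX
  obtain ⟨K, _, _, hK, e, he⟩ := hX
  have hf0 := dehom_ne_zero hF hF0
  have hXa : BirationalToCover k (dehom F) X p := ⟨K, _, _, hK.affine, e, he⟩
  have h := scheme_all hk (dehom F) hf0 (degreeOf_dehom hF)
    (fun h1 K _ _ hK => realizable_smooth (dehom F) (degreeOf_dehom hF) h1 K hK) X p hXa
  tfae_have 1 ↔ 3 := h.out 0 2
  tfae_have 1 ↔ 4 := h.out 0 3
  tfae_have 2 → 4 := fun h1 => unirational_multi F hF h1 X p hX'
  tfae_have 1 → 2 := by
    intro h1
    obtain ⟨b, c, h2, h3⟩ := point_of_place hK.affine (fun y => exists_place k X p h1 K e he y) hf0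
    refine ⟨proj b, c, fun i => ⟨0, ?_⟩, ?_, Or.inl ?_⟩
    · rw [proj, dif_pos rfl]
      exact one_ne_zero
    · rw [h2, eval_proj]
    · rintro rfl
      exact h3 (by rw [← h2]; ring)
  tfae_finish

end Pool.Agent.TH178.HI
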