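import Pool.Agent.TH178.HI.Coef

/-! An irreducible polynomial is not proportional to a specialisation. -/

set_option autoImplicit false

namespace Pool.Agent.TH178.HI

open MvPolynomial

variable {k : Type} [Field k] {n : ℕ}

theorem not_mem_vars_of_pderiv [CharZero k] {g : MvPolynomial (Fin n) k} {j : Fin n}
    (h : pderiv j g = 0) : j ∉ g.vars := by
  classical
  intro hj
  obtain ⟨d, hd, hdj⟩ := (mem_vars j).mp hj
  have h0 : 0 < d j := Nat.pos_of_ne_zero (Finsupp.mem_support_iff.mp hdj)
  have h1 := congrArg (coeff (d - Finsupp.single j 1)) h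
  rw [coeff_pderiv, coeff_zero] at h1
  have h2 : d - Finsupp.single j 1 + Finsupp.single j 1 = d := by
    ext l
    rw [Finsupp.add_apply, Finsupp.tsub_apply]
    by_cases hl : j = l
    · subst hl
      rw [Finsupp.single_eq_same]
      omega
    · rw [Finsupp.single_eq_of_ne (Ne.symm hl)]
      omega
  rw [h2] at h1
  rcases mul_eq_zero.mp h1 with h3 | h3
  · exact mem_support_iff.mp hd h3
  · have h4 : ((((d - Finsupp.single j 1 : Fin n →₀ ℕ) j + 1 : ℕ)) : k) = 0 := by
      exact_mod_cast h3
    exact Nat.succ_ne_zero _ (Nat.cast_eq_zero.mp h4)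

theorem pderiv_three [CharZero k] {f : MvPolynomial (Fin n) k} {j : Fin n}
    (hf : degreeOf j f ≤ 2) : pderiv j (pderiv j (pderiv j f)) = 0 := by
  classical
  ext m
  rw [coeff_pderiv, coeff_pderiv, coeff_pderiv, coeff_zero]
  have h : coeff (m + Finsupp.single j 1 + Finsupp.single j 1 + Finsupp.single j 1) f = 0 := by
    by_contra h0
    have h1 := (degreeOf_le_iff.mp hf) _ (mem_support_iff.mpr h0)
    simp only [Finsupp.add_apply, Finsupp.single_eq_same] at h1
    omega
  rw [h]
  ring

theorem coA_vars [CharZero k] {f : MvPolynomial (Fin n) k} {j : Fin n}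
    (hf : degreeOf j f ≤ 2) : j ∉ (coA f j).vars := by
  apply not_mem_vars_of_pderiv
  rw [coA, pderiv_C_mul, pderiv_three hf, mul_zero]

theorem coB_vars [CharZero k] {f : MvPolynomial (Fin n) k} {j : Fin n}
    (hf : degreeOf j f ≤ 2) : j ∉ (coB f j).vars := by
  apply not_mem_vars_of_pderiv
  rw [coB, map_sub, pderiv_mul, pderiv_three hf, pderiv_X_self]
  ring

/-- For every index `j` which is not the last one, some irreducible factor of `f` involves both the
variable `t_j` and a variable `t_i` with `i > j`. -/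
def Linked (f : MvPolynomial (Fin n) k) : Prop :=
  ∀ j : Fin n, (j : ℕ) + 1 < n → ∃ (P : MvPolynomial (Fin n) k) (i : Fin n),
    Irreducible P ∧ P ∣ f ∧ j < i ∧ j ∈ P.vars ∧ i ∈ P.vars

theorem not_proportional [CharZero k] {f P : MvPolynomial (Fin n) k} (hP : Prime P) (hPf : P ∣ f)
    {j i : Fin n} (hji : j < i) (hjP : j ∈ P.vars) (hiP : i ∈ P.vars) (hf : degreeOf j f ≤ 2)
    (b : Fin n → k) (hj : spec b j (disc f j) ≠ 0) :
    ¬ (spec b j (coA f j) * coB f j = coA f j * spec b j (coB f j) ∧
      spec b j (coA f j) * coC f j = coA f j * spec b j (coC f j) ∧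
      spec b j (coB f j) * coC f j = coB f j * spec b j (coC f j)) := by
  rintro ⟨h1, h2, h3⟩
  have hva := coA_vars hf
  have hvb := coB_vars hf
  set a := coA f j with ha
  set β := coB f j with hβ
  set c := coC f j with hc
  have hfe : a * X j ^ 2 + β * X j + c = f := coef_eq f j
  have hf0 : f ≠ 0 := by
    rintro rfl
    apply hj
    rw [disc, map_zero, map_zero]
    simp
  have hD : (spec b j β) ^ 2 - 4 * spec b j a * spec b j c = spec b j (disc f j) := by
    rw [← coef_disc f j, map_sub, map_mul, map_mul, map_pow, map_ofNat]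
  set g := spec b j a * X j ^ 2 + spec b j β * X j + spec b j c with hg
  have hgi : degreeOf i g = 0 := by
    by_contra h0
    have h4 := mem_vars_iff_degreeOf_ne_zero.mpr h0
    have h5 : ∀ x, i ∉ (spec b j x).vars := fun x => spec_vars b j x (le_of_lt hji)
    have h6 : i ∉ (X j : MvPolynomial (Fin n) k).vars := by
      rw [vars_X, Finset.mem_singleton]
      exact fun h => hji.ne' h
    have h7 : i ∉ ((X j : MvPolynomial (Fin n) k) ^ 2).vars := fun h => h6 (vars_pow _ _ h)
    rcases Finset.mem_union.mp (vars_add_subset _ _ h4) with h | h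
    · rcases Finset.mem_union.mp (vars_add_subset _ _ h) with h | h
      · rcases Finset.mem_union.mp (vars_mul _ _ h) with h | h
        exacts [h5 _ h, h7 h]
      · rcases Finset.mem_union.mp (vars_mul _ _ h) with h | h
        exacts [h5 _ h, h6 h]
    · exact h5 _ h
  have key : ∀ x : MvPolynomial (Fin n) k, j ∉ x.vars → f * spec b j x = x * g →
      spec b j x = 0 := by
    intro x hxj hx
    by_contra hy
    have hxg : x * g ≠ 0 := by
      rw [← hx]
      exact mul_ne_zero hf0 hy
    have hg0 : g ≠ 0 := right_ne_zero_of_mul hxg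
    have hx0 : x ≠ 0 := left_ne_zero_of_mul hxg
    have hPxg : P ∣ x * g := by
      rw [← hx]
      exact hPf.mul_right _
    rcases hP.dvd_or_dvd hPxg with ⟨h, hh⟩ | ⟨h, hh⟩
    · have hh0 : h ≠ 0 := by
        rintro rfl
        exact hx0 (by rw [hh, mul_zero])
      have h4 : degreeOf j x = 0 := by
        by_contra h0
        exact hxj (mem_vars_iff_degreeOf_ne_zero.mpr h0)
      rw [hh, degreeOf_mul_eq hP.ne_zero hh0] at h4
      exact mem_vars_iff_degreeOf_ne_zero.mp hjP (by omega)
    · have hh0 : h ≠ 0 := by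
        rintro rfl
        exact hg0 (by rw [hh, mul_zero])
      rw [hh, degreeOf_mul_eq hP.ne_zero hh0] at hgi
      exact mem_vars_iff_degreeOf_ne_zero.mp hiP (by omega)
  have ka : spec b j a = 0 := key a hva (by rw [hg, ← hfe]; linear_combination X j * h1 + h2)
  have kβ : spec b j β = 0 := key β hvb (by
    rw [hg, ← hfe]
    linear_combination (-(X j ^ 2)) * h1 + h3)
  apply hj
  rw [← hD, ka, kβ]
  ring

end Pool.Agent.TH178.HI
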