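import Pool.Agent.TH178.HI.Cut2
import Pool.Agent.TH178.HI.Uni

/-! The function field of a double cover is realizable: no hypothesis on the factors of `f`. -/

set_option autoImplicit false

namespace Pool.Agent.TH178.HI

open MvPolynomial

variable {k E : Type} [Field k] [Field E] [Algebra k E] {n : ℕ}

theorem disc_mul_left [CharZero k] {A B : MvPolynomial (Fin n) k} {i : Fin n} (hB : i ∉ B.vars) :
    disc (A * B) i = B ^ 2 * disc A i := by
  have hm : pderiv i B = 0 := pderiv_eq_zero_of_notMem_vars hB
  rw [disc, disc, Derivation.leibniz, smul_eq_mul, smul_eq_mul, hm, mul_zero, zero_add,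
    Derivation.leibniz, smul_eq_mul, smul_eq_mul, hm, mul_zero, add_zero]
  ring

theorem CutAt.data [CharZero k] {f A B : MvPolynomial (Fin n) k} {i₀ i₁ : Fin n} (hi : i₀ < i₁)
    (hc : CutAt f i₀ A B) (hdeg : ∀ i, degreeOf i f ≤ 2) (hd : ∀ i, disc f i ≠ 0) :
    degreeOf i₀ A ≤ 2 ∧ degreeOf i₁ B ≤ 2 ∧ disc A i₀ ≠ 0 ∧ disc B i₁ ≠ 0 := by
  obtain ⟨hf, hA, hB⟩ := hc
  have h1 : i₀ ∉ B.vars := fun h => lt_irrefl _ (hB i₀ h)
  have h2 : i₁ ∉ A.vars := fun h => absurd (hA i₁ h) (not_le.mpr hi)
  have d0 := hd i₀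
  have d1 := hd i₁
  rw [hf, disc_mul_left h1] at d0
  rw [hf, mul_comm, disc_mul_left h2] at d1
  have hB0 : B ≠ 0 := by
    rintro rfl
    exact d0 (by simp)
  have hA0 : A ≠ 0 := by
    rintro rfl
    exact d1 (by simp)
  have e0 := hdeg i₀
  have e1 := hdeg i₁
  rw [hf, degreeOf_mul_eq hA0 hB0] at e0 e1
  exact ⟨by omega, by omega, right_ne_zero_of_mul d0, right_ne_zero_of_mul d1⟩

section

variable {f : MvPolynomial (Fin n) k} {b : Fin n → k} {S T : Fin n → E} {v w : ℕ → E}

theorem OChain.realizable [CharZero k] (h : OChain f b S T v w) :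
    Realizable k (GG f T v w 0) := by
  obtain ⟨Ω, hΩ, hKΩ, hcl⟩ := h.main
  have hT : AlgebraicIndependent k T := h.ind.comp Sum.inr Sum.inr_injective
  have hdisc : ∀ i, HI.disc f i ≠ 0 := h.disc_ne
  choose hlt A B hAB using fun i : {m : ℕ // IsCut f m} => i.2
  let i₀ : {m : ℕ // IsCut f m} → Fin n := fun i => ⟨i.1, Nat.lt_of_succ_lt (hlt i)⟩
  let i₁ : {m : ℕ // IsCut f m} → Fin n := fun i => ⟨i.1 + 1, hlt i⟩
  have hii : ∀ i, i₀ i < i₁ i := fun i => Nat.lt_succ_self i.1
  have hstep := fun i => by
    obtain ⟨d1, d2, d3, d4⟩ := (hAB i).data (hii i) h.deg hdisc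
    exact cut_step hT (hii i) (hAB i).2.1 (hAB i).2.2 d1 d2 d3 d4 (h.cut (hAB i)).2.2.1
  have hK₀ : GG f T v w 0 = IntermediateField.adjoin k (insert (w 0) (Set.range T)) :=
    GG_zero f T v w
  obtain ⟨M, hM1, hM2, hM3, hM4, hM5⟩ := criterion_in hΩ hKΩ
    (fun i : {m : ℕ // IsCut f m} => BB (k := k) T (i₀ i) (i₁ i) (w 0 / aeval T (B i)))
    (fun i => by rw [hK₀]; exact (hstep i).1)
  have hMn : M ≤ GG f T v w n := fun z hz =>
    hcl z (hM2 hz) (isAlgebraic_mono' (GG_mono f T v w (Nat.zero_le n)) (hM3 z hz))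
  have hdown : ∀ m, M ≤ GG f T v w (m + 1) → M ≤ GG f T v w m := by
    intro m hm
    by_cases hc : IsCut f m
    · have h1 := hM5 ⟨m, hc⟩
      refine h1.trans ?_
      rw [IntermediateField.adjoin_le_iff]
      rintro z (hz | ⟨hzM, hzal⟩)
      · exact GG_mono f T v w (Nat.zero_le m) hz
      · have hroot := h.root_sq (hAB ⟨m, hc⟩)
        refine (hstep ⟨m, hc⟩).2
          {x | ∃ m' < m, IsCut f m' ∧ x = w 0 * v (m' + 1) / w (m' + 1)} ?_
          (eval b (B ⟨m, hc⟩)) (w 0 * v (m + 1) / w (m + 1)) (h.disc_cut (hAB ⟨m, hc⟩))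
          hroot z ?_ hzal
        · rintro x ⟨m', hm', ⟨hm2, A', B', hc'⟩, rfl⟩
          refine AC_sq ?_
          rw [h.root_sq hc']
          refine mul_mem (IntermediateField.algebraMap_mem _ _) (aeval_mem_vars fun j hj => ?_)
          refine subset_AC _ ⟨j, ?_, rfl⟩
          have h2 : j ≤ (⟨m', Nat.lt_of_succ_lt hm2⟩ : Fin n) := hc'.2.1 j hj
          exact lt_of_le_of_lt h2 (show (⟨m', Nat.lt_of_succ_lt hm2⟩ : Fin n) < i₀ ⟨m, hc⟩ from hm')
        · have h2 := hm hzM
          rw [GG] at h2
          refine (IntermediateField.adjoin.mono k _ _ ?_) h2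
          rintro x (hx | ⟨m', hm', hx⟩)
          · exact Or.inl (Or.inl hx)
          · rcases Nat.lt_succ_iff_lt_or_eq.mp hm' with h3 | h3
            · exact Or.inl (Or.inr ⟨m', h3, hx⟩)
            · right
              rw [Set.mem_singleton_iff, hx.2, h3]
    · refine hm.trans ?_
      rw [GG, GG]
      apply IntermediateField.adjoin.mono
      rintro x (hx | ⟨m', hm', hx⟩)
      · exact Or.inl hx
      · rcases Nat.lt_succ_iff_lt_or_eq.mp hm' with h3 | h3
        · exact Or.inr ⟨m', h3, hx⟩
        · exact absurd (h3 ▸ hx.1) hc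
  have hM0 : M ≤ GG f T v w 0 := by
    have key : ∀ j ≤ n, M ≤ GG f T v w (n - j) := by
      intro j
      induction j with
      | zero => intro _; exact hMn
      | succ j ih =>
        intro hj
        apply hdown
        have h1 : n - (j + 1) + 1 = n - j := by omega
        rw [h1]
        exact ih (by omega)
    have h1 := key n le_rfl
    rwa [Nat.sub_self] at h1
  have heq : GG f T v w 0 = M := le_antisymm hM1 hM0
  exact hM4.equiv (IntermediateField.equivOfEq heq)

end

theorem realizable_cover [CharZero k] (hn : n ≠ 0) (f : MvPolynomial (Fin n) k)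
    (hf : Ordered f) (hdeg : ∀ i, degreeOf i f ≤ 2) (b : Fin n → k)
    (c : k) (hc : c ^ 2 = eval b f) (hb : ∀ i, eval b (disc f i) ≠ 0) (K : Type) [Field K]
    [Algebra k K] (hK : IsCoverField k f K) : Realizable k K := by
  obtain ⟨t, w₀, ht, hw₀, htop⟩ := hK
  let R := MvPolynomial (Fin n) K
  let F := FractionRing R
  let E := AlgebraicClosure F
  let S : Fin n → E := fun i => algebraMap F E (algebraMap R F (X i))
  have hS : AlgebraicIndependent K S := by
    have h1 := (MvPolynomial.algebraicIndependent_X (Fin n) K).map'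
      (f := IsScalarTower.toAlgHom K R F) (IsFractionRing.injective R F)
    exact h1.map' (f := IsScalarTower.toAlgHom K F E) (algebraMap F E).injective
  let T : Fin n → E := fun i => algebraMap K E (t i)
  have hz : AlgebraicIndependent k (Sum.elim S T) := AlgebraicIndependent.sumElim_comp ht hS
  have hroot : ∀ x : E, ∃ z : E, z ^ 2 = x := fun x => IsAlgClosed.exists_pow_nat_eq x two_pos
  choose sq hsq using hroot
  let v : ℕ → E := fun m => if m = 0 then algebraMap k E c else
    sq (aeval (mix S (fun i => algebraMap k E (b i)) m) f)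
  let w : ℕ → E := fun m => if m = 0 then algebraMap K E w₀ else sq (aeval (mix S T m) f)
  have hch : OChain f b S T v w := by
    refine ⟨hf, hdeg, hb, hz, fun m => ?_, fun m => ?_, ?_, ?_⟩
    · by_cases hm : m = 0
      · subst hm
        show (if 0 = 0 then algebraMap k E c else _) ^ 2 = _
        rw [if_pos rfl, mix_zero, ← map_pow, hc]
        exact (MvPolynomial.aeval_algebraMap_apply E b f).symm
      · show (if m = 0 then algebraMap k E c else _) ^ 2 = _
        rw [if_neg hm]
        exact hsq _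
    · by_cases hm : m = 0
      · subst hm
        show (if 0 = 0 then algebraMap K E w₀ else _) ^ 2 = _
        rw [if_pos rfl, mix_zero, ← map_pow, hw₀]
        exact (MvPolynomial.aeval_algebraMap_apply E t f).symm
      · show (if m = 0 then algebraMap K E w₀ else _) ^ 2 = _
        rw [if_neg hm]
        exact hsq _
    · show (if 0 = 0 then algebraMap k E c else _) ∈ _
      rw [if_pos rfl]
      exact IntermediateField.algebraMap_mem _ _
    · show (if n = 0 then algebraMap K E w₀ else _) = (if n = 0 then algebraMap k E c else _)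
      rw [if_neg hn, if_neg hn, mix_n, mix_n]
  have hr := hch.realizable
  let φ : K →ₐ[k] E := IsScalarTower.toAlgHom k K E
  have hw0 : w 0 = algebraMap K E w₀ := if_pos rfl
  have hrange : φ.fieldRange = GG f T v w 0 := by
    rw [GG_zero, AlgHom.fieldRange_eq_map, ← htop, IntermediateField.adjoin_map,
      Set.image_insert_eq, ← Set.range_comp, hw0]
    rfl
  exact hr.equiv ((AlgEquiv.ofInjectiveField φ).trans (IntermediateField.equivOfEq hrange))

theorem disc_rename (e : Equiv.Perm (Fin n)) (f : MvPolynomial (Fin n) k) (i : Fin n) :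
    disc (rename e f) (e i) = rename e (disc f i) := by
  rw [disc, disc, pderiv_rename e.injective, pderiv_rename e.injective, map_sub, map_mul, map_mul,
    map_pow, map_ofNat]

/-- The function field of a double cover with nonzero discriminants and a good point is
realizable. -/
theorem realizable_all [CharZero k] (hn : n ≠ 0) (f : MvPolynomial (Fin n) k)
    (hdeg : ∀ i, degreeOf i f ≤ 2) (hg : HasGoodPoint f) (K : Type) [Field K]
    [Algebra k K] (hK : IsCoverField k f K) : Realizable k K := by
  obtain ⟨b, c, hc, hb⟩ := hg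
  have hf0 : f ≠ 0 := by
    rintro rfl
    apply hb ⟨0, Nat.pos_of_ne_zero hn⟩
    simp [disc]
  obtain ⟨e, he⟩ := exists_ordered hf0
  have hev : ∀ g : MvPolynomial (Fin n) k,
      eval (fun i => b (e.symm i)) (rename e g) = eval b g := by
    intro g
    rw [eval_rename]
    congr 1
    congr 1
    funext l
    simp
  refine realizable_cover hn (rename e f) he (fun i => ?_) (fun i => b (e.symm i)) c ?_
    (fun i => ?_) K ?_
  · obtain ⟨l, rfl⟩ := e.surjective i
    rw [degreeOf_rename_of_injective e.injective]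
    exact hdeg l
  · rw [hc, hev]
  · obtain ⟨l, rfl⟩ := e.surjective i
    rw [disc_rename, hev]
    exact hb l
  · obtain ⟨t, w₀, ht, hw₀, htop⟩ := hK
    refine ⟨fun i => t (e.symm i), w₀, ht.comp _ e.symm.injective, ?_, ?_⟩
    · rw [hw₀, aeval_rename]
      congr 1
      congr 1
      funext l
      simp
    · have h1 : Set.range (fun i => t (e.symm i)) = Set.range t := by
        ext x
        constructor
        · rintro ⟨i, rfl⟩
          exact ⟨_, rfl⟩
        · rintro ⟨i, rfl⟩
          exact ⟨e i, by simp⟩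
      rw [h1]
      exact htop

end Pool.Agent.TH178.HI
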