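import Pool.Agent.TH178.HI.NP

/-! An order of the variables adapted to the factorisation of `f`. -/

set_option autoImplicit false

namespace Pool.Agent.TH178.HI

open MvPolynomial

/-- A reordering of `Fin n` after which every index is either adjacent to a later one, or no index
up to it is adjacent to a later one. -/
theorem exists_order {n : ℕ} (adj : Fin n → Fin n → Prop) :
    ∃ e : Equiv.Perm (Fin n), ∀ m : Fin n, (∃ l, m < l ∧ adj (e m) (e l)) ∨
      ∀ p l, p ≤ m → m < l → ¬ adj (e p) (e l) := by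
  suffices h : ∀ j ≤ n, ∃ e : Equiv.Perm (Fin n), ∀ m : Fin n, n - j ≤ (m : ℕ) →
      (∃ l, m < l ∧ adj (e m) (e l)) ∨ ∀ p l, p ≤ m → m < l → ¬ adj (e p) (e l) by
    obtain ⟨e, he⟩ := h n le_rfl
    exact ⟨e, fun m => he m (by omega)⟩
  intro j
  induction j with
  | zero =>
    intro _
    exact ⟨1, fun m hm => absurd m.2 (by omega)⟩
  | succ j ih =>
    intro hj
    obtain ⟨e, he⟩ := ih (by omega)
    let m₀ : Fin n := ⟨n - (j + 1), by omega⟩
    by_cases hex : ∃ p l, p ≤ m₀ ∧ m₀ < l ∧ adj (e p) (e l)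
    · obtain ⟨p, l, hp, hl, hadj⟩ := hex
      let s := Equiv.swap p m₀
      have hs : ∀ q : Fin n, m₀ < q → s q = q := fun q hq =>
        Equiv.swap_apply_of_ne_of_ne (ne_of_gt (lt_of_le_of_lt hp hq)) (ne_of_gt hq)
      refine ⟨s.trans e, fun m hm => ?_⟩
      rcases eq_or_lt_of_le (show m₀ ≤ m from hm) with h1 | h1
      · left
        refine ⟨l, h1 ▸ hl, ?_⟩
        rw [← h1]
        show adj (e (s m₀)) (e (s l))
        rw [Equiv.swap_apply_right, hs l hl]
        exact hadj
      · have h1' : (m₀ : ℕ) < (m : ℕ) := h1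
        have h0 : (m₀ : ℕ) = n - (j + 1) := rfl
        rcases he m (by omega) with ⟨l', hl', h2⟩ | h2
        · left
          refine ⟨l', hl', ?_⟩
          show adj (e (s m)) (e (s l'))
          rw [hs m h1, hs l' (h1.trans hl')]
          exact h2
        · right
          intro p' l' hp' hl'
          show ¬ adj (e (s p')) (e (s l'))
          rw [hs l' (h1.trans hl')]
          refine h2 (s p') l' ?_ hl'
          by_cases h3 : p' = p
          · rw [h3, Equiv.swap_apply_left]
            exact h1.le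
          · by_cases h4 : p' = m₀
            · rw [h4, Equiv.swap_apply_right]
              exact hp.trans h1.le
            · rw [Equiv.swap_apply_of_ne_of_ne h3 h4]
              exact hp'
    · refine ⟨e, fun m hm => ?_⟩
      rcases eq_or_lt_of_le (show m₀ ≤ m from hm) with h1 | h1
      · right
        intro p l hp hl hadj
        rw [← h1] at hp hl
        exact hex ⟨p, l, hp, hl, hadj⟩
      · have h1' : (m₀ : ℕ) < (m : ℕ) := h1
        have h0 : (m₀ : ℕ) = n - (j + 1) := rfl
        exact he m (by omega)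

variable {k : Type} [Field k] {n : ℕ}

/-- The indices `i`, `j` occur in a common irreducible factor. -/
def Adj (f : MvPolynomial (Fin n) k) (i j : Fin n) : Prop :=
  ∃ P : MvPolynomial (Fin n) k, Irreducible P ∧ P ∣ f ∧ i ∈ P.vars ∧ j ∈ P.vars

/-- Splitting of a polynomial whose irreducible factors do not mix the variables up to `m` and the
later ones. -/
theorem exists_split {f : MvPolynomial (Fin n) k} (hf : f ≠ 0) (m : Fin n)
    (h : ∀ p l, p ≤ m → m < l → ¬ Adj f p l) : ∃ A B : MvPolynomial (Fin n) k, f = A * B ∧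
      (∀ i ∈ A.vars, i ≤ m) ∧ ∀ i ∈ B.vars, m < i := by
  classical
  suffices key : ∀ g : MvPolynomial (Fin n) k, g ≠ 0 → g ∣ f →
      ∃ A B : MvPolynomial (Fin n) k, g = A * B ∧
      (∀ i ∈ A.vars, i ≤ m) ∧ ∀ i ∈ B.vars, m < i from key f hf dvd_rfl
  intro g hg0 hgf
  induction g using WfDvdMonoid.induction_on_irreducible with
  | zero => exact absurd rfl hg0
  | unit u hu =>
    refine ⟨u, 1, (mul_one u).symm, ?_, ?_⟩
    · obtain ⟨c, -, hc⟩ := MvPolynomial.isUnit_iff_eq_C_of_isReduced.mp hu
      rw [hc, vars_C]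
      exact fun i hi => absurd hi (Finset.notMem_empty i)
    · rw [← C_1, vars_C]
      exact fun i hi => absurd hi (Finset.notMem_empty i)
  | mul g P hg hP ih =>
    obtain ⟨A, B, hAB, hA, hB⟩ := ih hg ((dvd_mul_left g P).trans hgf)
    have hPf : P ∣ f := (dvd_mul_right P g).trans hgf
    by_cases hc : ∃ i ∈ P.vars, m < i
    · obtain ⟨i, hi, hmi⟩ := hc
      refine ⟨A, P * B, by rw [hAB]; ring, hA, fun q hq => ?_⟩
      rcases Finset.mem_union.mp (vars_mul P B hq) with h1 | h1
      · by_contra h2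
        exact h q i (not_lt.mp h2) hmi ⟨P, hP, hPf, h1, hi⟩
      · exact hB q h1
    · push Not at hc
      refine ⟨P * A, B, by rw [hAB]; ring, fun q hq => ?_, hB⟩
      rcases Finset.mem_union.mp (vars_mul P A hq) with h1 | h1
      · exact hc q h1
      · exact hA q h1

/-- `f` is the product of a polynomial in the variables up to `m` and one in the later ones. -/
def CutAt (f : MvPolynomial (Fin n) k) (m : Fin n) (A B : MvPolynomial (Fin n) k) : Prop :=
  f = A * B ∧ (∀ i ∈ A.vars, i ≤ m) ∧ ∀ i ∈ B.vars, m < i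

/-- Every index is linked to a later one, or `f` splits there. -/
def Ordered (f : MvPolynomial (Fin n) k) : Prop :=
  ∀ m : Fin n, (∃ (P : MvPolynomial (Fin n) k) (i : Fin n),
    Irreducible P ∧ P ∣ f ∧ m < i ∧ m ∈ P.vars ∧ i ∈ P.vars) ∨ ∃ A B, CutAt f m A B

theorem mem_vars_rename_equiv {f : MvPolynomial (Fin n) k} (e : Equiv.Perm (Fin n)) {i : Fin n}
    (hi : i ∈ f.vars) : e i ∈ (rename e f).vars := by
  classical
  obtain ⟨d, hd, hdi⟩ := (mem_vars i).mp hi
  refine (mem_vars (e i)).mpr ⟨d.mapDomain e, ?_, ?_⟩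
  · rw [mem_support_iff, coeff_rename_mapDomain e e.injective]
    exact mem_support_iff.mp hd
  · rw [Finsupp.mem_support_iff, Finsupp.mapDomain_apply e.injective]
    exact Finsupp.mem_support_iff.mp hdi

theorem exists_ordered {f : MvPolynomial (Fin n) k} (hf : f ≠ 0) :
    ∃ e : Equiv.Perm (Fin n), Ordered (rename e f) := by
  classical
  obtain ⟨e, he⟩ := exists_order (Adj f)
  have hf' : rename e.symm f ≠ 0 := by
    intro h0
    exact hf (rename_injective _ e.symm.injective (by rw [h0, map_zero]))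
  -- adjacency after renaming
  have hadj : ∀ i j, Adj (rename e.symm f) i j → Adj f (e i) (e j) := by
    rintro i j ⟨P, hP, hPf, hi, hj⟩
    refine ⟨rename e P, ?_, ?_, ?_, ?_⟩
    · exact (MulEquiv.irreducible_iff (renameEquiv k e)).mpr hP
    · have h1 := map_dvd (rename e) hPf
      rw [rename_rename] at h1
      have h2 : (e ∘ e.symm) = id := by funext x; simp
      rwa [h2, rename_id_apply] at h1
    · exact mem_vars_rename_equiv e hi
    · exact mem_vars_rename_equiv e hj
  have hadj' : ∀ i j, Adj f (e i) (e j) → Adj (rename e.symm f) i j := by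
    rintro i j ⟨P, hP, hPf, hi, hj⟩
    refine ⟨rename e.symm P, ?_, map_dvd (rename e.symm) hPf, ?_, ?_⟩
    · exact (MulEquiv.irreducible_iff (renameEquiv k e.symm)).mpr hP
    · have h := mem_vars_rename_equiv e.symm hi
      rwa [Equiv.symm_apply_apply] at h
    · have h := mem_vars_rename_equiv e.symm hj
      rwa [Equiv.symm_apply_apply] at h
  refine ⟨e.symm, fun m => ?_⟩
  rcases he m with ⟨l, hl, h1⟩ | h1
  · left
    obtain ⟨P, hP, hPf, hi, hj⟩ := hadj' _ _ h1
    exact ⟨P, l, hP, hPf, hl, hi, hj⟩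
  · right
    obtain ⟨A, B, h2, h3, h4⟩ := exists_split hf' m fun p l hp hl h5 => h1 p l hp hl (hadj _ _ h5)
    exact ⟨A, B, h2, h3, h4⟩

end Pool.Agent.TH178.HI
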