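import Pool.Agent.TH178.HI.Tower
import Pool.Agent.TH178.HI.Order

/-! The two towers of the chain of conics, for an arbitrary polynomial. -/

set_option autoImplicit false

namespace Pool.Agent.TH178.HI

open MvPolynomial

variable {k E : Type} [Field k] [Field E] [Algebra k E] {n : ℕ}

theorem aeval_congr_vars {p q : Fin n → E} {a : MvPolynomial (Fin n) k}
    (h : ∀ i ∈ a.vars, p i = q i) : aeval p a = aeval q a := by
  have h1 : (aeval p : MvPolynomial (Fin n) k →ₐ[k] E).toRingHom a =
      (aeval q : MvPolynomial (Fin n) k →ₐ[k] E).toRingHom a := by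
    refine hom_congr_vars ?_ (fun i hi _ => ?_) rfl
    · ext x
      simp
    · simpa using h i hi
  exact h1

/-- `f` splits after the index `m`. -/
def IsCut (f : MvPolynomial (Fin n) k) (m : ℕ) : Prop :=
  ∃ h : m + 1 < n, ∃ A B, CutAt f ⟨m, Nat.lt_of_succ_lt h⟩ A B

/-- The field generated by the double cover and the first square roots attached to the splittings
of `f`. -/
noncomputable def GG (f : MvPolynomial (Fin n) k) (T : Fin n → E) (v w : ℕ → E) (j : ℕ) :
    IntermediateField k E :=
  IntermediateField.adjoin k (insert (w 0) (Set.range T) ∪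
    {x | ∃ m < j, IsCut f m ∧ x = w 0 * v (m + 1) / w (m + 1)})

theorem GG_mono (f : MvPolynomial (Fin n) k) (T : Fin n → E) (v w : ℕ → E) {i j : ℕ}
    (hij : i ≤ j) : GG f T v w i ≤ GG f T v w j := by
  apply IntermediateField.adjoin.mono
  rintro x (hx | ⟨m, hm, hx⟩)
  · exact Or.inl hx
  · exact Or.inr ⟨m, hm.trans_le hij, hx⟩

theorem GG_zero (f : MvPolynomial (Fin n) k) (T : Fin n → E) (v w : ℕ → E) :
    GG f T v w 0 = IntermediateField.adjoin k (insert (w 0) (Set.range T)) := by
  rw [GG]
  congr 1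
  ext x
  constructor
  · rintro (hx | ⟨m, hm, -⟩)
    · exact hx
    · exact absurd hm (Nat.not_lt_zero m)
  · exact Or.inl

/-- The data of the chain of conics. -/
structure OChain (f : MvPolynomial (Fin n) k) (b : Fin n → k) (S T : Fin n → E)
    (v w : ℕ → E) : Prop where
  ordered : Ordered f
  deg : ∀ i, degreeOf i f ≤ 2
  disc : ∀ i, eval b (disc f i) ≠ 0
  ind : AlgebraicIndependent k (Sum.elim S T)
  vs : ∀ m, v m ^ 2 = aeval (mix S (fun i => algebraMap k E (b i)) m) f
  ws : ∀ m, w m ^ 2 = aeval (mix S T m) f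
  v0 : v 0 ∈ (⊥ : IntermediateField k E)
  wn : w n = v n

section

variable {f : MvPolynomial (Fin n) k} {b : Fin n → k} {S T : Fin n → E} {v w : ℕ → E}
  (h : OChain f b S T v w)

include h

theorem OChain.disc_ne (i : Fin n) : HI.disc f i ≠ 0 := by
  intro h0
  apply h.disc i
  rw [h0, map_zero]

theorem OChain.disc_spec (i : Fin n) (m : ℕ) : spec b m (HI.disc f i) ≠ 0 := by
  intro h0
  apply h.disc i
  rw [← eval_spec b m, h0, map_zero]

theorem OChain.disc_p (i : Fin n) (m : ℕ) :
    aeval (mix S (fun i => algebraMap k E (b i)) m) (HI.disc f i) ≠ 0 := by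
  rw [← aeval_spec b S T m]
  exact aeval_ne_zero_of_indep (mix_indep h.ind m) (h.disc_spec i m)

theorem OChain.disc_q (i : Fin n) (m : ℕ) : aeval (mix S T m) (HI.disc f i) ≠ 0 :=
  aeval_ne_zero_of_indep (mix_indep h.ind m) (h.disc_ne i)

variable [CharZero k]

/-- the first half of the chain -/
theorem OChain.first (U : IntermediateField k E) (hS : ∀ i, S i ∈ U) (hv : ∀ m ≤ n, v m ∈ U)
    (m : ℕ) (hm : m ≤ n) : ∃ L : IntermediateField k E, Pure L ∧ L ≤ U ∧
      L ≤ AC k (Sum.elim S T '' {o | ∃ i : Fin n, (i : ℕ) < m ∧ o = Sum.inl i}) ∧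
      (∀ i : Fin n, (i : ℕ) < m → S i ∈ L) ∧ v m ∈ L := by
  have hE : CharZero E := charZero_of_injective_algebraMap (algebraMap k E).injective
  induction m with
  | zero => exact ⟨⊥, Pure.bot, bot_le, bot_le, fun i hi => absurd hi (Nat.not_lt_zero _), h.v0⟩
  | succ m ih =>
    obtain ⟨L, h1, h2, h3, h4, h5⟩ := ih (Nat.le_of_succ_le hm)
    let i : Fin n := ⟨m, hm⟩
    let p : Fin n → E := mix S (fun i => algebraMap k E (b i)) m
    have hp : ∀ j, p j ∈ L := mix_mem h4 fun j _ => L.algebraMap_mem _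
    have e1 : v m ^ 2 = aeval p (coA f i) * (algebraMap k E (b i)) ^ 2 +
        aeval p (coB f i) * (algebraMap k E (b i)) + aeval p (coC f i) := by
      rw [← coef_update f i (h.deg i), h.vs]
      exact congrArg (fun q => aeval q f) (mix_self S (fun i => algebraMap k E (b i)) i)
    have e2 : v (m + 1) ^ 2 = aeval p (coA f i) * (S i) ^ 2 +
        aeval p (coB f i) * (S i) + aeval p (coC f i) := by
      rw [← coef_update f i (h.deg i), h.vs]
      exact congrArg (fun q => aeval q f) (mix_succ S (fun i => algebraMap k E (b i)) i)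
    have hmono : AC k (Sum.elim S T '' {o | ∃ i : Fin n, (i : ℕ) < m ∧ o = Sum.inl i}) ≤
        AC k (Sum.elim S T '' {o | ∃ i : Fin n, (i : ℕ) < m + 1 ∧ o = Sum.inl i}) :=
      AC_mono (Set.image_mono fun o ⟨j, hj, ho⟩ => ⟨j, hj.trans (Nat.lt_succ_self m), ho⟩)
    have hSi : S i ∈ AC k (Sum.elim S T '' {o | ∃ i : Fin n, (i : ℕ) < m + 1 ∧ o = Sum.inl i}) :=
      subset_AC _ ⟨Sum.inl i, ⟨i, Nat.lt_succ_self m, rfl⟩, rfl⟩
    refine ⟨IntermediateField.adjoin k ((L : Set E) ∪ {S i, v (m + 1)}), ?_, ?_, ?_, ?_, ?_⟩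
    · refine h1.conic (L.algebraMap_mem (b i)) h5 (aeval_mem' hp _) (aeval_mem' hp _) ?_ e1 ?_ e2
      · have := h.disc_p i m
        rw [← coef_disc] at this
        simpa only [map_sub, map_mul, map_pow, map_ofNat] using this
      · refine transcendental_of_le h.ind (i := Sum.inl i) ?_ h3
        rintro ⟨j, hj, hij⟩
        rw [← Sum.inl_injective hij] at hj
        exact lt_irrefl _ hj
    · rw [IntermediateField.adjoin_le_iff]
      rintro x (hx | hx | hx)
      · exact h2 hx
      · rw [hx]; exact hS i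
      · rw [Set.mem_singleton_iff] at hx
        rw [hx]; exact hv _ hm
    · rw [IntermediateField.adjoin_le_iff]
      rintro x (hx | hx | hx)
      · exact hmono (h3 hx)
      · rw [hx]; exact hSi
      · rw [Set.mem_singleton_iff] at hx
        rw [hx]
        refine AC_sq ?_
        rw [h.vs]
        refine aeval_mem' (mix_mem (fun j hj => ?_) fun j _ => IntermediateField.algebraMap_mem _ _) _
        exact subset_AC _ ⟨Sum.inl j, ⟨j, hj, rfl⟩, rfl⟩
    · intro j hj
      rcases Nat.lt_succ_iff_lt_or_eq.mp hj with h6 | h6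
      · exact IntermediateField.subset_adjoin _ _ (Or.inl (h4 j h6))
      · have : j = i := Fin.ext h6
        rw [this]
        exact IntermediateField.subset_adjoin _ _ (Or.inr (Or.inl rfl))
    · exact IntermediateField.subset_adjoin _ _ (Or.inr (Or.inr rfl))

/-- the second half of the chain -/
theorem OChain.second (U : IntermediateField k E) (hS : ∀ i, S i ∈ U) (hT : ∀ i, T i ∈ U)
    (hv : ∀ m ≤ n, v m ∈ U) (hw : ∀ m ≤ n, w m ∈ U)
    (d m : ℕ) (hm : m + d = n) : ∃ L : IntermediateField k E, Pure L ∧ L ≤ U ∧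
      L ≤ AC k (Sum.elim S T '' {o | ∀ i : Fin n, (i : ℕ) < m → o ≠ Sum.inr i}) ∧
      (∀ i, S i ∈ L) ∧ (∀ i : Fin n, m ≤ (i : ℕ) → T i ∈ L) ∧ w m ∈ L := by
  have hE : CharZero E := charZero_of_injective_algebraMap (algebraMap k E).injective
  induction d generalizing m with
  | zero =>
    obtain rfl : m = n := by omega
    obtain ⟨L, h1, h2, h3, h4, h5⟩ := h.first U hS hv m le_rfl
    refine ⟨L, h1, h2, h3.trans (AC_mono (Set.image_mono ?_)), fun i => h4 i i.2,
      fun i hi => absurd hi (not_le.mpr i.2), by rw [h.wn]; exact h5⟩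
    rintro o ⟨j, -, rfl⟩ i - h'
    exact Sum.inl_ne_inr h'
  | succ d ih =>
    obtain ⟨L, h1, h2, h3, h4, h5, h6⟩ := ih (m + 1) (by omega)
    let i : Fin n := ⟨m, by omega⟩
    let p : Fin n → E := mix S T (m + 1)
    have hp : ∀ j, p j ∈ L := mix_mem (fun j _ => h4 j) h5
    have e1 : w (m + 1) ^ 2 = aeval p (coA f i) * (S i) ^ 2 +
        aeval p (coB f i) * (S i) + aeval p (coC f i) := by
      rw [← coef_update f i (h.deg i), h.ws]
      exact congrArg (fun q => aeval q f) (mix_succ_self S T i)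
    have e2 : w m ^ 2 = aeval p (coA f i) * (T i) ^ 2 +
        aeval p (coB f i) * (T i) + aeval p (coC f i) := by
      rw [← coef_update f i (h.deg i), h.ws]
      exact congrArg (fun q => aeval q f) (mix_back S T i)
    have hmono : AC k (Sum.elim S T '' {o | ∀ i : Fin n, (i : ℕ) < m + 1 → o ≠ Sum.inr i}) ≤
        AC k (Sum.elim S T '' {o | ∀ i : Fin n, (i : ℕ) < m → o ≠ Sum.inr i}) :=
      AC_mono (Set.image_mono fun o ho j hj => ho j (hj.trans (Nat.lt_succ_self m)))
    have hmem : ∀ j : Fin n, m ≤ (j : ℕ) →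
        T j ∈ AC k (Sum.elim S T '' {o | ∀ i : Fin n, (i : ℕ) < m → o ≠ Sum.inr i}) :=
      fun j hj => subset_AC _ ⟨Sum.inr j, fun i hi hij => by
        rw [← Sum.inr_injective hij] at hi
        omega, rfl⟩
    refine ⟨IntermediateField.adjoin k ((L : Set E) ∪ {T i, w m}), ?_, ?_, ?_, ?_, ?_, ?_⟩
    · refine h1.conic (h4 i) h6 (aeval_mem' hp _) (aeval_mem' hp _) ?_ e1 ?_ e2
      · have := h.disc_q i (m + 1)
        rw [← coef_disc] at this
        simpa only [map_sub, map_mul, map_pow, map_ofNat] using this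
      · refine transcendental_of_le h.ind (i := Sum.inr i) ?_ h3
        intro hi
        exact hi i (Nat.lt_succ_self m) rfl
    · rw [IntermediateField.adjoin_le_iff]
      rintro x (hx | hx | hx)
      · exact h2 hx
      · rw [hx]; exact hT i
      · rw [Set.mem_singleton_iff] at hx
        rw [hx]; exact hw _ (by omega)
    · rw [IntermediateField.adjoin_le_iff]
      rintro x (hx | hx | hx)
      · exact hmono (h3 hx)
      · rw [hx]; exact hmem i le_rfl
      · rw [Set.mem_singleton_iff] at hx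
        rw [hx]
        refine AC_sq ?_
        rw [h.ws]
        refine aeval_mem' (mix_mem (fun j _ => ?_) hmem) _
        exact subset_AC _ ⟨Sum.inl j, fun i _ => Sum.inl_ne_inr, rfl⟩
    · exact fun j => IntermediateField.subset_adjoin _ _ (Or.inl (h4 j))
    · intro j hj
      rcases Nat.eq_or_lt_of_le hj with h7 | h7
      · have : j = i := Fin.ext h7.symm
        rw [this]
        exact IntermediateField.subset_adjoin _ _ (Or.inr (Or.inl rfl))
      · exact IntermediateField.subset_adjoin _ _ (Or.inl (h5 j h7))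
    · exact IntermediateField.subset_adjoin _ _ (Or.inr (Or.inr rfl))

omit [CharZero k] in
theorem OChain.f_ne (i : Fin n) : f ≠ 0 := by
  rintro rfl
  apply h.disc_ne i
  simp [HI.disc]

omit [CharZero k] in
theorem OChain.cut {m : Fin n} {A B : MvPolynomial (Fin n) k}
    (hc : CutAt f m A B) : v (m + 1) ^ 2 = aeval S A * algebraMap k E (eval b B) ∧
      w (m + 1) ^ 2 = aeval S A * aeval T B ∧ w 0 ^ 2 = aeval T A * aeval T B ∧
      aeval S A ≠ 0 ∧ aeval T A ≠ 0 ∧ aeval T B ≠ 0 := by
  obtain ⟨hf, hA, hB⟩ := hc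
  have hfn := h.f_ne m
  rw [hf] at hfn
  have hA0 := left_ne_zero_of_mul hfn
  have hB0 := right_ne_zero_of_mul hfn
  have hT : AlgebraicIndependent k T := by
    have := h.ind.comp Sum.inr Sum.inr_injective
    exact this
  have hS : AlgebraicIndependent k S := by
    have := h.ind.comp Sum.inl Sum.inl_injective
    exact this
  have hAm : ∀ t : Fin n → E, aeval (mix S t (m + 1)) A = aeval S A := fun t =>
    aeval_congr_vars fun i hi => by
      rw [mix, if_pos (Nat.lt_succ_of_le (hA i hi))]
  have hBm : ∀ t : Fin n → E, aeval (mix S t (m + 1)) B = aeval t B := fun t =>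
    aeval_congr_vars fun i hi => by
      rw [mix, if_neg (not_lt.mpr (Nat.succ_le_of_lt (hB i hi)))]
  refine ⟨?_, ?_, ?_, aeval_ne_zero_of_indep hS hA0, aeval_ne_zero_of_indep hT hA0,
    aeval_ne_zero_of_indep hT hB0⟩
  · rw [h.vs, hf, map_mul, hAm, hBm]
    congr 1
    exact MvPolynomial.aeval_algebraMap_apply E b B
  · rw [h.ws, hf, map_mul, hAm, hBm]
  · rw [h.ws, mix_zero, hf, map_mul]

omit [CharZero k] in
theorem OChain.disc_cut {m : Fin n} {A B : MvPolynomial (Fin n) k}
    (hc : CutAt f m A B) : eval b B ≠ 0 := by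
  intro h0
  apply h.disc m
  obtain ⟨hf, hA, hB⟩ := hc
  have hm : pderiv m B = 0 := pderiv_eq_zero_of_notMem_vars fun hi => lt_irrefl _ (hB m hi)
  rw [HI.disc, hf, Derivation.leibniz, smul_eq_mul, smul_eq_mul, hm, mul_zero, zero_add,
    Derivation.leibniz, smul_eq_mul, smul_eq_mul, hm, mul_zero, add_zero]
  simp only [map_sub, map_mul, map_pow, h0]
  ring

omit [CharZero k] in
/-- the first square root attached to a splitting -/
theorem OChain.root_sq {m : Fin n} {A B : MvPolynomial (Fin n) k}
    (hc : CutAt f m A B) : (w 0 * v (m + 1) / w (m + 1)) ^ 2 =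
      algebraMap k E (eval b B) * aeval T A := by
  obtain ⟨h1, h2, h3, h4, h5, h6⟩ := h.cut hc
  rw [div_pow, mul_pow, h1, h2, h3]
  field_simp

/-- the tower over the function field -/
theorem OChain.regular (m : ℕ) (hm : m ≤ n) : ∃ L : IntermediateField k E,
      GG f T v w n ≤ L ∧ RelCl (GG f T v w n) L ∧
      L ≤ AC k (Sum.elim S T '' {o | ∀ i : Fin n, m ≤ (i : ℕ) → o ≠ Sum.inl i}) ∧
      (∀ i, T i ∈ L) ∧ (∀ i : Fin n, (i : ℕ) < m → S i ∈ L) ∧
      (∀ i ≤ m, v i ∈ L) ∧ (∀ i ≤ m, w i ∈ L) := by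
  have hE : CharZero E := charZero_of_injective_algebraMap (algebraMap k E).injective
  induction m with
  | zero =>
    refine ⟨_, le_rfl, fun x hx _ => hx, ?_, fun i => ?_, fun i hi => absurd hi (Nat.not_lt_zero _),
      fun i hi => ?_, fun i hi => ?_⟩
    · rw [GG, IntermediateField.adjoin_le_iff]
      have hTm : ∀ i, T i ∈
          AC k (Sum.elim S T '' {o | ∀ i : Fin n, 0 ≤ (i : ℕ) → o ≠ Sum.inl i}) := fun i =>
        subset_AC _ ⟨Sum.inr i, fun j _ => Sum.inr_ne_inl, rfl⟩
      rintro x ((hx | ⟨i, rfl⟩) | ⟨m, -, ⟨hm, A, B, hc⟩, hx⟩)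
      · rw [hx]
        refine AC_sq ?_
        rw [h.ws, mix_zero]
        exact aeval_mem' hTm _
      · exact hTm i
      · rw [hx]
        refine AC_sq ?_
        rw [h.root_sq hc]
        exact mul_mem (IntermediateField.algebraMap_mem _ _) (aeval_mem' hTm _)
    · exact IntermediateField.subset_adjoin _ _ (Or.inl (Or.inr ⟨i, rfl⟩))
    · obtain rfl : i = 0 := by omega
      exact (bot_le : (⊥ : IntermediateField k E) ≤ _) h.v0
    · obtain rfl : i = 0 := by omega
      exact IntermediateField.subset_adjoin _ _ (Or.inl (Or.inl rfl))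
  | succ m ih =>
    obtain ⟨L, h1, h2, h3, h4, h5, h6, h7⟩ := ih (Nat.le_of_succ_le hm)
    let i : Fin n := ⟨m, hm⟩
    let p : Fin n → E := mix S (fun i => algebraMap k E (b i)) m
    let q : Fin n → E := mix S T m
    have hp : ∀ j, p j ∈ L := mix_mem h5 fun j _ => L.algebraMap_mem _
    have hq : ∀ j, q j ∈ L := mix_mem h5 fun j _ => h4 j
    have e1 : v (m + 1) ^ 2 = aeval p (coA f i) * (S i) ^ 2 +
        aeval p (coB f i) * (S i) + aeval p (coC f i) := by
      rw [← coef_update f i (h.deg i), h.vs]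
      exact congrArg (fun q => aeval q f) (mix_succ S (fun i => algebraMap k E (b i)) i)
    have e2 : w (m + 1) ^ 2 = aeval q (coA f i) * (S i) ^ 2 +
        aeval q (coB f i) * (S i) + aeval q (coC f i) := by
      rw [← coef_update f i (h.deg i), h.ws]
      exact congrArg (fun q => aeval q f) (mix_succ S T i)
    have hs : Transcendental L (S i) := by
      refine transcendental_of_le h.ind (i := Sum.inl i) ?_ h3
      intro hi
      exact hi i le_rfl rfl
    let A : L := ⟨aeval p (coA f i), aeval_mem' hp _⟩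
    let B : L := ⟨aeval p (coB f i), aeval_mem' hp _⟩
    let C₀ : L := ⟨aeval p (coC f i), aeval_mem' hp _⟩
    let A' : L := ⟨aeval q (coA f i), aeval_mem' hq _⟩
    let B' : L := ⟨aeval q (coB f i), aeval_mem' hq _⟩
    let C' : L := ⟨aeval q (coC f i), aeval_mem' hq _⟩
    have hd : B ^ 2 - 4 * A * C₀ ≠ 0 := by
      have := h.disc_p i m
      rw [← coef_disc] at this
      intro h0
      apply this
      have h8 : algebraMap L E (B ^ 2 - 4 * A * C₀) = 0 := by rw [h0, map_zero]
      rw [map_sub, map_mul, map_mul, map_pow, map_ofNat] at h8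
      rw [map_sub, map_mul, map_mul, map_pow, map_ofNat]
      exact h8
    have hd' : B' ^ 2 - 4 * A' * C' ≠ 0 := by
      have := h.disc_q i m
      rw [← coef_disc] at this
      intro h0
      apply this
      have h8 : algebraMap L E (B' ^ 2 - 4 * A' * C') = 0 := by rw [h0, map_zero]
      rw [map_sub, map_mul, map_mul, map_pow, map_ofNat] at h8
      rw [map_sub, map_mul, map_mul, map_pow, map_ofNat]
      exact h8
    have hTm : ∀ j, T j ∈
        AC k (Sum.elim S T '' {o | ∀ i : Fin n, m + 1 ≤ (i : ℕ) → o ≠ Sum.inl i}) := fun j =>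
      subset_AC _ ⟨Sum.inr j, fun j _ => Sum.inr_ne_inl, rfl⟩
    have hSm : ∀ j : Fin n, (j : ℕ) < m + 1 → S j ∈
        AC k (Sum.elim S T '' {o | ∀ i : Fin n, m + 1 ≤ (i : ℕ) → o ≠ Sum.inl i}) := fun j hj =>
      subset_AC _ ⟨Sum.inl j, fun i hi hij => by
        rw [← Sum.inl_injective hij] at hi
        omega, rfl⟩
    have hmono : AC k (Sum.elim S T '' {o | ∀ i : Fin n, m ≤ (i : ℕ) → o ≠ Sum.inl i}) ≤
        AC k (Sum.elim S T '' {o | ∀ i : Fin n, m + 1 ≤ (i : ℕ) → o ≠ Sum.inl i}) :=
      AC_mono (Set.image_mono fun o ho j hj => ho j ((Nat.le_succ m).trans hj))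
    have hvm : v (m + 1) ∈
        AC k (Sum.elim S T '' {o | ∀ i : Fin n, m + 1 ≤ (i : ℕ) → o ≠ Sum.inl i}) := by
      refine AC_sq ?_
      rw [h.vs]
      exact aeval_mem' (mix_mem hSm fun j _ => IntermediateField.algebraMap_mem _ _) _
    have hwm : w (m + 1) ∈
        AC k (Sum.elim S T '' {o | ∀ i : Fin n, m + 1 ≤ (i : ℕ) → o ≠ Sum.inl i}) := by
      refine AC_sq ?_
      rw [h.ws]
      exact aeval_mem' (mix_mem hSm fun j _ => hTm j) _
    -- the three extensions
    set M₁ := IntermediateField.adjoin k ((L : Set E) ∪ {S i}) with hM₁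
    set M₂ := IntermediateField.adjoin k ((M₁ : Set E) ∪ {v (m + 1)}) with hM₂
    set M₃ := IntermediateField.adjoin k ((M₂ : Set E) ∪ {w (m + 1)}) with hM₃
    have hL1 : L ≤ M₁ := fun x hx => IntermediateField.subset_adjoin _ _ (Or.inl hx)
    have h12 : M₁ ≤ M₂ := fun x hx => IntermediateField.subset_adjoin _ _ (Or.inl hx)
    have h23 : M₂ ≤ M₃ := fun x hx => IntermediateField.subset_adjoin _ _ (Or.inl hx)
    have hrel : RelCl L M₃ := by
      have hone : w (m + 1) ∈ M₂ → RelCl L M₃ := by
        intro hwM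
        have h8 : M₃ ≤ M₂ := by
          rw [hM₃, IntermediateField.adjoin_le_iff]
          rintro x (hx | hx)
          · exact hx
          · rw [Set.mem_singleton_iff] at hx
            rw [hx]
            exact hwM
        have h9 : RelCl L M₂ := relCl_one hs (A := A) (B := B) (C₀ := C₀) hd e1
        exact h9.mono h8
      by_cases hmn : m + 1 = n
      · have hwv : w (m + 1) = v (m + 1) := by rw [hmn]; exact h.wn
        exact hone (by rw [hwv]; exact IntermediateField.subset_adjoin _ _ (Or.inr rfl))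
      rcases h.ordered i with hlink | ⟨A₁, B₁, hcut⟩
      swap
      · obtain ⟨c1, c2, c3, c4, c5, c6⟩ := h.cut hcut
        have hbB := h.disc_cut hcut
        have hwne : w (m + 1) ≠ 0 := by
          intro h0
          rw [show w ((i : ℕ) + 1) = w (m + 1) from rfl, h0] at c2
          exact mul_ne_zero c4 c6 (by rw [← c2]; ring)
        have hvne : v (m + 1) ≠ 0 := by
          intro h0
          rw [show v ((i : ℕ) + 1) = v (m + 1) from rfl, h0] at c1
          exact mul_ne_zero c4 ((map_ne_zero (algebraMap k E)).mpr hbB) (by rw [← c1]; ring)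
        have hw0 : w 0 ≠ 0 := by
          intro h0
          rw [h0] at c3
          exact mul_ne_zero c5 c6 (by rw [← c3]; ring)
        have hu : w 0 * v (m + 1) / w (m + 1) ∈ M₂ := by
          refine h12 (hL1 (h1 (IntermediateField.subset_adjoin _ _ (Or.inr ⟨m, hm, ?_, rfl⟩))))
          exact ⟨by omega, A₁, B₁, hcut⟩
        have hw0M : w 0 ∈ M₂ := h12 (hL1 (h7 0 (Nat.zero_le _)))
        have hvM : v (m + 1) ∈ M₂ := IntermediateField.subset_adjoin _ _ (Or.inr rfl)
        refine hone ?_
        have h8 : w (m + 1) = w 0 * v (m + 1) / (w 0 * v (m + 1) / w (m + 1)) := by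
          field_simp
        rw [h8]
        exact IntermediateField.div_mem _ (mul_mem hw0M hvM) hu
      · refine relCl_two hs (A := A) (B := B) (C₀ := C₀) (A' := A') (B' := B') (C' := C') hd hd'
          ?_ e1 e2
        rintro ⟨m1, m2, m3⟩
        obtain ⟨P, l, hP, hPf, hil, hiP, hlP⟩ := hlink
        refine not_proportional (irreducible_iff_prime.mp hP) hPf hil hiP hlP (h.deg i) b
          (h.disc_spec i m) ?_
        have inj := mix_indep h.ind m
        have m1' := congrArg (fun x : L => (x : E)) m1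
        have m2' := congrArg (fun x : L => (x : E)) m2
        have m3' := congrArg (fun x : L => (x : E)) m3
        have ep : ∀ a : MvPolynomial (Fin n) k, aeval p a = aeval (mix S T m) (spec b m a) :=
          fun a => (aeval_spec b S T m a).symm
        have m1'' : aeval p (coA f i) * aeval q (coB f i) = aeval q (coA f i) * aeval p (coB f i) :=
          m1'
        have m2'' : aeval p (coA f i) * aeval q (coC f i) = aeval q (coA f i) * aeval p (coC f i) :=
          m2'
        have m3'' : aeval p (coB f i) * aeval q (coC f i) = aeval q (coB f i) * aeval p (coC f i) :=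
          m3'
        rw [ep, ep] at m1'' m2'' m3''
        refine ⟨inj ?_, inj ?_, inj ?_⟩
        · rw [map_mul, map_mul]; exact m1''
        · rw [map_mul, map_mul]; exact m2''
        · rw [map_mul, map_mul]; exact m3''
    refine ⟨M₃, h1.trans (hL1.trans (h12.trans h23)), RelCl.trans h1 h2 hrel, ?_, fun j => ?_,
      fun j hj => ?_, fun j hj => ?_, fun j hj => ?_⟩
    · rw [hM₃, IntermediateField.adjoin_le_iff]
      rintro x (hx | hx)
      · refine (?_ : M₂ ≤ _) hx
        rw [hM₂, IntermediateField.adjoin_le_iff]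
        rintro x (hx | hx)
        · refine (?_ : M₁ ≤ _) hx
          rw [hM₁, IntermediateField.adjoin_le_iff]
          rintro x (hx | hx)
          · exact hmono (h3 hx)
          · rw [Set.mem_singleton_iff] at hx
            rw [hx]
            exact hSm i (Nat.lt_succ_self m)
        · rw [Set.mem_singleton_iff] at hx
          rw [hx]
          exact hvm
      · rw [Set.mem_singleton_iff] at hx
        rw [hx]
        exact hwm
    · exact h23 (h12 (hL1 (h4 j)))
    · rcases Nat.lt_succ_iff_lt_or_eq.mp hj with h8 | h8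
      · exact h23 (h12 (hL1 (h5 j h8)))
      · have : j = i := Fin.ext h8
        rw [this]
        exact h23 (h12 (IntermediateField.subset_adjoin _ _ (Or.inr rfl)))
    · rcases Nat.eq_or_lt_of_le hj with h8 | h8
      · rw [h8]
        exact h23 (IntermediateField.subset_adjoin _ _ (Or.inr rfl))
      · exact h23 (h12 (hL1 (h6 j (Nat.lt_succ_iff.mp h8))))
    · rcases Nat.eq_or_lt_of_le hj with h8 | h8
      · rw [h8]
        exact IntermediateField.subset_adjoin _ _ (Or.inr rfl)
      · exact h23 (h12 (hL1 (h7 j (Nat.lt_succ_iff.mp h8))))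

/-- The function field is contained in a field of rational functions `Ω`, and its algebraic closure
there is contained in `GG n`. -/
theorem OChain.main : ∃ Ω : IntermediateField k E, Pure Ω ∧ GG f T v w 0 ≤ Ω ∧
    ∀ x ∈ Ω, IsAlgebraic (GG f T v w n) x → x ∈ GG f T v w n := by
  obtain ⟨U, -, u2, -, u4, u5, u6, u7⟩ := h.regular n le_rfl
  obtain ⟨L, l1, l2, -, -, l5, l6⟩ := h.second U (fun i => u5 i i.2) u4 u6 u7 n 0 (by omega)
  refine ⟨L, l1, ?_, fun x hx hax => u2 x (l2 hx) hax⟩
  rw [GG_zero, IntermediateField.adjoin_le_iff]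
  rintro x (hx | ⟨i, rfl⟩)
  · rw [hx]; exact l6
  · exact l5 i (Nat.zero_le _)

end

end Pool.Agent.TH178.HI
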