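import Mathlib

/-! Purely transcendental intermediate fields, conic steps, algebraic closures of sets. -/

set_option autoImplicit false

namespace Pool.Agent.TH178.HI

open Polynomial

variable {k E : Type} [Field k] [Field E] [Algebra k E]

/-- `L` is a field of rational functions in finitely many variables over `k`. -/
def Pure (L : IntermediateField k E) : Prop :=
  ∃ (ι : Type) (_ : Finite ι) (x : ι → E), AlgebraicIndependent k x ∧
    IntermediateField.adjoin k (Set.range x) = L

theorem Pure.bot : Pure (⊥ : IntermediateField k E) := by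
  refine ⟨Empty, inferInstance, Empty.elim, ?_, ?_⟩
  · rw [algebraicIndependent_empty_type_iff]
    exact (algebraMap k E).injective
  · rw [Set.range_eq_empty, IntermediateField.adjoin_empty]

theorem Pure.step {L : IntermediateField k E} (h : Pure L) {l : E} (hl : Transcendental L l) :
    Pure (IntermediateField.adjoin k ((L : Set E) ∪ {l})) := by
  obtain ⟨ι, _, x, hx, hL⟩ := h
  subst hL
  refine ⟨Option ι, inferInstance, fun o => o.elim l x, ?_, ?_⟩
  · rw [hx.option_iff_transcendental, ← IntermediateField.transcendental_adjoin_iff]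
    exact hl
  · apply le_antisymm
    · rw [IntermediateField.adjoin_le_iff]
      rintro y ⟨o, rfl⟩
      cases o with
      | none => exact IntermediateField.subset_adjoin _ _ (Or.inr rfl)
      | some i =>
        exact IntermediateField.subset_adjoin _ _
          (Or.inl (IntermediateField.subset_adjoin _ _ ⟨i, rfl⟩))
    · rw [IntermediateField.adjoin_le_iff]
      rintro y (hy | hy)
      · refine (IntermediateField.adjoin_le_iff.mpr ?_) hy
        rintro z ⟨i, rfl⟩
        exact IntermediateField.subset_adjoin _ _ ⟨some i, rfl⟩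
      · rw [Set.mem_singleton_iff] at hy
        rw [hy]
        exact IntermediateField.subset_adjoin _ _ ⟨none, rfl⟩

/-! ### algebraic closures of sets -/

variable (k) in
/-- The elements of `E` which are algebraic over `k(S)`. -/
noncomputable def AC (S : Set E) : IntermediateField k E :=
  (algebraicClosure (IntermediateField.adjoin k S) E).restrictScalars k

theorem mem_AC {S : Set E} {x : E} :
    x ∈ AC k S ↔ IsAlgebraic (IntermediateField.adjoin k S) x := by
  rw [AC, IntermediateField.mem_restrictScalars, mem_algebraicClosure_iff]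

theorem subset_AC (S : Set E) : S ⊆ AC k S := fun x hx =>
  mem_AC.mpr (isAlgebraic_algebraMap
    (⟨x, IntermediateField.subset_adjoin k S hx⟩ : IntermediateField.adjoin k S))

theorem AC_closed {S : Set E} {x : E} (hx : IsAlgebraic (AC k S) x) : x ∈ AC k S := by
  rw [mem_AC]
  have h : IsAlgebraic (algebraicClosure (IntermediateField.adjoin k S) E) x := hx
  exact h.restrictScalars (IntermediateField.adjoin k S)

theorem AC_sq {S : Set E} {x : E} (hx : x ^ 2 ∈ AC k S) : x ∈ AC k S := by
  rw [mem_AC] at hx ⊢
  exact hx.of_pow two_pos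

theorem isAlgebraic_mono' {L M : IntermediateField k E} (h : L ≤ M) {x : E}
    (hx : IsAlgebraic L x) : IsAlgebraic M x := by
  obtain ⟨p, hp, h0⟩ := hx
  refine ⟨p.map (IntermediateField.inclusion h).toRingHom, ?_, ?_⟩
  · rwa [Ne, Polynomial.map_eq_zero]
  · rw [aeval_def, eval₂_map]
    exact h0

theorem transcendental_of_le {ι : Type} {z : ι → E} (hz : AlgebraicIndependent k z) {I : Set ι}
    {i : ι} (hi : i ∉ I) {L : IntermediateField k E} (hL : L ≤ AC k (z '' I)) :
    Transcendental L (z i) := by
  intro h
  have h1 := mem_AC.mp (AC_closed (isAlgebraic_mono' hL h))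
  have h2 := hz.transcendental_adjoin hi
  rw [← IntermediateField.transcendental_adjoin_iff] at h2
  exact h2 h1

/-- elements of `L(x)`, `x` algebraic over `L`, are algebraic over `L` -/
theorem isAlgebraic_of_mem {L : IntermediateField k E} {S : Set E} (hS : ∀ x ∈ S, IsAlgebraic L x)
    {y : E} (hy : y ∈ IntermediateField.adjoin k ((L : Set E) ∪ S)) : IsAlgebraic L y := by
  have h : IntermediateField.adjoin k ((L : Set E) ∪ S) ≤
      (algebraicClosure L E).restrictScalars k := by
    rw [IntermediateField.adjoin_le_iff]
    rintro x (hx | hx)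
    · rw [SetLike.mem_coe, IntermediateField.mem_restrictScalars, mem_algebraicClosure_iff]
      exact isAlgebraic_algebraMap (⟨x, hx⟩ : L)
    · rw [SetLike.mem_coe, IntermediateField.mem_restrictScalars, mem_algebraicClosure_iff]
      exact hS x hx
  have h1 := h hy
  rwa [IntermediateField.mem_restrictScalars, mem_algebraicClosure_iff] at h1

/-- A conic with a rational point is rational. -/
theorem Pure.conic [CharZero E] {L : IntermediateField k E} (h : Pure L) {b v₀ A B C₀ s v : E}
    (hb : b ∈ L) (hv₀ : v₀ ∈ L) (hA : A ∈ L) (hB : B ∈ L) (hd : B ^ 2 - 4 * A * C₀ ≠ 0)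
    (h0 : v₀ ^ 2 = A * b ^ 2 + B * b + C₀) (hs : Transcendental L s)
    (hv : v ^ 2 = A * s ^ 2 + B * s + C₀) :
    Pure (IntermediateField.adjoin k ((L : Set E) ∪ {s, v})) := by
  have h2 : (2 : E) ≠ 0 := two_ne_zero
  have hsb : s - b ≠ 0 := by
    intro h1
    apply hs
    rw [sub_eq_zero.mp h1]
    exact isAlgebraic_algebraMap (⟨b, hb⟩ : L)
  set l := (v - v₀) / (s - b) with hl
  have hvl : v = v₀ + l * (s - b) := by rw [hl]; field_simp; ring
  have key : (s - b) * (l ^ 2 - A) = 2 * A * b + B - 2 * v₀ * l := by
    apply mul_left_cancel₀ hsb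
    rw [hvl] at hv
    linear_combination hv - h0
  have hlA : l ^ 2 - A ≠ 0 := by
    intro h1
    apply hd
    rw [h1, mul_zero] at key
    have h3 : l ^ 2 = A := by linear_combination h1
    have h4 : 2 * A * b + B = 2 * v₀ * l := by linear_combination -key
    have h5 : (2 * A * b + B) ^ 2 = 4 * v₀ ^ 2 * A := by rw [h4, ← h3]; ring
    rw [h0] at h5
    linear_combination h5
  have hLN : ∀ x ∈ L, x ∈ IntermediateField.adjoin k ((L : Set E) ∪ {l}) := fun x hx =>
    IntermediateField.subset_adjoin _ _ (Or.inl hx)
  have hlN : l ∈ IntermediateField.adjoin k ((L : Set E) ∪ {l}) :=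
    IntermediateField.subset_adjoin _ _ (Or.inr rfl)
  have two_mem : (2 : E) ∈ IntermediateField.adjoin k ((L : Set E) ∪ {l}) := by
    exact_mod_cast (IntermediateField.adjoin k ((L : Set E) ∪ {l})).natCast_mem 2
  have hsN : s ∈ IntermediateField.adjoin k ((L : Set E) ∪ {l}) := by
    have : s = b + (2 * A * b + B - 2 * v₀ * l) / (l ^ 2 - A) := by
      rw [← key]; field_simp; ring
    rw [this]
    exact add_mem (hLN _ hb) (IntermediateField.div_mem _
      (sub_mem (add_mem (mul_mem (mul_mem two_mem (hLN _ hA)) (hLN _ hb)) (hLN _ hB))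
        (mul_mem (mul_mem two_mem (hLN _ hv₀)) hlN)) (sub_mem (pow_mem hlN 2) (hLN _ hA)))
  have heq : IntermediateField.adjoin k ((L : Set E) ∪ {s, v}) =
      IntermediateField.adjoin k ((L : Set E) ∪ {l}) := by
    apply le_antisymm
    · rw [IntermediateField.adjoin_le_iff]
      rintro y (hy | hy | hy)
      · exact hLN _ hy
      · rw [hy]; exact hsN
      · rw [Set.mem_singleton_iff] at hy
        rw [hy, hvl]
        exact add_mem (hLN _ hv₀) (mul_mem hlN (sub_mem hsN (hLN _ hb)))
    · rw [IntermediateField.adjoin_le_iff]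
      rintro y (hy | hy)
      · exact IntermediateField.subset_adjoin _ _ (Or.inl hy)
      · rw [Set.mem_singleton_iff] at hy
        rw [hy, hl]
        exact IntermediateField.div_mem _
          (sub_mem (IntermediateField.subset_adjoin _ _ (Or.inr (Or.inr rfl)))
            (IntermediateField.subset_adjoin _ _ (Or.inl hv₀)))
          (sub_mem (IntermediateField.subset_adjoin _ _ (Or.inr (Or.inl rfl)))
            (IntermediateField.subset_adjoin _ _ (Or.inl hb)))
  rw [heq]
  refine h.step fun hal => hs (isAlgebraic_of_mem (S := {l}) ?_ hsN)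
  rintro x hx
  rw [Set.mem_singleton_iff] at hx
  rwa [hx]

end Pool.Agent.TH178.HI
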