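import Pool.Agent.TH178.HI.Rel

/-! Realizable fields, and their descent along a conic fibration. -/

set_option autoImplicit false

namespace Pool.Agent.TH178.HI

open Polynomial

/-- `M` can be embedded over `k`, relatively algebraically closed, in a field of rational functions
in finitely many variables over `k`. -/
def Realizable (k M : Type) [Field k] [Field M] [Algebra k M] : Prop :=
  ∃ (E : Type) (_ : Field E) (_ : Algebra k E) (Ω : IntermediateField k E) (y : M →ₐ[k] E),
    Pure Ω ∧ y.fieldRange ≤ Ω ∧ RelCl y.fieldRange Ω

/-- `K` is the function field of a smooth conic over its subfield `L`. -/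
def IsConicOver {k K : Type} [Field k] [Field K] [Algebra k K] (L : IntermediateField k K) : Prop :=
  ∃ A B C₀ s v : K, A ∈ L ∧ B ∈ L ∧ C₀ ∈ L ∧ B ^ 2 - 4 * A * C₀ ≠ 0 ∧ Transcendental L s ∧
    v ^ 2 = A * s ^ 2 + B * s + C₀ ∧ IntermediateField.adjoin k ((L : Set K) ∪ {s, v}) = ⊤

theorem Pure.map {k E E' : Type} [Field k] [Field E] [Algebra k E] [Field E'] [Algebra k E']
    {Ω : IntermediateField k E} (h : Pure Ω) (j : E →ₐ[k] E') : Pure (Ω.map j) := by
  obtain ⟨ι, hι, x, hx, hΩ⟩ := h
  refine ⟨ι, hι, j ∘ x, hx.map' j.injective, ?_⟩
  rw [← hΩ, IntermediateField.adjoin_map, Set.range_comp]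

section

variable {k K M : Type} [Field k] [Field K] [Algebra k K] [Field M] [Algebra K M] [Algebra k M]
  [IsScalarTower k K M]

/-- The elements of `M` which are algebraic over the subfield `L` of `K`. -/
def algOver (M : Type) [Field M] [Algebra K M] (L : IntermediateField k K) : Set M :=
  {z : M | IsAlgebraic L z}

/-- The same as an intermediate field. -/
noncomputable def LamK (M : Type) [Field M] [Algebra K M] [Algebra k M] [IsScalarTower k K M]
    (L : IntermediateField k K) : IntermediateField k M :=
  (algebraicClosure L M).restrictScalars k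

theorem mem_LamK {L : IntermediateField k K} {z : M} : z ∈ LamK M L ↔ IsAlgebraic L z := by
  rw [LamK, IntermediateField.mem_restrictScalars, mem_algebraicClosure_iff]

theorem algebraMap_mem_LamK {L : IntermediateField k K} {x : K} (hx : x ∈ L) :
    algebraMap K M x ∈ LamK M L :=
  mem_LamK.mpr (isAlgebraic_algebraMap (R := L) (A := M) ⟨x, hx⟩)

/-- elements algebraic over `LamK` belong to it -/
theorem LamK_closed {L : IntermediateField k K} {z : M} (hz : IsAlgebraic (LamK M L) z) :
    z ∈ LamK M L := by
  rw [mem_LamK]
  have h : IsAlgebraic (algebraicClosure L M) z := hz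
  exact h.restrictScalars L

/-- `s` stays transcendental over the elements algebraic over `L`. -/
theorem transcendental_LamK {L : IntermediateField k K} {s : K} (hs : Transcendental L s) :
    Transcendental (LamK M L) (algebraMap K M s) := by
  intro h
  have h1 := mem_LamK.mp (LamK_closed h)
  apply hs
  exact (isAlgebraic_algebraMap_iff (algebraMap K M).injective).mp h1

end

end Pool.Agent.TH178.HI
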