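import Pool.Agent.TH178.HI.Field
import Pool.Agent.W417.HP.BC1

/-! Base change of relatively algebraically closed fields along a conic. -/

set_option autoImplicit false

namespace Pool.Agent.TH178.HI

open Polynomial

variable {k E : Type} [Field k] [Field E] [Algebra k E]

theorem isAlgebraic_trans' {L M : IntermediateField k E} (h : ∀ y ∈ M, IsAlgebraic L y) {x : E}
    (hx : IsAlgebraic M x) : IsAlgebraic L x := by
  have h1 : M ≤ (algebraicClosure L E).restrictScalars k := fun y hy => by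
    rw [IntermediateField.mem_restrictScalars, mem_algebraicClosure_iff]
    exact h y hy
  have h2 : IsAlgebraic ((algebraicClosure L E).restrictScalars k) x := isAlgebraic_mono h1 hx
  have h3 : IsAlgebraic (algebraicClosure L E) x := h2
  exact h3.restrictScalars L

theorem adjoin_two (L : IntermediateField k E) (s v : E) :
    IntermediateField.adjoin k
      ((IntermediateField.adjoin k ((L : Set E) ∪ {s}) : Set E) ∪ {v}) =
      IntermediateField.adjoin k ((L : Set E) ∪ {s, v}) := by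
  apply le_antisymm
  · rw [IntermediateField.adjoin_le_iff]
    rintro x (hx | hx)
    · refine (IntermediateField.adjoin_le_iff.mpr ?_) hx
      rintro z (hz | hz)
      · exact IntermediateField.subset_adjoin _ _ (Or.inl hz)
      · rw [Set.mem_singleton_iff] at hz
        rw [hz]
        exact IntermediateField.subset_adjoin _ _ (Or.inr (Or.inl rfl))
    · rw [Set.mem_singleton_iff] at hx
      rw [hx]
      exact IntermediateField.subset_adjoin _ _ (Or.inr (Or.inr rfl))
  · rw [IntermediateField.adjoin_le_iff]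
    rintro x (hx | hx | hx)
    · exact IntermediateField.subset_adjoin _ _
        (Or.inl (IntermediateField.subset_adjoin _ _ (Or.inl hx)))
    · rw [hx]
      exact IntermediateField.subset_adjoin _ _
        (Or.inl (IntermediateField.subset_adjoin _ _ (Or.inr rfl)))
    · rw [Set.mem_singleton_iff] at hx
      rw [hx]
      exact IntermediateField.subset_adjoin _ _ (Or.inr rfl)

theorem rel_transcendental [CharZero E] {Λ Ω : IntermediateField k E} (h : Λ ≤ Ω)
    (hcl : RelCl Λ Ω) {σ : E} (hσ : Transcendental Ω σ) :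
    RelCl (IntermediateField.adjoin k ((Λ : Set E) ∪ {σ}))
      (IntermediateField.adjoin k ((Ω : Set E) ∪ {σ})) := by
  let _ : Algebra Λ Ω := (IntermediateField.inclusion h).toRingHom.toAlgebra
  have : IsScalarTower Λ Ω E := IsScalarTower.of_algebraMap_eq fun _ => rfl
  have : CharZero Λ := charZero_of_injective_algebraMap (algebraMap ℚ Λ).injective
  have h1 := Pool.Agent.W417.HP.bc1 Λ Ω E Unit (fun _ => σ) (fun x hx => by
    refine ⟨⟨(x : E), hcl x x.2 ?_⟩, rfl⟩
    exact hx.algebraMap) ((algebraicIndependent_unique_type_iff).mpr hσ)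
  intro x hx hax
  have e1 : ∀ L : IntermediateField k E,
      (IntermediateField.adjoin L (Set.range fun _ : Unit => σ)).restrictScalars k =
      IntermediateField.adjoin k ((L : Set E) ∪ {σ}) := by
    intro L
    rw [IntermediateField.restrictScalars_adjoin, Set.range_const]
  rw [← e1, IntermediateField.mem_restrictScalars] at hx ⊢
  refine h1 x hx ?_
  rw [← e1] at hax
  exact hax

theorem rel_conic [CharZero E] {Λ Ω : IntermediateField k E} (h : Λ ≤ Ω) (hcl : RelCl Λ Ω)
    {A B C₀ σ v : E} (hA : A ∈ Λ) (hB : B ∈ Λ) (hC : C₀ ∈ Λ) (hd : B ^ 2 - 4 * A * C₀ ≠ 0)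
    (hσ : Transcendental Ω σ) (hv : v ^ 2 = A * σ ^ 2 + B * σ + C₀) :
    RelCl (IntermediateField.adjoin k ((Λ : Set E) ∪ {σ, v}))
      (IntermediateField.adjoin k ((Ω : Set E) ∪ {σ, v})) := by
  rw [← adjoin_two, ← adjoin_two]
  set Λ1 := IntermediateField.adjoin k ((Λ : Set E) ∪ {σ}) with hΛ1
  set Ω1 := IntermediateField.adjoin k ((Ω : Set E) ∪ {σ}) with hΩ1
  have hrel : RelCl Λ1 Ω1 := rel_transcendental h hcl hσ
  have hle : Λ1 ≤ Ω1 := IntermediateField.adjoin.mono k _ _ (Set.union_subset_union_left _ h)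
  have hσΛ : σ ∈ Λ1 := IntermediateField.subset_adjoin _ _ (Or.inr rfl)
  have hΛ : Λ ≤ Λ1 := fun x hx => IntermediateField.subset_adjoin _ _ (Or.inl hx)
  have hPΛ : A * σ ^ 2 + B * σ + C₀ ∈ Λ1 :=
    add_mem (add_mem (mul_mem (hΛ hA) (pow_mem hσΛ 2)) (mul_mem (hΛ hB) hσΛ)) (hΛ hC)
  let A' : Ω := ⟨A, h hA⟩
  let B' : Ω := ⟨B, h hB⟩
  let C' : Ω := ⟨C₀, h hC⟩
  have hd' : B' ^ 2 - 4 * A' * C' ≠ 0 := by
    intro h0
    apply hd
    have h8 : algebraMap Ω E (B' ^ 2 - 4 * A' * C') = 0 := by rw [h0, map_zero]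
    rw [map_sub, map_mul, map_mul, map_pow, map_ofNat] at h8
    exact h8
  have hvΩ : v ∉ Ω1 := by
    intro hvM
    have h1 : aeval σ (C A' * X ^ 2 + C B' * X + C C' : Polynomial Ω) = ((1 : Ω) : E) * v ^ 2 := by
      rw [aeval_qd, hv]
      show A * σ ^ 2 + B * σ + C₀ = 1 * _
      rw [one_mul]
    obtain ⟨r, hr⟩ := exists_sq_poly hσ _ 1 hvM h1
    exact qd_ne_sq hd' _ _ hr
  have hP0 : A * σ ^ 2 + B * σ + C₀ ≠ 0 := by
    intro h0
    apply hvΩ
    rw [h0] at hv
    rw [pow_eq_zero_iff two_ne_zero] at hv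
    rw [hv]
    exact Ω1.zero_mem
  intro x hx hax
  obtain ⟨a, ha, b, hb, rfl⟩ := mem_adjoin_sqrt (hle hPΛ) hv hx
  have halg : IsAlgebraic Λ1 (a + b * v) := by
    refine isAlgebraic_trans' (fun y hy => isAlgebraic_of_mem (S := {v}) ?_ hy) hax
    rintro z hz
    rw [Set.mem_singleton_iff] at hz
    rw [hz]
    have : IsAlgebraic Λ1 (v ^ 2) := by
      rw [hv]
      exact isAlgebraic_algebraMap (⟨_, hPΛ⟩ : Λ1)
    exact this.of_pow two_pos
  have hc := isAlgebraic_conj hle (hle hPΛ) hv hvΩ ha hb halg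
  have two_mem : ∀ M : IntermediateField k E, (2 : E) ∈ M := fun M => by
    exact_mod_cast M.natCast_mem 2
  have h2 : (2 : E) ≠ 0 := two_ne_zero
  have haΛ : a ∈ Λ1 := by
    have h3 : IsAlgebraic Λ1 (2 * a) := by
      have h4 := halg.add hc
      have h5 : a + b * v + (a - b * v) = 2 * a := by ring
      rwa [h5] at h4
    have h6 := hrel _ (mul_mem (two_mem _) ha) h3
    have h7 : a = 2 * a / 2 := by field_simp
    rw [h7]
    exact Λ1.div_mem h6 (two_mem _)
  have hbΛ : b ∈ Λ1 := by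
    have h3 : IsAlgebraic Λ1 (4 * (b ^ 2 * (A * σ ^ 2 + B * σ + C₀))) := by
      have h4 := (halg.sub hc).pow 2
      have h5 : (a + b * v - (a - b * v)) ^ 2 = 4 * (b ^ 2 * (A * σ ^ 2 + B * σ + C₀)) := by
        rw [← hv]; ring
      rwa [h5] at h4
    have h6 : IsAlgebraic Λ1 ((4 * (A * σ ^ 2 + B * σ + C₀))⁻¹) :=
      isAlgebraic_algebraMap (⟨_, Λ1.inv_mem (mul_mem (by exact_mod_cast Λ1.natCast_mem 4)
        hPΛ)⟩ : Λ1)
    have h7 := h3.mul h6
    have h8 : ∀ P : E, P ≠ 0 → 4 * (b ^ 2 * P) * (4 * P)⁻¹ = b ^ 2 := by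
      intro P hP
      have h4 : (4 : E) ≠ 0 := by norm_num
      field_simp
    rw [h8 _ hP0] at h7
    exact hrel b hb (h7.of_pow two_pos)
  exact add_mem (IntermediateField.subset_adjoin _ _ (Or.inl haΛ))
    (mul_mem (IntermediateField.subset_adjoin _ _ (Or.inl hbΛ))
      (IntermediateField.subset_adjoin _ _ (Or.inr rfl)))

end Pool.Agent.TH178.HI
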