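import Pool.Agent.TH178.HI.Fin
import Pool.Agent.TH178.MZ.Multi

/-! One smooth rational point of a double cover. -/

set_option autoImplicit false

namespace Pool.Agent.TH178.HI

open MvPolynomial Cardinal

/-- A countable field of characteristic zero embeds into `ℂ`. -/
theorem exists_to_complex (k : Type) [Field k] [CharZero k] (hc : #k ≤ ℵ₀) :
    Nonempty (k →+* ℂ) := by
  let P := MvPolynomial ℝ k
  let F := FractionRing P
  let M := AlgebraicClosure F
  have hP : #P = 𝔠 := by
    rw [MvPolynomial.cardinalMk_eq_max, Cardinal.mk_real]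
    apply le_antisymm
    · exact sup_le (sup_le (hc.trans Cardinal.aleph0_le_continuum) le_rfl)
        Cardinal.aleph0_le_continuum
    · exact le_sup_of_le_left le_sup_right
  have hF : #F = 𝔠 := by
    rw [← hP]
    exact IsFractionRing.cardinalMk P F
  have hM : #M = 𝔠 := by
    apply le_antisymm
    · refine (Algebra.IsAlgebraic.cardinalMk_le_max F M).trans ?_
      rw [hF]
      exact max_le le_rfl Cardinal.aleph0_le_continuum
    · rw [← hF]
      exact Cardinal.mk_le_of_injective (algebraMap F M).injective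
  have : CharZero M := by
    have h1 : CharZero P := by
      exact charZero_of_injective_algebraMap (MvPolynomial.C_injective ℝ k)
    have h2 : CharZero F := charZero_of_injective_algebraMap (IsFractionRing.injective P F)
    exact charZero_of_injective_algebraMap (algebraMap F M).injective
  obtain ⟨e⟩ := IsAlgClosed.ringEquiv_of_equiv_of_charZero (K := M) (L := ℂ)
    (by rw [hM]; exact Cardinal.aleph0_lt_continuum) (by
      exact Cardinal.eq.mp (by rw [hM]; exact Cardinal.mk_complex.symm))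
  exact ⟨(e : M →+* ℂ).comp ((algebraMap F M).comp ((algebraMap P F).comp (algebraMap k P)))⟩

theorem exists_dense (k : Type) [Field k] [CharZero k] (hc : #k ≤ ℵ₀) :
    ∃ (L : Type) (_ : NontriviallyNormedField L) (σ : k →+* L), DenseRange σ := by
  obtain ⟨φ⟩ := exists_to_complex k hc
  let i1 : NormedField φ.fieldRange := SubfieldClass.toNormedField _
  let i2 : NontriviallyNormedField φ.fieldRange :=
    { i1 with
      non_trivial := ⟨⟨2, 2, map_ofNat φ 2⟩, by
        show 1 < ‖(2 : ℂ)‖
        norm_num⟩ }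
  have h : Function.Surjective φ.rangeRestrictField := by
    rintro ⟨y, x, hx⟩
    exact ⟨x, Subtype.ext hx⟩
  exact ⟨φ.fieldRange, i2, φ.rangeRestrictField, h.denseRange⟩

/-- There is a smooth `k`-point on `w² = f(t_1, ..., t_n)`. -/
def HasSmoothPoint {k : Type} [Field k] {n : ℕ} (f : MvPolynomial (Fin n) k) : Prop :=
  ∃ (b : Fin n → k) (c : k), c ^ 2 = MvPolynomial.eval b f ∧
    (c ≠ 0 ∨ ∃ i, MvPolynomial.eval b (MvPolynomial.pderiv i f) ≠ 0)

/-- Near a smooth point there are points outside any hypersurface, over countable fields. -/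
theorem point_of_countable {k : Type} [Field k] [CharZero k] (hcard : #k ≤ ℵ₀) {n : ℕ}
    {f : MvPolynomial (Fin n) k} (hsq : ¬ IsSquare f) (hdeg : ∀ i, MvPolynomial.degreeOf i f ≤ 2)
    (h : HasSmoothPoint f) {G : MvPolynomial (Fin n) k} (hG : G ≠ 0) :
    ∃ (b : Fin n → k) (c : k), c ^ 2 = eval b f ∧ eval b G ≠ 0 := by
  classical
  obtain ⟨L, _, σ, hσ⟩ := exists_dense k hcard
  obtain ⟨b, c, hc, hbc⟩ := h
  by_contra hno
  have := MZ.prime_cover hsq
  let y₀ : Option (Fin n) → k := fun o => o.elim c b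
  have h1 : rename some G ∈ MZ.coverIdeal f := by
    refine MZ.mem_of_good σ hσ (MZ.vanish_cover f) (MZ.trdeg_cover hsq) (MZ.field f)
      (fun i => MZ.field_integrable f i (hdeg i)) isOpen_univ (y₀ := y₀) hc (Set.mem_univ _)
      (MZ.card_le_bracketRank f y₀ hbc) _ ?_
    intro y hy _
    rw [MZ.eval_rename_some]
    by_contra h0
    exact hno ⟨fun j => y (some j), y none, hy, h0⟩
  rw [MZ.coverIdeal, Ideal.mem_span_singleton] at h1
  have h2 := map_dvd (optionEquivLeft k (Fin n)) h1
  rw [map_sub, map_pow, optionEquivLeft_X_none, MZ.optionEquivLeft_rename,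
    MZ.optionEquivLeft_rename] at h2
  have h3 := Polynomial.natDegree_le_of_dvd h2 (Polynomial.C_ne_zero.mpr hG)
  rw [Polynomial.natDegree_X_pow_sub_C, Polynomial.natDegree_C] at h3
  omega

theorem map_disc {k k' : Type} [Field k] [Field k'] (φ : k →+* k') {n : ℕ}
    (f : MvPolynomial (Fin n) k) (i : Fin n) : disc (map φ f) i = map φ (disc f i) := by
  rw [disc, disc, map_sub, map_pow, map_mul, map_mul, map_ofNat, pderiv_map, pderiv_map]

/-- From a smooth point to a point of `w² = f` at which `f` and the discriminants which are not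
identically zero do not vanish. -/
theorem good_of_smooth {k : Type} [Field k] [CharZero k] {n : ℕ}
    {f : MvPolynomial (Fin n) k} (hsq : ¬ IsSquare f) (hdeg : ∀ i, MvPolynomial.degreeOf i f ≤ 2)
    (h : HasSmoothPoint f) : ∃ (b : Fin n → k) (c : k), c ^ 2 = eval b f ∧ eval b f ≠ 0 ∧
      ∀ i, disc f i ≠ 0 → eval b (disc f i) ≠ 0 := by
  classical
  obtain ⟨b, c, hc, hbc⟩ := h
  let s : Finset k := (f.coeffs ∪ Finset.univ.image b) ∪ {c}
  let k₀ := IntermediateField.adjoin ℚ (s : Set k)
  have hcard : #k₀ ≤ ℵ₀ := by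
    refine (IntermediateField.cardinalMk_adjoin_le ℚ (s : Set k)).trans ?_
    exact sup_le (sup_le Cardinal.mk_le_aleph0 Cardinal.mk_le_aleph0) le_rfl
  let φ := algebraMap k₀ k
  have hφ : Function.Injective φ := φ.injective
  have hmem : ∀ x ∈ s, x ∈ k₀ := fun x hx => IntermediateField.subset_adjoin ℚ _ hx
  obtain ⟨f₀, hf₀⟩ : ∃ f₀ : MvPolynomial (Fin n) k₀, map φ f₀ = f := by
    have h1 : f ∈ Set.range (map φ : MvPolynomial (Fin n) k₀ →+* _) := by
      rw [MvPolynomial.mem_range_map_iff_coeffs_subset]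
      intro x hx
      exact ⟨⟨x, hmem x (Finset.mem_union_left _ (Finset.mem_union_left _ hx))⟩, rfl⟩
    exact h1
  let b₀ : Fin n → k₀ := fun i => ⟨b i, hmem _ (Finset.mem_union_left _
    (Finset.mem_union_right _ (Finset.mem_image.mpr ⟨i, Finset.mem_univ i, rfl⟩)))⟩
  let c₀ : k₀ := ⟨c, hmem c (Finset.mem_union_right _ (Finset.mem_singleton_self c))⟩
  have hev : ∀ (x : Fin n → k₀) (g : MvPolynomial (Fin n) k₀),
      eval (fun i => φ (x i)) (map φ g) = φ (eval x g) := fun x g => by
    rw [eval_map]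
    exact (MvPolynomial.eval₂_comp φ x g).symm
  have hsq₀ : ¬ IsSquare f₀ := by
    rintro ⟨g, rfl⟩
    apply hsq
    rw [← hf₀, map_mul]
    exact ⟨_, rfl⟩
  have hdeg₀ : ∀ i, degreeOf i f₀ ≤ 2 := by
    intro i
    rw [degreeOf_le_iff]
    intro m hm
    refine (degreeOf_le_iff.mp (hdeg i)) m ?_
    rw [← hf₀, mem_support_iff, coeff_map]
    exact (map_ne_zero φ).mpr (mem_support_iff.mp hm)
  have hsm : HasSmoothPoint f₀ := by
    refine ⟨b₀, c₀, ?_, ?_⟩
    · apply hφ
      rw [← hev, hf₀, map_pow]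
      exact hc
    · rcases hbc with h1 | ⟨i, h1⟩
      · left
        intro h2
        apply h1
        exact congrArg φ h2
      · right
        refine ⟨i, fun h2 => h1 ?_⟩
        rw [← hf₀, pderiv_map]
        have h3 := hev b₀ (pderiv i f₀)
        rw [h2, map_zero] at h3
        exact h3
  let G : MvPolynomial (Fin n) k₀ := f₀ * ∏ i, if disc f₀ i = 0 then 1 else disc f₀ i
  have hf0 : f₀ ≠ 0 := by
    rintro rfl
    exact hsq₀ ⟨0, by simp⟩
  have hG : G ≠ 0 := by
    refine mul_ne_zero hf0 (Finset.prod_ne_zero_iff.mpr fun i _ => ?_)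
    split_ifs with h1
    · exact one_ne_zero
    · exact h1
  obtain ⟨b', c', h1, h2⟩ := point_of_countable hcard hsq₀ hdeg₀ hsm hG
  rw [map_mul, map_prod] at h2
  have h3 := left_ne_zero_of_mul h2
  have h4 := Finset.prod_ne_zero_iff.mp (right_ne_zero_of_mul h2)
  refine ⟨fun i => φ (b' i), φ c', ?_, ?_, ?_⟩
  · rw [← hf₀, hev, ← map_pow, h1]
  · rw [← hf₀, hev]
    exact (map_ne_zero φ).mpr h3
  · intro i hi
    rw [← hf₀, map_disc] at hi ⊢
    rw [hev]
    have h5 : disc f₀ i ≠ 0 := by
      intro h6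
      exact hi (by rw [h6, map_zero])
    have h6 := h4 i (Finset.mem_univ i)
    rw [if_neg h5] at h6
    exact (map_ne_zero φ).mpr h6

theorem not_isSquare_of_disc {k : Type} [Field k] [CharZero k] {n : ℕ}
    {f : MvPolynomial (Fin n) k} {i : Fin n} (hdeg : MvPolynomial.degreeOf i f ≤ 2)
    (hd : disc f i ≠ 0) : ¬ IsSquare f := by
  rintro ⟨g, rfl⟩
  apply hd
  have hg : g ≠ 0 := by
    rintro rfl
    apply hd
    simp [disc]
  have h1 : degreeOf i g ≤ 1 := by
    rw [degreeOf_mul_eq hg hg] at hdeg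
    omega
  have h2 : pderiv i (pderiv i g) = 0 := by
    ext m
    rw [coeff_pderiv, coeff_pderiv, coeff_zero]
    have h3 : coeff (m + Finsupp.single i 1 + Finsupp.single i 1) g = 0 := by
      by_contra h4
      have h5 := (degreeOf_le_iff.mp h1) _ (mem_support_iff.mpr h4)
      simp at h5
    rw [h3, zero_mul, zero_mul]
  rw [disc, Derivation.leibniz, smul_eq_mul, map_add, Derivation.leibniz, smul_eq_mul, smul_eq_mul,
    h2]
  ring

end Pool.Agent.TH178.HI
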