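import Pool.Agent.TH178.HI.Real

/-! Descent of realizable fields along a conic fibration. -/

set_option autoImplicit false

namespace Pool.Agent.TH178.HI

open Polynomial

variable {k K M : Type} [Field k] [Field K] [Algebra k K] [Field M] [Algebra K M] [Algebra k M]
  [IsScalarTower k K M]

theorem isAlgebraic_range {z : M} (hz : IsAlgebraic K z) :
    IsAlgebraic (IsScalarTower.toAlgHom k K M).fieldRange z := by
  obtain ⟨p, hp, h0⟩ := hz
  let ρ : K →+* (IsScalarTower.toAlgHom k K M).fieldRange :=
    (AlgEquiv.ofInjectiveField (IsScalarTower.toAlgHom k K M)).toRingEquiv.toRingHom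
  refine ⟨p.map ρ, ?_, ?_⟩
  · rwa [Ne, Polynomial.map_eq_zero]
  · rw [aeval_def, eval₂_map]
    exact h0

theorem isAlgebraic_all [Algebra.IsAlgebraic K M] {L : IntermediateField k K} {A B C₀ s v : K}
    (hA : A ∈ L) (hB : B ∈ L) (hC : C₀ ∈ L) (hv : v ^ 2 = A * s ^ 2 + B * s + C₀)
    (hgen : IntermediateField.adjoin k ((L : Set K) ∪ {s, v}) = ⊤) (z : M) :
    IsAlgebraic (IntermediateField.adjoin k ((LamK M L : Set M) ∪ {algebraMap K M s})) z := by
  have hz := isAlgebraic_range (k := k) (Algebra.IsAlgebraic.isAlgebraic (R := K) z)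
  refine isAlgebraic_trans' (fun x hx => ?_) hz
  set F := IntermediateField.adjoin k ((LamK M L : Set M) ∪ {algebraMap K M s}) with hF
  have hΛ : ∀ l ∈ L, algebraMap K M l ∈ F := fun l hl =>
    IntermediateField.subset_adjoin _ _ (Or.inl (algebraMap_mem_LamK hl))
  have hsF : algebraMap K M s ∈ F := IntermediateField.subset_adjoin _ _ (Or.inr rfl)
  rw [AlgHom.fieldRange_eq_map, ← hgen, IntermediateField.adjoin_map] at hx
  refine isAlgebraic_of_mem (S := (IsScalarTower.toAlgHom k K M) '' ((L : Set K) ∪ {s, v})) ?_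
    (IntermediateField.adjoin.mono k _ _ (Set.subset_union_right) hx)
  rintro _ ⟨u, hu, rfl⟩
  rcases hu with hu | hu | hu
  · exact isAlgebraic_algebraMap (⟨_, hΛ u hu⟩ : F)
  · rw [hu]
    exact isAlgebraic_algebraMap (⟨_, hsF⟩ : F)
  · rw [Set.mem_singleton_iff] at hu
    rw [hu]
    have h1 : IsAlgebraic F ((algebraMap K M v) ^ 2) := by
      rw [← map_pow, hv, map_add, map_add, map_mul, map_mul, map_pow]
      exact isAlgebraic_algebraMap (⟨_, add_mem (add_mem (mul_mem (hΛ A hA) (pow_mem hsF 2))
        (mul_mem (hΛ B hB) hsF)) (hΛ C₀ hC)⟩ : F)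
    exact h1.of_pow two_pos

theorem exists_embedding [Algebra.IsAlgebraic K M] {L : IntermediateField k K}
    {A B C₀ s v : K} (hA : A ∈ L) (hB : B ∈ L) (hC : C₀ ∈ L) (hs : Transcendental L s)
    (hv : v ^ 2 = A * s ^ 2 + B * s + C₀)
    (hgen : IntermediateField.adjoin k ((L : Set K) ∪ {s, v}) = ⊤) {E : Type} [Field E]
    [Algebra k E] [IsAlgClosed E] (y : M →ₐ[k] E) {σ : E} (hσ : Transcendental y.fieldRange σ) :
    ∃ h : M →ₐ[k] E, (∀ z ∈ LamK M L, h z = y z) ∧ h (algebraMap K M s) = σ := by
  let Λ := LamK M L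
  let _ : Algebra Λ E := (y.comp Λ.val).toRingHom.toAlgebra
  have hΛE : ∀ z : Λ, algebraMap Λ E z = y z := fun _ => rfl
  let F : IntermediateField Λ M := IntermediateField.adjoin Λ {algebraMap K M s}
  let g : F := ⟨algebraMap K M s, IntermediateField.subset_adjoin _ _ rfl⟩
  have hsΛ : Transcendental Λ (algebraMap K M s) := transcendental_LamK hs
  have hx : AlgebraicIndependent Λ (fun _ : Unit => g) := by
    rw [algebraicIndependent_unique_type_iff]
    intro hg
    have h9 : IsAlgebraic Λ (algebraMap F M g) := hg.algebraMap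
    exact hsΛ h9
  have hy : AlgebraicIndependent Λ (fun _ : Unit => σ) := by
    rw [algebraicIndependent_unique_type_iff]
    rintro ⟨p, hp, h0⟩
    apply hσ
    let ρ : Λ →+* y.fieldRange :=
      (AlgEquiv.ofInjectiveField y).toRingEquiv.toRingHom.comp Λ.val.toRingHom
    refine ⟨p.map ρ, ?_, ?_⟩
    · rwa [Ne, Polynomial.map_eq_zero]
    · rw [aeval_def, eval₂_map]
      exact h0
  have htop : IntermediateField.adjoin Λ (Set.range fun _ : Unit => g) = ⊤ := by
    apply IntermediateField.lift_injective F
    rw [IntermediateField.lift_adjoin, IntermediateField.lift_top, ← Set.range_comp]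
    have : Set.range (Subtype.val ∘ fun _ : Unit => g) = {algebraMap K M s} := by
      rw [Set.range_eq_singleton_iff.mpr]
      intro _
      rfl
    rw [this]
  obtain ⟨Ψ, hΨ⟩ := Pool.Agent.W240.HP.lift Λ F E Unit (fun _ => g) (fun _ => σ) hx hy htop
  let _ : Algebra F E := Ψ.toRingHom.toAlgebra
  have halg : Algebra.IsAlgebraic F M := by
    constructor
    intro z
    have h1 := isAlgebraic_all (M := M) hA hB hC hv hgen z
    have h2 : F.restrictScalars k =
        IntermediateField.adjoin k ((LamK M L : Set M) ∪ {algebraMap K M s}) :=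
      IntermediateField.restrictScalars_adjoin k Λ _
    rw [← h2] at h1
    exact h1
  let h0 : M →ₐ[F] E := IsAlgClosed.lift
  have h1 : ∀ x : F, h0 (x : M) = Ψ x := fun x => h0.commutes x
  have h2 : ∀ z : Λ, h0 (z : M) = y z := by
    intro z
    have h3 := h1 (algebraMap Λ F z)
    rw [Ψ.commutes] at h3
    exact h3
  refine ⟨{ h0.toRingHom with
    commutes' := fun a => ?_ }, fun z hz => h2 ⟨z, hz⟩, ?_⟩
  · have h3 := h2 (algebraMap k Λ a)
    have h4 : y ((algebraMap k Λ a : Λ) : M) = algebraMap k E a := y.commutes a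
    exact h3.trans h4
  · exact (h1 g).trans (hΨ ())

theorem isAlgebraic_of_map {E₁ E₂ : Type} [Field E₁] [Field E₂] [Algebra k E₁] [Algebra k E₂]
    (j : E₁ →ₐ[k] E₂) (N : IntermediateField k E₁) {x : E₁}
    (hx : IsAlgebraic (N.map j) (j x)) : IsAlgebraic N x := by
  obtain ⟨p, hp, h0⟩ := hx
  let ρ : N.map j →+* N := (IntermediateField.equivMap N j).symm.toRingEquiv.toRingHom
  have he : ∀ u : N.map j, j (ρ u : E₁) = u := by
    intro u
    obtain ⟨e, rfl⟩ := (IntermediateField.equivMap N j).surjective u
    show j (((IntermediateField.equivMap N j).symm (IntermediateField.equivMap N j e) : N) : E₁) = _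
    rw [AlgEquiv.symm_apply_apply]
    rfl
  refine ⟨p.map ρ, ?_, ?_⟩
  · rwa [Ne, Polynomial.map_eq_zero]
  · apply j.injective
    rw [map_zero, aeval_def, eval₂_map]
    have h2 := Polynomial.hom_eval₂ p ((algebraMap N E₁).comp ρ) j.toRingHom x
    refine h2.trans ?_
    have h3 : j.toRingHom.comp ((algebraMap N E₁).comp ρ) = algebraMap (N.map j) E₂ := by
      ext u
      exact he u
    rw [h3]
    exact h0

theorem transcendental_map {E₁ E₂ : Type} [Field E₁] [Field E₂] [Algebra k E₁] [Algebra k E₂]
    [Algebra E₁ E₂] [IsScalarTower k E₁ E₂] (N : IntermediateField k E₁) {σ : E₂}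
    (hσ : Transcendental E₁ σ) : Transcendental (N.map (IsScalarTower.toAlgHom k E₁ E₂)) σ := by
  rintro ⟨p, hp, h0⟩
  let j := IsScalarTower.toAlgHom k E₁ E₂
  let ρ : N.map j →+* E₁ :=
    (algebraMap N E₁).comp (IntermediateField.equivMap N j).symm.toRingEquiv.toRingHom
  have he : ∀ u : N.map j, algebraMap E₁ E₂ (ρ u) = u := by
    intro u
    obtain ⟨e, rfl⟩ := (IntermediateField.equivMap N j).surjective u
    show j (((IntermediateField.equivMap N j).symm (IntermediateField.equivMap N j e) : N) : E₁) = _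
    rw [AlgEquiv.symm_apply_apply]
    rfl
  apply hσ
  refine ⟨p.map ρ, ?_, ?_⟩
  · rwa [Ne, Polynomial.map_eq_zero]
  · rw [aeval_def, eval₂_map]
    have h1 : (algebraMap E₁ E₂).comp ρ = algebraMap (N.map j) E₂ := by
      ext x
      exact he x
    rw [h1]
    exact h0

/-- Descent along a conic fibration: if `M` is realizable then so is the field generated over `K`
by the elements of `M` which are algebraic over `L`. -/
theorem step [CharZero k] [Algebra.IsAlgebraic K M] {L : IntermediateField k K}
    (hL : IsConicOver L) (hM : Realizable k M) :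
    Realizable k (IntermediateField.adjoin K (algOver M L)) := by
  obtain ⟨A, B, C₀, s, v, hA, hB, hC, hd, hs, hv, hgen⟩ := hL
  obtain ⟨E, _, _, Ω, y, hΩ, hyΩ, hcl⟩ := hM
  let F := FractionRing (Polynomial E)
  let E' := AlgebraicClosure F
  have : CharZero E := charZero_of_injective_algebraMap (algebraMap k E).injective
  let j : E →ₐ[k] E' := IsScalarTower.toAlgHom k E E'
  have hE' : CharZero E' := charZero_of_injective_algebraMap (algebraMap k E').injective
  let σ : E' := algebraMap F E' (algebraMap (Polynomial E) F X)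
  have hσE : Transcendental E σ := by
    have h1 : Transcendental E (algebraMap (Polynomial E) F X) := by
      rw [transcendental_algebraMap_iff (IsFractionRing.injective (Polynomial E) F)]
      exact transcendental_X E
    rwa [transcendental_algebraMap_iff (algebraMap F E').injective]
  have hσΩ : Transcendental (Ω.map j) σ := transcendental_map Ω hσE
  let y' : M →ₐ[k] E' := j.comp y
  have hy' : y'.fieldRange ≤ Ω.map j := by
    rintro _ ⟨z, rfl⟩
    exact ⟨y z, hyΩ ⟨z, rfl⟩, rfl⟩
  have hσy : Transcendental y'.fieldRange σ := fun h => hσΩ (isAlgebraic_mono hy' h)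
  obtain ⟨h, hh1, hh2⟩ := exists_embedding hA hB hC hs hv hgen y' hσy
  have hL : ∀ l ∈ L, h (algebraMap K M l) = y' (algebraMap K M l) := fun l hl =>
    hh1 _ (algebraMap_mem_LamK hl)
  set v' : E' := h (algebraMap K M v) with hv'
  set A' : E' := h (algebraMap K M A) with hA'
  set B' : E' := h (algebraMap K M B) with hB'
  set C' : E' := h (algebraMap K M C₀) with hC'
  have hinj : Function.Injective fun x : K => h (algebraMap K M x) :=
    h.injective.comp (algebraMap K M).injective
  have hd' : B' ^ 2 - 4 * A' * C' ≠ 0 := by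
    intro h0
    apply hd
    apply hinj
    show h (algebraMap K M (B ^ 2 - 4 * A * C₀)) = h (algebraMap K M 0)
    rw [map_zero, map_zero, map_sub, map_mul, map_mul, map_pow, map_ofNat, map_sub, map_mul,
      map_mul, map_pow, map_ofNat]
    exact h0
  have hv2 : v' ^ 2 = A' * σ ^ 2 + B' * σ + C' := by
    have h5 := congrArg (fun x => h (algebraMap K M x)) hv
    simp only [map_add, map_mul, map_pow, hh2] at h5
    exact h5
  -- the images of the old elements
  have hb : y' (algebraMap K M s) ∈ Ω.map j := hy' ⟨_, rfl⟩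
  have hv₀ : y' (algebraMap K M v) ∈ Ω.map j := hy' ⟨_, rfl⟩
  have mA : A' ∈ Ω.map j := by rw [hA', hL A hA]; exact hy' ⟨_, rfl⟩
  have mB : B' ∈ Ω.map j := by rw [hB', hL B hB]; exact hy' ⟨_, rfl⟩
  have h0 : (y' (algebraMap K M v)) ^ 2 = A' * (y' (algebraMap K M s)) ^ 2 +
      B' * (y' (algebraMap K M s)) + C' := by
    rw [hA', hB', hC', hL A hA, hL B hB, hL C₀ hC]
    have h5 := congrArg (fun x => y' (algebraMap K M x)) hv
    simp only [map_add, map_mul, map_pow] at h5
    exact h5
  have hpure := (hΩ.map j).conic hb hv₀ mA mB hd' h0 hσΩ hv2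
  -- the image of the elements algebraic over `L`
  let Λ : IntermediateField k E' := (LamK M L).map y'
  have hΛΩ : Λ ≤ Ω.map j := by
    rintro _ ⟨z, -, rfl⟩
    exact hy' ⟨z, rfl⟩
  have hΛcl : RelCl Λ (Ω.map j) := by
    rintro _ ⟨ω, hω, rfl⟩ hx
    -- `ω` is algebraic over `y (LamK)`
    have h1 : IsAlgebraic ((LamK M L).map y) ω := by
      apply isAlgebraic_of_map j
      rw [IntermediateField.map_map]
      exact hx
    have hle : (LamK M L).map y ≤ y.fieldRange := by
      rintro _ ⟨z, -, rfl⟩
      exact ⟨z, rfl⟩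
    obtain ⟨m, rfl⟩ := hcl ω hω (isAlgebraic_mono hle h1)
    exact ⟨m, LamK_closed (isAlgebraic_of_map y _ h1), rfl⟩
  have hAΛ : A' ∈ Λ := ⟨_, algebraMap_mem_LamK hA, (hL A hA).symm⟩
  have hBΛ : B' ∈ Λ := ⟨_, algebraMap_mem_LamK hB, (hL B hB).symm⟩
  have hCΛ : C' ∈ Λ := ⟨_, algebraMap_mem_LamK hC, (hL C₀ hC).symm⟩
  have hrel := rel_conic hΛΩ hΛcl hAΛ hBΛ hCΛ hd' hσΩ hv2
  -- the embedding
  let M₁ := IntermediateField.adjoin K (algOver M L)
  let h₁ : M₁ →ₐ[k] E' := h.comp (M₁.val.restrictScalars k)
  have hrange : h₁.fieldRange = IntermediateField.adjoin k ((Λ : Set E') ∪ {σ, v'}) := by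
    apply le_antisymm
    · have h4 : (M₁.restrictScalars k).map h ≤
          IntermediateField.adjoin k ((Λ : Set E') ∪ {σ, v'}) := by
        have h5 : M₁.restrictScalars k =
            IntermediateField.adjoin k (Set.range (algebraMap K M) ∪ algOver M L) := by
          apply le_antisymm
          · intro x hx
            rw [IntermediateField.mem_restrictScalars] at hx
            induction hx using IntermediateField.adjoin_induction with
            | mem x hx => exact IntermediateField.subset_adjoin _ _ (Or.inr hx)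
            | algebraMap x => exact IntermediateField.subset_adjoin _ _ (Or.inl ⟨x, rfl⟩)
            | add x y _ _ hx hy => exact add_mem hx hy
            | mul x y _ _ hx hy => exact mul_mem hx hy
            | inv x _ hx => exact IntermediateField.inv_mem _ hx
          · rw [IntermediateField.adjoin_le_iff]
            rintro x (⟨u, rfl⟩ | hx)
            · exact M₁.algebraMap_mem u
            · exact IntermediateField.subset_adjoin K (algOver M L) hx
        rw [h5, IntermediateField.adjoin_map, IntermediateField.adjoin_le_iff]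
        rintro _ ⟨x, hx | hx, rfl⟩
        · obtain ⟨u, rfl⟩ := hx
          have hu : u ∈ IntermediateField.adjoin k ((L : Set K) ∪ {s, v}) := by
            rw [hgen]; trivial
          have h6 : (IntermediateField.adjoin k ((L : Set K) ∪ {s, v})).map
              (h.comp (IsScalarTower.toAlgHom k K M)) ≤
              IntermediateField.adjoin k ((Λ : Set E') ∪ {σ, v'}) := by
            rw [IntermediateField.adjoin_map, IntermediateField.adjoin_le_iff]
            rintro _ ⟨x, hx | hx | hx, rfl⟩
            · refine IntermediateField.subset_adjoin _ _ (Or.inl ?_)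
              exact ⟨algebraMap K M x, algebraMap_mem_LamK hx, (hL x hx).symm⟩
            · rw [hx]
              exact IntermediateField.subset_adjoin _ _ (Or.inr (Or.inl hh2))
            · rw [Set.mem_singleton_iff] at hx
              rw [hx]
              exact IntermediateField.subset_adjoin _ _ (Or.inr (Or.inr rfl))
          exact h6 ⟨u, hu, rfl⟩
        · refine IntermediateField.subset_adjoin _ _ (Or.inl ?_)
          exact ⟨x, mem_LamK.mpr hx, (hh1 x (mem_LamK.mpr hx)).symm⟩
      rintro _ ⟨x, rfl⟩
      exact h4 ⟨(x : M), x.2, rfl⟩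
    · rw [IntermediateField.adjoin_le_iff]
      rintro x (⟨z, hz, rfl⟩ | hx | hx)
      · refine ⟨⟨z, IntermediateField.subset_adjoin _ _ (mem_LamK.mp hz)⟩, ?_⟩
        exact hh1 z hz
      · rw [hx]
        exact ⟨⟨algebraMap K M s, M₁.algebraMap_mem s⟩, hh2⟩
      · rw [Set.mem_singleton_iff] at hx
        rw [hx]
        exact ⟨⟨algebraMap K M v, M₁.algebraMap_mem v⟩, rfl⟩
  refine ⟨E', inferInstance, inferInstance, _, h₁, hpure, ?_, ?_⟩
  · rw [hrange]
    exact IntermediateField.adjoin.mono k _ _ (Set.union_subset_union_left _ hΛΩ)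
  · rw [hrange]
    exact hrel

end Pool.Agent.TH178.HI
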