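import Pool.Agent.TH178.HI.Two
import Pool.Agent.TH178.HI.Pure
import Pool.Agent.TH178.HI.NP

/-! The two towers of the chain of conics. -/

set_option autoImplicit false

namespace Pool.Agent.TH178.HI

open MvPolynomial

variable {k E : Type} [Field k] [Field E] [Algebra k E] {n : ℕ}

theorem AC_mono {S S' : Set E} (h : S ⊆ S') : AC k S ≤ AC k S' := fun _ hx =>
  mem_AC.mpr (isAlgebraic_mono' (IntermediateField.adjoin.mono k S S' h) (mem_AC.mp hx))

theorem aeval_mem' {τ : Type} {L : IntermediateField k E} {p : τ → E} (hp : ∀ i, p i ∈ L)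
    (a : MvPolynomial τ k) : aeval p a ∈ L := by
  induction a using MvPolynomial.induction_on with
  | C c => rw [aeval_C]; exact L.algebraMap_mem c
  | add p q hp hq => rw [map_add]; exact add_mem hp hq
  | mul_X q i hq => rw [map_mul, aeval_X]; exact mul_mem hq (hp i)

theorem mix_mem {L : IntermediateField k E} {s t : Fin n → E} {m : ℕ}
    (hs : ∀ i : Fin n, (i : ℕ) < m → s i ∈ L) (ht : ∀ i : Fin n, m ≤ (i : ℕ) → t i ∈ L)
    (i : Fin n) : mix s t m i ∈ L := by
  rw [mix]
  split_ifs with h
  · exact hs i h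
  · exact ht i (not_lt.mp h)

theorem mix_indep {S T : Fin n → E} (hz : AlgebraicIndependent k (Sum.elim S T)) (m : ℕ) :
    AlgebraicIndependent k (mix S T m) := by
  have h : mix S T m = Sum.elim S T ∘ fun i : Fin n =>
      if (i : ℕ) < m then (Sum.inl i : Fin n ⊕ Fin n) else Sum.inr i := by
    funext i
    rw [mix, Function.comp_apply]
    split_ifs <;> rfl
  rw [h]
  refine hz.comp _ fun i j hij => ?_
  split_ifs at hij
  · exact Sum.inl_injective hij
  · exact Sum.inr_injective hij

theorem aeval_ne_zero_of_indep {τ : Type} {p : τ → E} (hp : AlgebraicIndependent k p)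
    {a : MvPolynomial τ k} (ha : a ≠ 0) : aeval p a ≠ 0 := by
  intro h
  exact ha (hp (by rw [h, map_zero]))

/-- The data of the chain of conics. -/
structure Chain (f : MvPolynomial (Fin n) k) (b : Fin n → k) (S T : Fin n → E)
    (v w : ℕ → E) : Prop where
  linked : Linked f
  deg : ∀ i, degreeOf i f ≤ 2
  disc : ∀ i, eval b (disc f i) ≠ 0
  ind : AlgebraicIndependent k (Sum.elim S T)
  vs : ∀ m, v m ^ 2 = aeval (mix S (fun i => algebraMap k E (b i)) m) f
  ws : ∀ m, w m ^ 2 = aeval (mix S T m) f
  v0 : v 0 ∈ (⊥ : IntermediateField k E)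
  wn : w n = v n

section

variable {f : MvPolynomial (Fin n) k} {b : Fin n → k} {S T : Fin n → E} {v w : ℕ → E}
  (h : Chain f b S T v w)

include h

theorem Chain.disc_ne (i : Fin n) : HI.disc f i ≠ 0 := by
  intro h0
  apply h.disc i
  rw [h0, map_zero]

theorem Chain.disc_spec (i : Fin n) (m : ℕ) : spec b m (HI.disc f i) ≠ 0 := by
  intro h0
  apply h.disc i
  rw [← eval_spec b m, h0, map_zero]

theorem Chain.disc_p (i : Fin n) (m : ℕ) :
    aeval (mix S (fun i => algebraMap k E (b i)) m) (HI.disc f i) ≠ 0 := by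
  rw [← aeval_spec b S T m]
  exact aeval_ne_zero_of_indep (mix_indep h.ind m) (h.disc_spec i m)

theorem Chain.disc_q (i : Fin n) (m : ℕ) : aeval (mix S T m) (HI.disc f i) ≠ 0 :=
  aeval_ne_zero_of_indep (mix_indep h.ind m) (h.disc_ne i)

variable [CharZero k]

/-- the first half of the chain -/
theorem Chain.first (U : IntermediateField k E) (hS : ∀ i, S i ∈ U) (hv : ∀ m ≤ n, v m ∈ U)
    (m : ℕ) (hm : m ≤ n) : ∃ L : IntermediateField k E, Pure L ∧ L ≤ U ∧
      L ≤ AC k (Sum.elim S T '' {o | ∃ i : Fin n, (i : ℕ) < m ∧ o = Sum.inl i}) ∧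
      (∀ i : Fin n, (i : ℕ) < m → S i ∈ L) ∧ v m ∈ L := by
  have hE : CharZero E := charZero_of_injective_algebraMap (algebraMap k E).injective
  induction m with
  | zero => exact ⟨⊥, Pure.bot, bot_le, bot_le, fun i hi => absurd hi (Nat.not_lt_zero _), h.v0⟩
  | succ m ih =>
    obtain ⟨L, h1, h2, h3, h4, h5⟩ := ih (Nat.le_of_succ_le hm)
    let i : Fin n := ⟨m, hm⟩
    let p : Fin n → E := mix S (fun i => algebraMap k E (b i)) m
    have hp : ∀ j, p j ∈ L := mix_mem h4 fun j _ => L.algebraMap_mem _
    have e1 : v m ^ 2 = aeval p (coA f i) * (algebraMap k E (b i)) ^ 2 +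
        aeval p (coB f i) * (algebraMap k E (b i)) + aeval p (coC f i) := by
      rw [← coef_update f i (h.deg i), h.vs]
      exact congrArg (fun q => aeval q f) (mix_self S (fun i => algebraMap k E (b i)) i)
    have e2 : v (m + 1) ^ 2 = aeval p (coA f i) * (S i) ^ 2 +
        aeval p (coB f i) * (S i) + aeval p (coC f i) := by
      rw [← coef_update f i (h.deg i), h.vs]
      exact congrArg (fun q => aeval q f) (mix_succ S (fun i => algebraMap k E (b i)) i)
    have hmono : AC k (Sum.elim S T '' {o | ∃ i : Fin n, (i : ℕ) < m ∧ o = Sum.inl i}) ≤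
        AC k (Sum.elim S T '' {o | ∃ i : Fin n, (i : ℕ) < m + 1 ∧ o = Sum.inl i}) :=
      AC_mono (Set.image_mono fun o ⟨j, hj, ho⟩ => ⟨j, hj.trans (Nat.lt_succ_self m), ho⟩)
    have hSi : S i ∈ AC k (Sum.elim S T '' {o | ∃ i : Fin n, (i : ℕ) < m + 1 ∧ o = Sum.inl i}) :=
      subset_AC _ ⟨Sum.inl i, ⟨i, Nat.lt_succ_self m, rfl⟩, rfl⟩
    refine ⟨IntermediateField.adjoin k ((L : Set E) ∪ {S i, v (m + 1)}), ?_, ?_, ?_, ?_, ?_⟩
    · refine h1.conic (L.algebraMap_mem (b i)) h5 (aeval_mem' hp _) (aeval_mem' hp _) ?_ e1 ?_ e2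
      · have := h.disc_p i m
        rw [← coef_disc] at this
        simpa only [map_sub, map_mul, map_pow, map_ofNat] using this
      · refine transcendental_of_le h.ind (i := Sum.inl i) ?_ h3
        rintro ⟨j, hj, hij⟩
        rw [← Sum.inl_injective hij] at hj
        exact lt_irrefl _ hj
    · rw [IntermediateField.adjoin_le_iff]
      rintro x (hx | hx | hx)
      · exact h2 hx
      · rw [hx]; exact hS i
      · rw [Set.mem_singleton_iff] at hx
        rw [hx]; exact hv _ hm
    · rw [IntermediateField.adjoin_le_iff]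
      rintro x (hx | hx | hx)
      · exact hmono (h3 hx)
      · rw [hx]; exact hSi
      · rw [Set.mem_singleton_iff] at hx
        rw [hx]
        refine AC_sq ?_
        rw [h.vs]
        refine aeval_mem' (mix_mem (fun j hj => ?_) fun j _ => IntermediateField.algebraMap_mem _ _) _
        exact subset_AC _ ⟨Sum.inl j, ⟨j, hj, rfl⟩, rfl⟩
    · intro j hj
      rcases Nat.lt_succ_iff_lt_or_eq.mp hj with h6 | h6
      · exact IntermediateField.subset_adjoin _ _ (Or.inl (h4 j h6))
      · have : j = i := Fin.ext h6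
        rw [this]
        exact IntermediateField.subset_adjoin _ _ (Or.inr (Or.inl rfl))
    · exact IntermediateField.subset_adjoin _ _ (Or.inr (Or.inr rfl))

/-- the second half of the chain -/
theorem Chain.second (U : IntermediateField k E) (hS : ∀ i, S i ∈ U) (hT : ∀ i, T i ∈ U)
    (hv : ∀ m ≤ n, v m ∈ U) (hw : ∀ m ≤ n, w m ∈ U)
    (d m : ℕ) (hm : m + d = n) : ∃ L : IntermediateField k E, Pure L ∧ L ≤ U ∧
      L ≤ AC k (Sum.elim S T '' {o | ∀ i : Fin n, (i : ℕ) < m → o ≠ Sum.inr i}) ∧
      (∀ i, S i ∈ L) ∧ (∀ i : Fin n, m ≤ (i : ℕ) → T i ∈ L) ∧ w m ∈ L := by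
  have hE : CharZero E := charZero_of_injective_algebraMap (algebraMap k E).injective
  induction d generalizing m with
  | zero =>
    obtain rfl : m = n := by omega
    obtain ⟨L, h1, h2, h3, h4, h5⟩ := h.first U hS hv m le_rfl
    refine ⟨L, h1, h2, h3.trans (AC_mono (Set.image_mono ?_)), fun i => h4 i i.2,
      fun i hi => absurd hi (not_le.mpr i.2), by rw [h.wn]; exact h5⟩
    rintro o ⟨j, -, rfl⟩ i - h'
    exact Sum.inl_ne_inr h'
  | succ d ih =>
    obtain ⟨L, h1, h2, h3, h4, h5, h6⟩ := ih (m + 1) (by omega)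
    let i : Fin n := ⟨m, by omega⟩
    let p : Fin n → E := mix S T (m + 1)
    have hp : ∀ j, p j ∈ L := mix_mem (fun j _ => h4 j) h5
    have e1 : w (m + 1) ^ 2 = aeval p (coA f i) * (S i) ^ 2 +
        aeval p (coB f i) * (S i) + aeval p (coC f i) := by
      rw [← coef_update f i (h.deg i), h.ws]
      exact congrArg (fun q => aeval q f) (mix_succ_self S T i)
    have e2 : w m ^ 2 = aeval p (coA f i) * (T i) ^ 2 +
        aeval p (coB f i) * (T i) + aeval p (coC f i) := by
      rw [← coef_update f i (h.deg i), h.ws]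
      exact congrArg (fun q => aeval q f) (mix_back S T i)
    have hmono : AC k (Sum.elim S T '' {o | ∀ i : Fin n, (i : ℕ) < m + 1 → o ≠ Sum.inr i}) ≤
        AC k (Sum.elim S T '' {o | ∀ i : Fin n, (i : ℕ) < m → o ≠ Sum.inr i}) :=
      AC_mono (Set.image_mono fun o ho j hj => ho j (hj.trans (Nat.lt_succ_self m)))
    have hmem : ∀ j : Fin n, m ≤ (j : ℕ) →
        T j ∈ AC k (Sum.elim S T '' {o | ∀ i : Fin n, (i : ℕ) < m → o ≠ Sum.inr i}) :=
      fun j hj => subset_AC _ ⟨Sum.inr j, fun i hi hij => by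
        rw [← Sum.inr_injective hij] at hi
        omega, rfl⟩
    refine ⟨IntermediateField.adjoin k ((L : Set E) ∪ {T i, w m}), ?_, ?_, ?_, ?_, ?_, ?_⟩
    · refine h1.conic (h4 i) h6 (aeval_mem' hp _) (aeval_mem' hp _) ?_ e1 ?_ e2
      · have := h.disc_q i (m + 1)
        rw [← coef_disc] at this
        simpa only [map_sub, map_mul, map_pow, map_ofNat] using this
      · refine transcendental_of_le h.ind (i := Sum.inr i) ?_ h3
        intro hi
        exact hi i (Nat.lt_succ_self m) rfl
    · rw [IntermediateField.adjoin_le_iff]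
      rintro x (hx | hx | hx)
      · exact h2 hx
      · rw [hx]; exact hT i
      · rw [Set.mem_singleton_iff] at hx
        rw [hx]; exact hw _ (by omega)
    · rw [IntermediateField.adjoin_le_iff]
      rintro x (hx | hx | hx)
      · exact hmono (h3 hx)
      · rw [hx]; exact hmem i le_rfl
      · rw [Set.mem_singleton_iff] at hx
        rw [hx]
        refine AC_sq ?_
        rw [h.ws]
        refine aeval_mem' (mix_mem (fun j _ => ?_) hmem) _
        exact subset_AC _ ⟨Sum.inl j, fun i _ => Sum.inl_ne_inr, rfl⟩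
    · exact fun j => IntermediateField.subset_adjoin _ _ (Or.inl (h4 j))
    · intro j hj
      rcases Nat.eq_or_lt_of_le hj with h7 | h7
      · have : j = i := Fin.ext h7.symm
        rw [this]
        exact IntermediateField.subset_adjoin _ _ (Or.inr (Or.inl rfl))
      · exact IntermediateField.subset_adjoin _ _ (Or.inl (h5 j h7))
    · exact IntermediateField.subset_adjoin _ _ (Or.inr (Or.inr rfl))

/-- the tower over the function field -/
theorem Chain.regular (m : ℕ) (hm : m ≤ n) : ∃ L : IntermediateField k E,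
      IntermediateField.adjoin k (insert (w 0) (Set.range T)) ≤ L ∧
      RelCl (IntermediateField.adjoin k (insert (w 0) (Set.range T))) L ∧
      L ≤ AC k (Sum.elim S T '' {o | ∀ i : Fin n, m ≤ (i : ℕ) → o ≠ Sum.inl i}) ∧
      (∀ i, T i ∈ L) ∧ (∀ i : Fin n, (i : ℕ) < m → S i ∈ L) ∧
      (∀ i ≤ m, v i ∈ L) ∧ (∀ i ≤ m, w i ∈ L) := by
  have hE : CharZero E := charZero_of_injective_algebraMap (algebraMap k E).injective
  induction m with
  | zero =>
    refine ⟨_, le_rfl, fun x hx _ => hx, ?_, fun i => ?_, fun i hi => absurd hi (Nat.not_lt_zero _),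
      fun i hi => ?_, fun i hi => ?_⟩
    · rw [IntermediateField.adjoin_le_iff]
      have hTm : ∀ i, T i ∈
          AC k (Sum.elim S T '' {o | ∀ i : Fin n, 0 ≤ (i : ℕ) → o ≠ Sum.inl i}) := fun i =>
        subset_AC _ ⟨Sum.inr i, fun j _ => Sum.inr_ne_inl, rfl⟩
      rintro x (hx | ⟨i, rfl⟩)
      · rw [hx]
        refine AC_sq ?_
        rw [h.ws, mix_zero]
        exact aeval_mem' hTm _
      · exact hTm i
    · exact IntermediateField.subset_adjoin _ _ (Or.inr ⟨i, rfl⟩)
    · obtain rfl : i = 0 := by omega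
      exact (bot_le : (⊥ : IntermediateField k E) ≤ _) h.v0
    · obtain rfl : i = 0 := by omega
      exact IntermediateField.subset_adjoin _ _ (Or.inl rfl)
  | succ m ih =>
    obtain ⟨L, h1, h2, h3, h4, h5, h6, h7⟩ := ih (Nat.le_of_succ_le hm)
    let i : Fin n := ⟨m, hm⟩
    let p : Fin n → E := mix S (fun i => algebraMap k E (b i)) m
    let q : Fin n → E := mix S T m
    have hp : ∀ j, p j ∈ L := mix_mem h5 fun j _ => L.algebraMap_mem _
    have hq : ∀ j, q j ∈ L := mix_mem h5 fun j _ => h4 j
    have e1 : v (m + 1) ^ 2 = aeval p (coA f i) * (S i) ^ 2 +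
        aeval p (coB f i) * (S i) + aeval p (coC f i) := by
      rw [← coef_update f i (h.deg i), h.vs]
      exact congrArg (fun q => aeval q f) (mix_succ S (fun i => algebraMap k E (b i)) i)
    have e2 : w (m + 1) ^ 2 = aeval q (coA f i) * (S i) ^ 2 +
        aeval q (coB f i) * (S i) + aeval q (coC f i) := by
      rw [← coef_update f i (h.deg i), h.ws]
      exact congrArg (fun q => aeval q f) (mix_succ S T i)
    have hs : Transcendental L (S i) := by
      refine transcendental_of_le h.ind (i := Sum.inl i) ?_ h3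
      intro hi
      exact hi i le_rfl rfl
    let A : L := ⟨aeval p (coA f i), aeval_mem' hp _⟩
    let B : L := ⟨aeval p (coB f i), aeval_mem' hp _⟩
    let C₀ : L := ⟨aeval p (coC f i), aeval_mem' hp _⟩
    let A' : L := ⟨aeval q (coA f i), aeval_mem' hq _⟩
    let B' : L := ⟨aeval q (coB f i), aeval_mem' hq _⟩
    let C' : L := ⟨aeval q (coC f i), aeval_mem' hq _⟩
    have hd : B ^ 2 - 4 * A * C₀ ≠ 0 := by
      have := h.disc_p i m
      rw [← coef_disc] at this
      intro h0
      apply this
      have h8 : algebraMap L E (B ^ 2 - 4 * A * C₀) = 0 := by rw [h0, map_zero]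
      rw [map_sub, map_mul, map_mul, map_pow, map_ofNat] at h8
      rw [map_sub, map_mul, map_mul, map_pow, map_ofNat]
      exact h8
    have hd' : B' ^ 2 - 4 * A' * C' ≠ 0 := by
      have := h.disc_q i m
      rw [← coef_disc] at this
      intro h0
      apply this
      have h8 : algebraMap L E (B' ^ 2 - 4 * A' * C') = 0 := by rw [h0, map_zero]
      rw [map_sub, map_mul, map_mul, map_pow, map_ofNat] at h8
      rw [map_sub, map_mul, map_mul, map_pow, map_ofNat]
      exact h8
    have hTm : ∀ j, T j ∈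
        AC k (Sum.elim S T '' {o | ∀ i : Fin n, m + 1 ≤ (i : ℕ) → o ≠ Sum.inl i}) := fun j =>
      subset_AC _ ⟨Sum.inr j, fun j _ => Sum.inr_ne_inl, rfl⟩
    have hSm : ∀ j : Fin n, (j : ℕ) < m + 1 → S j ∈
        AC k (Sum.elim S T '' {o | ∀ i : Fin n, m + 1 ≤ (i : ℕ) → o ≠ Sum.inl i}) := fun j hj =>
      subset_AC _ ⟨Sum.inl j, fun i hi hij => by
        rw [← Sum.inl_injective hij] at hi
        omega, rfl⟩
    have hmono : AC k (Sum.elim S T '' {o | ∀ i : Fin n, m ≤ (i : ℕ) → o ≠ Sum.inl i}) ≤
        AC k (Sum.elim S T '' {o | ∀ i : Fin n, m + 1 ≤ (i : ℕ) → o ≠ Sum.inl i}) :=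
      AC_mono (Set.image_mono fun o ho j hj => ho j ((Nat.le_succ m).trans hj))
    have hvm : v (m + 1) ∈
        AC k (Sum.elim S T '' {o | ∀ i : Fin n, m + 1 ≤ (i : ℕ) → o ≠ Sum.inl i}) := by
      refine AC_sq ?_
      rw [h.vs]
      exact aeval_mem' (mix_mem hSm fun j _ => IntermediateField.algebraMap_mem _ _) _
    have hwm : w (m + 1) ∈
        AC k (Sum.elim S T '' {o | ∀ i : Fin n, m + 1 ≤ (i : ℕ) → o ≠ Sum.inl i}) := by
      refine AC_sq ?_
      rw [h.ws]
      exact aeval_mem' (mix_mem hSm fun j _ => hTm j) _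
    -- the three extensions
    set M₁ := IntermediateField.adjoin k ((L : Set E) ∪ {S i}) with hM₁
    set M₂ := IntermediateField.adjoin k ((M₁ : Set E) ∪ {v (m + 1)}) with hM₂
    set M₃ := IntermediateField.adjoin k ((M₂ : Set E) ∪ {w (m + 1)}) with hM₃
    have hL1 : L ≤ M₁ := fun x hx => IntermediateField.subset_adjoin _ _ (Or.inl hx)
    have h12 : M₁ ≤ M₂ := fun x hx => IntermediateField.subset_adjoin _ _ (Or.inl hx)
    have h23 : M₂ ≤ M₃ := fun x hx => IntermediateField.subset_adjoin _ _ (Or.inl hx)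
    have hrel : RelCl L M₃ := by
      by_cases hmn : m + 1 = n
      · have hwv : w (m + 1) = v (m + 1) := by rw [hmn]; exact h.wn
        have h8 : M₃ ≤ M₂ := by
          rw [hM₃, IntermediateField.adjoin_le_iff]
          rintro x (hx | hx)
          · exact hx
          · rw [Set.mem_singleton_iff] at hx
            rw [hx, hwv]
            exact IntermediateField.subset_adjoin _ _ (Or.inr rfl)
        have h9 : RelCl L M₂ := relCl_one hs (A := A) (B := B) (C₀ := C₀) hd e1
        exact h9.mono h8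
      · refine relCl_two hs (A := A) (B := B) (C₀ := C₀) (A' := A') (B' := B') (C' := C') hd hd'
          ?_ e1 e2
        rintro ⟨m1, m2, m3⟩
        obtain ⟨P, l, hP, hPf, hil, hiP, hlP⟩ := h.linked i (show m + 1 < n by omega)
        refine not_proportional (irreducible_iff_prime.mp hP) hPf hil hiP hlP (h.deg i) b
          (h.disc_spec i m) ?_
        have inj := mix_indep h.ind m
        have m1' := congrArg (fun x : L => (x : E)) m1
        have m2' := congrArg (fun x : L => (x : E)) m2
        have m3' := congrArg (fun x : L => (x : E)) m3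
        have ep : ∀ a : MvPolynomial (Fin n) k, aeval p a = aeval (mix S T m) (spec b m a) :=
          fun a => (aeval_spec b S T m a).symm
        have m1'' : aeval p (coA f i) * aeval q (coB f i) = aeval q (coA f i) * aeval p (coB f i) :=
          m1'
        have m2'' : aeval p (coA f i) * aeval q (coC f i) = aeval q (coA f i) * aeval p (coC f i) :=
          m2'
        have m3'' : aeval p (coB f i) * aeval q (coC f i) = aeval q (coB f i) * aeval p (coC f i) :=
          m3'
        rw [ep, ep] at m1'' m2'' m3''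
        refine ⟨inj ?_, inj ?_, inj ?_⟩
        · rw [map_mul, map_mul]; exact m1''
        · rw [map_mul, map_mul]; exact m2''
        · rw [map_mul, map_mul]; exact m3''
    refine ⟨M₃, h1.trans (hL1.trans (h12.trans h23)), RelCl.trans h1 h2 hrel, ?_, fun j => ?_,
      fun j hj => ?_, fun j hj => ?_, fun j hj => ?_⟩
    · rw [hM₃, IntermediateField.adjoin_le_iff]
      rintro x (hx | hx)
      · refine (?_ : M₂ ≤ _) hx
        rw [hM₂, IntermediateField.adjoin_le_iff]
        rintro x (hx | hx)
        · refine (?_ : M₁ ≤ _) hx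
          rw [hM₁, IntermediateField.adjoin_le_iff]
          rintro x (hx | hx)
          · exact hmono (h3 hx)
          · rw [Set.mem_singleton_iff] at hx
            rw [hx]
            exact hSm i (Nat.lt_succ_self m)
        · rw [Set.mem_singleton_iff] at hx
          rw [hx]
          exact hvm
      · rw [Set.mem_singleton_iff] at hx
        rw [hx]
        exact hwm
    · exact h23 (h12 (hL1 (h4 j)))
    · rcases Nat.lt_succ_iff_lt_or_eq.mp hj with h8 | h8
      · exact h23 (h12 (hL1 (h5 j h8)))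
      · have : j = i := Fin.ext h8
        rw [this]
        exact h23 (h12 (IntermediateField.subset_adjoin _ _ (Or.inr rfl)))
    · rcases Nat.eq_or_lt_of_le hj with h8 | h8
      · rw [h8]
        exact h23 (IntermediateField.subset_adjoin _ _ (Or.inr rfl))
      · exact h23 (h12 (hL1 (h6 j (Nat.lt_succ_iff.mp h8))))
    · rcases Nat.eq_or_lt_of_le hj with h8 | h8
      · rw [h8]
        exact IntermediateField.subset_adjoin _ _ (Or.inr rfl)
      · exact h23 (h12 (hL1 (h7 j (Nat.lt_succ_iff.mp h8))))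

/-- The function field is algebraically closed in a field of rational functions. -/
theorem Chain.main : ∃ Ω : IntermediateField k E, Pure Ω ∧
    IntermediateField.adjoin k (insert (w 0) (Set.range T)) ≤ Ω ∧
    RelCl (IntermediateField.adjoin k (insert (w 0) (Set.range T))) Ω := by
  obtain ⟨U, -, u2, -, u4, u5, u6, u7⟩ := h.regular n le_rfl
  obtain ⟨L, l1, l2, -, -, l5, l6⟩ := h.second U (fun i => u5 i i.2) u4 u6 u7 n 0 (by omega)
  refine ⟨L, l1, ?_, u2.mono l2⟩
  rw [IntermediateField.adjoin_le_iff]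
  rintro x (hx | ⟨i, rfl⟩)
  · rw [hx]; exact l6
  · exact l5 i (Nat.zero_le _)

end

end Pool.Agent.TH178.HI
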