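import Pool.Agent.TH178.HI.Alg
import Pool.Agent.W333.HP.BC0

/-! Two square roots over a rational function field. -/

set_option autoImplicit false

namespace Pool.Agent.TH178.HI

open Polynomial

variable {k E : Type} [Field k] [Field E] [Algebra k E]

/-- `L(s)` with `s` transcendental: `L` is algebraically closed in it. -/
theorem relCl_transcendental {L : IntermediateField k E} {s : E} (hs : Transcendental L s) :
    RelCl L (IntermediateField.adjoin k ((L : Set E) ∪ {s})) := by
  intro x hx hax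
  have h1 := Pool.Agent.W333.HP.bc0 L E Unit (fun _ => s)
    ((algebraicIndependent_unique_type_iff).mpr hs) x ?_ hax
  · obtain ⟨y, rfl⟩ := h1
    exact y.2
  · have h2 : IntermediateField.adjoin k ((L : Set E) ∪ {s}) ≤
        (IntermediateField.adjoin L (Set.range fun _ : Unit => s)).restrictScalars k := by
      rw [IntermediateField.adjoin_le_iff]
      rintro y (hy | hy)
      · have h3 := (IntermediateField.adjoin L (Set.range fun _ : Unit => s)).algebraMap_mem
          (⟨y, hy⟩ : L)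
        rw [SetLike.mem_coe, IntermediateField.mem_restrictScalars]
        exact h3
      · rw [Set.mem_singleton_iff] at hy
        rw [hy, SetLike.mem_coe, IntermediateField.mem_restrictScalars]
        exact IntermediateField.subset_adjoin _ _ ⟨(), rfl⟩
    have h4 := h2 hx
    rwa [IntermediateField.mem_restrictScalars] at h4

/-- Every element of `L(s)` is a quotient of polynomials in `s`. -/
theorem exists_ratio {L : IntermediateField k E} {s : E} {x : E}
    (hx : x ∈ IntermediateField.adjoin k ((L : Set E) ∪ {s})) :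
    ∃ p q : L[X], aeval s q ≠ 0 ∧ x * aeval s q = aeval s p := by
  induction hx using IntermediateField.adjoin_induction with
  | mem x hx =>
    rcases hx with hx | hx
    · refine ⟨C ⟨x, hx⟩, 1, by simp, ?_⟩
      rw [map_one, mul_one, aeval_C]; rfl
    · rw [Set.mem_singleton_iff] at hx
      exact ⟨X, 1, by simp, by simp [hx]⟩
  | algebraMap x =>
    refine ⟨C ⟨_, L.algebraMap_mem x⟩, 1, by simp, ?_⟩
    rw [map_one, mul_one, aeval_C]; rfl
  | add x y _ _ hx hy =>
    obtain ⟨p, q, h1, h2⟩ := hx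
    obtain ⟨p', q', h1', h2'⟩ := hy
    refine ⟨p * q' + p' * q, q * q', by rw [map_mul]; exact mul_ne_zero h1 h1', ?_⟩
    rw [map_add, map_mul, map_mul, map_mul, ← h2, ← h2']; ring
  | mul x y _ _ hx hy =>
    obtain ⟨p, q, h1, h2⟩ := hx
    obtain ⟨p', q', h1', h2'⟩ := hy
    refine ⟨p * p', q * q', by rw [map_mul]; exact mul_ne_zero h1 h1', ?_⟩
    rw [map_mul, map_mul, ← h2, ← h2']; ring
  | inv x _ hx =>
    obtain ⟨p, q, h1, h2⟩ := hx
    by_cases h0 : x = 0
    · exact ⟨0, 1, by simp, by simp [h0]⟩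
    · refine ⟨q, p, ?_, ?_⟩
      · rw [← h2]; exact mul_ne_zero h0 h1
      · rw [← h2]; field_simp

/-- a polynomial in the transcendental element `s` which is a constant times a square in `L(s)` is
a constant times a square in `L[s]` -/
theorem exists_sq_poly {L : IntermediateField k E} {s : E} (hs : Transcendental L s) (P : L[X])
    (c : L) {m : E} (hm : m ∈ IntermediateField.adjoin k ((L : Set E) ∪ {s}))
    (h : aeval s P = (c : E) * m ^ 2) : ∃ r : L[X], P = C c * r ^ 2 := by
  by_cases hc : c = 0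
  · refine ⟨0, ?_⟩
    rw [hc] at h ⊢
    have : aeval s P = aeval s (0 : L[X]) := by rw [h]; simp
    rw [(transcendental_iff_injective.mp hs) this]; simp
  obtain ⟨p, q, hq, hpq⟩ := exists_ratio hm
  have h1 : P * q ^ 2 = C c * p ^ 2 := by
    apply transcendental_iff_injective.mp hs
    rw [map_mul, map_mul, map_pow, map_pow, h, ← hpq, aeval_C]
    show _ = (c : E) * _
    ring
  have h2 : q ^ 2 ∣ p ^ 2 := by
    refine ⟨C c⁻¹ * P, ?_⟩
    have : C c⁻¹ * C c = (1 : L[X]) := by rw [← C_mul, inv_mul_cancel₀ hc, C_1]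
    linear_combination -(p ^ 2) * this - C c⁻¹ * h1
  have h3 : q ∣ p := (IsIntegrallyClosed.pow_dvd_pow_iff two_ne_zero).mp h2
  obtain ⟨r, rfl⟩ := h3
  have hq0 : q ≠ 0 := by
    rintro rfl
    exact hq (map_zero _)
  refine ⟨r, ?_⟩
  apply mul_right_cancel₀ (pow_ne_zero 2 hq0)
  rw [h1]; ring

theorem aeval_qd {L : IntermediateField k E} (s : E) (A B C₀ : L) :
    aeval s (C A * X ^ 2 + C B * X + C C₀ : L[X]) = (A : E) * s ^ 2 + B * s + C₀ := by
  simp only [map_add, map_mul, map_pow, aeval_C, aeval_X]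
  rfl

section

variable [CharZero E] {L : IntermediateField k E} {s : E} (hs : Transcendental L s)

include hs

/-- One square root. -/
theorem relCl_one {A B C₀ : L} (hd : B ^ 2 - 4 * A * C₀ ≠ 0) {v : E}
    (hv : v ^ 2 = (A : E) * s ^ 2 + B * s + C₀) :
    RelCl L (IntermediateField.adjoin k
      (((IntermediateField.adjoin k ((L : Set E) ∪ {s}) : IntermediateField k E) : Set E) ∪ {v})) := by
  have hLM : L ≤ IntermediateField.adjoin k ((L : Set E) ∪ {s}) := fun x hx =>
    IntermediateField.subset_adjoin _ _ (Or.inl hx)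
  have hsM : s ∈ IntermediateField.adjoin k ((L : Set E) ∪ {s}) :=
    IntermediateField.subset_adjoin _ _ (Or.inr rfl)
  refine RelCl.sqrt hLM (relCl_transcendental hs) (P := (A : E) * s ^ 2 + B * s + C₀) ?_ hv ?_
  · exact add_mem (add_mem (mul_mem (hLM A.2) (pow_mem hsM 2)) (mul_mem (hLM B.2) hsM))
      (hLM C₀.2)
  · intro c hc m hm h
    rw [← aeval_qd] at h
    obtain ⟨r, hr⟩ := exists_sq_poly hs _ ⟨c, hc⟩ hm h
    exact qd_ne_sq hd _ _ hr

/-- Two square roots. -/
theorem relCl_two {A B C₀ A' B' C' : L} (hd : B ^ 2 - 4 * A * C₀ ≠ 0)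
    (hd' : B' ^ 2 - 4 * A' * C' ≠ 0)
    (hm : ¬ (A * B' = A' * B ∧ A * C' = A' * C₀ ∧ B * C' = B' * C₀)) {v w : E}
    (hv : v ^ 2 = (A : E) * s ^ 2 + B * s + C₀) (hw : w ^ 2 = (A' : E) * s ^ 2 + B' * s + C') :
    RelCl L (IntermediateField.adjoin k
      (((IntermediateField.adjoin k
        (((IntermediateField.adjoin k ((L : Set E) ∪ {s}) : IntermediateField k E) : Set E) ∪ {v})
          : IntermediateField k E) : Set E) ∪ {w})) := by
  set M := IntermediateField.adjoin k ((L : Set E) ∪ {s}) with hM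
  set M' := IntermediateField.adjoin k ((M : Set E) ∪ {v}) with hM'
  have hLM : L ≤ M := fun x hx => IntermediateField.subset_adjoin _ _ (Or.inl hx)
  have hMM : M ≤ M' := fun x hx => IntermediateField.subset_adjoin _ _ (Or.inl hx)
  have hsM : s ∈ M := IntermediateField.subset_adjoin _ _ (Or.inr rfl)
  have hPM : (A : E) * s ^ 2 + B * s + C₀ ∈ M :=
    add_mem (add_mem (mul_mem (hLM A.2) (pow_mem hsM 2)) (mul_mem (hLM B.2) hsM)) (hLM C₀.2)
  have hQM : (A' : E) * s ^ 2 + B' * s + C' ∈ M :=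
    add_mem (add_mem (mul_mem (hLM A'.2) (pow_mem hsM 2)) (mul_mem (hLM B'.2) hsM)) (hLM C'.2)
  refine RelCl.sqrt (hLM.trans hMM) (relCl_one hs hd hv) (hMM hQM) hw ?_
  intro c hc m hm' h
  obtain ⟨a, ha, b, hb, rfl⟩ := mem_adjoin_sqrt hPM hv hm'
  have hQ0 : (A' : E) * s ^ 2 + B' * s + C' ≠ 0 := by
    rw [← aeval_qd]
    intro h0
    exact qd_ne_zero hd' (transcendental_iff_injective.mp hs (by rw [h0, map_zero]))
  have hc0 : c ≠ 0 := by
    rintro rfl
    rw [zero_mul] at h
    exact hQ0 h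
  have hvM : v ∉ M := by
    intro hvM
    have h1 : aeval s (C A * X ^ 2 + C B * X + C C₀ : L[X]) = ((1 : L) : E) * v ^ 2 := by
      rw [aeval_qd, ← hv]; simp
    obtain ⟨r, hr⟩ := exists_sq_poly hs _ 1 hvM h1
    exact qd_ne_sq hd _ _ hr
  have hab : a * b = 0 := by
    by_contra hab
    apply hvM
    have h2 : v = (((A' : E) * s ^ 2 + B' * s + C') / c - a ^ 2 -
        b ^ 2 * ((A : E) * s ^ 2 + B * s + C₀)) / (2 * (a * b)) := by
      have : (2 : E) ≠ 0 := two_ne_zero
      rw [eq_div_iff (mul_ne_zero this hab)]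
      rw [h, ← hv]
      field_simp
      ring
    rw [h2]
    refine M.div_mem (sub_mem (sub_mem (M.div_mem hQM (hLM hc)) (pow_mem ha 2))
      (mul_mem (pow_mem hb 2) hPM)) (mul_mem (by exact_mod_cast M.natCast_mem 2) (mul_mem ha hb))
  rcases mul_eq_zero.mp hab with h0 | h0
  · rw [h0, zero_add, mul_pow, hv] at h
    have h3 : aeval s ((C A * X ^ 2 + C B * X + C C₀) * (C A' * X ^ 2 + C B' * X + C C') : L[X]) =
        ((⟨c, hc⟩ : L) : E) * (b * ((A : E) * s ^ 2 + B * s + C₀)) ^ 2 := by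
      rw [map_mul, aeval_qd, aeval_qd, h]
      show _ = c * _
      ring
    obtain ⟨r, hr⟩ := exists_sq_poly hs _ ⟨c, hc⟩ (mul_mem hb hPM) h3
    exact qd_mul_ne_sq hd hd' hm _ _ hr
  · rw [h0, zero_mul, add_zero, ← aeval_qd] at h
    obtain ⟨r, hr⟩ := exists_sq_poly hs _ ⟨c, hc⟩ ha h
    exact qd_ne_sq hd' _ _ hr

end

end Pool.Agent.TH178.HI
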